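import Pool.Agent.SOF.W

/-! Project SOG (MP_66ba69_lc, gluing of structures along a cut), definitions. -/

set_option autoImplicit false

namespace Pool.Agent.SOG

open Pool.Agent.SOC Pool.Agent.SOD Pool.Agent.RUP Pool.Agent.SOF

variable {V : Type}

/-- the data of a cut: side `S`, attached vertices `A`, class `B`, same block `K` -/
structure Cut (V : Type) where
  S : V → Prop
  A : V → Prop
  B : V → Prop
  K : V → V → Prop

/-- the sides do not interleave, blocks are intervals of attached vertices of the same class on the same side -/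
structure Cut.Ok (C : Cut V) (X : V → V → V → V → Prop) : Prop where
  sepr : Sepr X
  int : ∀ {a b c d}, C.S a → C.S b → ¬ C.S c → ¬ C.S d → ¬ X a b c d
  kS : ∀ {a b}, C.K a b → C.S a → C.S b
  kA : ∀ {a b}, C.K a b → C.A a
  kB : ∀ {a b}, C.K a b → C.B a → C.B b
  ksym : ∀ {a b}, C.K a b → C.K b a
  ktr : ∀ {a b c}, C.K a b → C.K b c → C.K a c
  kb : ∀ {a b c d}, C.K a b → C.A c → C.S a → C.S c → ¬ C.S d → X a b c d → C.K a c
  kb' : ∀ {a b c d}, C.K a b → C.A c → ¬ C.S a → ¬ C.S c → C.S d → X a b c d → C.K a c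

/-- cuts of type 2K2: on each side two classes, the vertices of different classes of a side are adjacent, vertices of
the same class and different blocks are not adjacent, attached vertices on different sides are adjacent if and only if
their classes are equal -/
structure Cut.Ty0 (C : Cut V) (G : SimpleGraph V) : Prop where
  xa : ∀ {a b}, C.S a → ¬ C.S b → G.Adj a b → C.A a ∧ C.A b ∧ (C.B a ↔ C.B b)
  xc : ∀ {a b}, C.S a → ¬ C.S b → C.A a → C.A b → (C.B a ↔ C.B b) → G.Adj a b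
  cl : ∀ {a b}, (C.S a ↔ C.S b) → C.A a → C.A b → ¬ C.B a → C.B b → G.Adj a b
  cr : ∀ {a b}, (C.S a ↔ C.S b) → C.A a → C.A b → ¬ C.K a b → (C.B a ↔ C.B b) → ¬ G.Adj a b

/-- a structure for the side `s` (`s` is the side `S` or its complement) in which the vertices of the other side stand
for their blocks -/
structure Half (C : Cut V) (G : SimpleGraph V) (X : V → V → V → V → Prop) (s : V → Prop)
    (T : V → V → V → V → Prop) : Prop where
  swap₁ : ∀ {a b c d}, T a b c d → T b a c d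
  swap₂ : ∀ {a b c d}, T a b c d → T c d a b
  ne : ∀ {a b c d}, T a b c d → a ≠ b
  adj : ∀ {a b c d}, T a b c d → G.Adj a c
  nocross : ∀ {a b c d}, T a b c d → ¬ X a b c d
  att : ∀ {a b c d}, T a b c d → s a ∨ C.A a
  d1 : ∀ {a b c d}, T a b c d → ¬ s a → ¬ s b → ¬ C.K a b
  d2 : ∀ {a b c d}, T a b c d → ¬ s a → ¬ s c → ¬ C.K a c
  nb : ∀ {a b c d}, T a b c d → ¬ T a c b d
  some : ∀ {a b c d}, G.Adj a c → G.Adj b d → X a c b d → (s a ∨ C.A a) → (s b ∨ C.A b) → (s c ∨ C.A c) →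
    (s d ∨ C.A d) → (s a ∨ s b ∨ ¬ C.K a b) → (s a ∨ s c ∨ ¬ C.K a c) → (s a ∨ s d ∨ ¬ C.K a d) →
    (s b ∨ s c ∨ ¬ C.K b c) → (s b ∨ s d ∨ ¬ C.K b d) → (s c ∨ s d ∨ ¬ C.K c d) → T a b c d ∨ T a d b c
  trans : ∀ {u w x y z}, x ≠ z → (s x ∨ s z ∨ ¬ C.K x z) → T u w x y → T u w y z → T u w x z
  ferrers : ∀ {a b x y x' y'}, T a x b y → T a x' b y' → T a x b y' ∨ T a x' b y
  inv : ∀ {a b c d e}, ¬ s d → C.K d e → T a b c d → T a b c e

open Classical in
/-- the rule for two vertices `x`, `x'` of the side `S` and two vertices `y`, `y'` of the other side -/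
noncomputable def two (C : Cut V) (T1 T2 E : Prop) (x x' y y' : V) : Prop :=
  if C.K y y' then (if C.K x x' then E else T2) else T1

open Classical in
/-- the glued structure -/
noncomputable def glueT (C : Cut V) (G : SimpleGraph V) (T1 T2 : V → V → V → V → Prop) (a b c d : V) : Prop :=
  (a ≠ b ∧ c ≠ d) ∧
  if C.S a then
    if C.S b then
      if C.S c then T1 a b c d
      else if C.S d then T1 a b c d
      else two C (T1 a b c d) (T2 a b c d) (Sq G a b c d) a b c d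
    else
      if C.S c then
        if C.S d then T1 a b c d else two C (T1 a b c d) (T2 a b c d) False a c b d
      else
        if C.S d then two C (T1 a b c d) (T2 a b c d) False a d b c else T2 a b c d
  else
    if C.S b then
      if C.S c then
        if C.S d then T1 a b c d else two C (T1 a b c d) (T2 a b c d) False b c a d
      else
        if C.S d then two C (T1 a b c d) (T2 a b c d) False b d a c else T2 a b c d
    else
      if C.S c then
        if C.S d then two C (T1 a b c d) (T2 a b c d) (Sq G a b c d) c d a b else T2 a b c d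
      else T2 a b c d

section
variable {C : Cut V} {G : SimpleGraph V} {X T1 T2 : V → V → V → V → Prop}

theorem two1 {p q e : Prop} {x x' y y' : V} (h : ¬ C.K y y') : two C p q e x x' y y' ↔ p := by
  unfold two
  rw [if_neg h]

theorem two2 {p q e : Prop} {x x' y y' : V} (h : C.K y y') (h' : ¬ C.K x x') : two C p q e x x' y y' ↔ q := by
  unfold two
  rw [if_pos h, if_neg h']

theorem two3 {p q e : Prop} {x x' y y' : V} (h : C.K y y') (h' : C.K x x') : two C p q e x x' y y' ↔ e := by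
  unfold two
  rw [if_pos h, if_pos h']

theorem gl1111 {a b c d : V} (h0 : C.S a) (h1 : C.S b) (h2 : C.S c) (h3 : C.S d) :
    glueT C G T1 T2 a b c d ↔ (a ≠ b ∧ c ≠ d) ∧ T1 a b c d := by
  simp only [glueT, h0, h1, h2, h3, if_true, if_false]

theorem gl1110 {a b c d : V} (h0 : C.S a) (h1 : C.S b) (h2 : C.S c) (h3 : ¬ C.S d) :
    glueT C G T1 T2 a b c d ↔ (a ≠ b ∧ c ≠ d) ∧ T1 a b c d := by
  simp only [glueT, h0, h1, h2, h3, if_true, if_false]

theorem gl1101 {a b c d : V} (h0 : C.S a) (h1 : C.S b) (h2 : ¬ C.S c) (h3 : C.S d) :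
    glueT C G T1 T2 a b c d ↔ (a ≠ b ∧ c ≠ d) ∧ T1 a b c d := by
  simp only [glueT, h0, h1, h2, h3, if_true, if_false]

theorem gl1100 {a b c d : V} (h0 : C.S a) (h1 : C.S b) (h2 : ¬ C.S c) (h3 : ¬ C.S d) :
    glueT C G T1 T2 a b c d ↔ (a ≠ b ∧ c ≠ d) ∧ two C (T1 a b c d) (T2 a b c d) (Sq G a b c d) a b c d := by
  simp only [glueT, h0, h1, h2, h3, if_true, if_false]

theorem gl1011 {a b c d : V} (h0 : C.S a) (h1 : ¬ C.S b) (h2 : C.S c) (h3 : C.S d) :
    glueT C G T1 T2 a b c d ↔ (a ≠ b ∧ c ≠ d) ∧ T1 a b c d := by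
  simp only [glueT, h0, h1, h2, h3, if_true, if_false]

theorem gl1010 {a b c d : V} (h0 : C.S a) (h1 : ¬ C.S b) (h2 : C.S c) (h3 : ¬ C.S d) :
    glueT C G T1 T2 a b c d ↔ (a ≠ b ∧ c ≠ d) ∧ two C (T1 a b c d) (T2 a b c d) False a c b d := by
  simp only [glueT, h0, h1, h2, h3, if_true, if_false]

theorem gl1001 {a b c d : V} (h0 : C.S a) (h1 : ¬ C.S b) (h2 : ¬ C.S c) (h3 : C.S d) :
    glueT C G T1 T2 a b c d ↔ (a ≠ b ∧ c ≠ d) ∧ two C (T1 a b c d) (T2 a b c d) False a d b c := by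
  simp only [glueT, h0, h1, h2, h3, if_true, if_false]

theorem gl1000 {a b c d : V} (h0 : C.S a) (h1 : ¬ C.S b) (h2 : ¬ C.S c) (h3 : ¬ C.S d) :
    glueT C G T1 T2 a b c d ↔ (a ≠ b ∧ c ≠ d) ∧ T2 a b c d := by
  simp only [glueT, h0, h1, h2, h3, if_true, if_false]

theorem gl0111 {a b c d : V} (h0 : ¬ C.S a) (h1 : C.S b) (h2 : C.S c) (h3 : C.S d) :
    glueT C G T1 T2 a b c d ↔ (a ≠ b ∧ c ≠ d) ∧ T1 a b c d := by
  simp only [glueT, h0, h1, h2, h3, if_true, if_false]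

theorem gl0110 {a b c d : V} (h0 : ¬ C.S a) (h1 : C.S b) (h2 : C.S c) (h3 : ¬ C.S d) :
    glueT C G T1 T2 a b c d ↔ (a ≠ b ∧ c ≠ d) ∧ two C (T1 a b c d) (T2 a b c d) False b c a d := by
  simp only [glueT, h0, h1, h2, h3, if_true, if_false]

theorem gl0101 {a b c d : V} (h0 : ¬ C.S a) (h1 : C.S b) (h2 : ¬ C.S c) (h3 : C.S d) :
    glueT C G T1 T2 a b c d ↔ (a ≠ b ∧ c ≠ d) ∧ two C (T1 a b c d) (T2 a b c d) False b d a c := by
  simp only [glueT, h0, h1, h2, h3, if_true, if_false]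

theorem gl0100 {a b c d : V} (h0 : ¬ C.S a) (h1 : C.S b) (h2 : ¬ C.S c) (h3 : ¬ C.S d) :
    glueT C G T1 T2 a b c d ↔ (a ≠ b ∧ c ≠ d) ∧ T2 a b c d := by
  simp only [glueT, h0, h1, h2, h3, if_true, if_false]

theorem gl0011 {a b c d : V} (h0 : ¬ C.S a) (h1 : ¬ C.S b) (h2 : C.S c) (h3 : C.S d) :
    glueT C G T1 T2 a b c d ↔ (a ≠ b ∧ c ≠ d) ∧ two C (T1 a b c d) (T2 a b c d) (Sq G a b c d) c d a b := by
  simp only [glueT, h0, h1, h2, h3, if_true, if_false]

theorem gl0010 {a b c d : V} (h0 : ¬ C.S a) (h1 : ¬ C.S b) (h2 : C.S c) (h3 : ¬ C.S d) :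
    glueT C G T1 T2 a b c d ↔ (a ≠ b ∧ c ≠ d) ∧ T2 a b c d := by
  simp only [glueT, h0, h1, h2, h3, if_true, if_false]

theorem gl0001 {a b c d : V} (h0 : ¬ C.S a) (h1 : ¬ C.S b) (h2 : ¬ C.S c) (h3 : C.S d) :
    glueT C G T1 T2 a b c d ↔ (a ≠ b ∧ c ≠ d) ∧ T2 a b c d := by
  simp only [glueT, h0, h1, h2, h3, if_true, if_false]

theorem gl0000 {a b c d : V} (h0 : ¬ C.S a) (h1 : ¬ C.S b) (h2 : ¬ C.S c) (h3 : ¬ C.S d) :
    glueT C G T1 T2 a b c d ↔ (a ≠ b ∧ c ≠ d) ∧ T2 a b c d := by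
  simp only [glueT, h0, h1, h2, h3, if_true, if_false]

end

/-- the relations for the refutations: binary 0 adjacency, 1 same block, 2 side, 3 attached, 4 class; quaternary 0
crossing, 1 and 2 the given structures, 3 the glued structure -/
structure GSy (V : Type) where
  G : SimpleGraph V
  X : V → V → V → V → Prop
  C : Cut V
  T1 : V → V → V → V → Prop
  T2 : V → V → V → V → Prop
  hX : Sym4 X
  h1 : Sym4 T1
  h2 : Sym4 T2
  hK : ∀ a b, C.K a b → C.K b a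

/-- quaternary relations -/
noncomputable def GSy.fam (Y : GSy V) : Nat → V → V → V → V → Prop
  | 0 => Y.X
  | 1 => Y.T1
  | 2 => Y.T2
  | 3 => glueT Y.C Y.G Y.T1 Y.T2
  | _ => fun _ _ _ _ => False

/-- binary relations -/
def GSy.fam2 (Y : GSy V) : Nat → V → V → Prop
  | 0 => Y.G.Adj
  | 1 => Y.C.K
  | 2 => fun a b => a = b ∧ Y.C.S a
  | 3 => fun a b => a = b ∧ Y.C.A a
  | 4 => fun a b => a = b ∧ Y.C.B a
  | _ => fun _ _ => False

theorem two_imp {C : Cut V} {p q e p' q' e' : Prop} {x x' y y' w w' u u' : V} (hp : p → p') (hq : q → q')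
    (he : e → e') (hy : C.K y y' ↔ C.K u u') (hx : C.K x x' ↔ C.K w w') (h : two C p q e x x' y y') :
    two C p' q' e' w w' u u' := by
  by_cases k1 : C.K y y'
  · by_cases k2 : C.K x x'
    · exact (two3 (hy.1 k1) (hx.1 k2)).2 (he ((two3 k1 k2).1 h))
    · exact (two2 (hy.1 k1) (fun k => k2 (hx.2 k))).2 (hq ((two2 k1 k2).1 h))
  · exact (two1 (fun k => k1 (hy.2 k))).2 (hp ((two1 k1).1 h))

theorem glueT_sym {C : Cut V} {G : SimpleGraph V} {T1 T2 : V → V → V → V → Prop} (hK : ∀ a b, C.K a b → C.K b a)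
    (h1 : Sym4 T1) (h2 : Sym4 T2) : Sym4 (glueT C G T1 T2) := by
  have k : ∀ a b, C.K a b ↔ C.K b a := fun a b => ⟨hK a b, hK b a⟩
  constructor
  · intro a b c d h
    by_cases s0 : C.S a <;> by_cases s1 : C.S b <;> by_cases s2 : C.S c <;> by_cases s3 : C.S d <;>
      simp only [glueT, s0, s1, s2, s3, if_true, if_false] at h ⊢ <;>
      first
        | exact ⟨⟨h.1.1.symm, h.1.2⟩, h1.1 _ _ _ _ h.2⟩
        | exact ⟨⟨h.1.1.symm, h.1.2⟩, h2.1 _ _ _ _ h.2⟩
        | exact ⟨⟨h.1.1.symm, h.1.2⟩, two_imp (h1.1 _ _ _ _) (h2.1 _ _ _ _) id Iff.rfl Iff.rfl h.2⟩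
        | exact ⟨⟨h.1.1.symm, h.1.2⟩, two_imp (h1.1 _ _ _ _) (h2.1 _ _ _ _) Sq.symm1 Iff.rfl (k _ _) h.2⟩
        | exact ⟨⟨h.1.1.symm, h.1.2⟩, two_imp (h1.1 _ _ _ _) (h2.1 _ _ _ _) Sq.symm1 (k _ _) Iff.rfl h.2⟩
  · intro a b c d h
    by_cases s0 : C.S a <;> by_cases s1 : C.S b <;> by_cases s2 : C.S c <;> by_cases s3 : C.S d <;>
      simp only [glueT, s0, s1, s2, s3, if_true, if_false] at h ⊢ <;>
      first
        | exact ⟨⟨h.1.2, h.1.1⟩, h1.2 _ _ _ _ h.2⟩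
        | exact ⟨⟨h.1.2, h.1.1⟩, h2.2 _ _ _ _ h.2⟩
        | exact ⟨⟨h.1.2, h.1.1⟩, two_imp (h1.2 _ _ _ _) (h2.2 _ _ _ _) id Iff.rfl Iff.rfl h.2⟩
        | exact ⟨⟨h.1.2, h.1.1⟩, two_imp (h1.2 _ _ _ _) (h2.2 _ _ _ _) id (k _ _) (k _ _) h.2⟩
        | exact ⟨⟨h.1.2, h.1.1⟩, two_imp (h1.2 _ _ _ _) (h2.2 _ _ _ _) Sq.symm2 Iff.rfl Iff.rfl h.2⟩

/-- the family is symmetric -/
theorem GSy.sym (Y : GSy V) (r : Nat) : Sym4 (Y.fam r) := by
  unfold GSy.fam
  split
  · exact Y.hX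
  · exact Y.h1
  · exact Y.h2
  · exact glueT_sym Y.hK Y.h1 Y.h2
  · exact ⟨fun _ _ _ _ h => h, fun _ _ _ _ h => h⟩

/-- the relations -/
noncomputable def GSy.rel (Y : GSy V) : SRel V where
  r2 := Y.fam2
  r3 := fun _ _ _ _ => False
  r4 := Y.fam
  s2 := by
    intro r a b h
    unfold GSy.fam2 at h ⊢
    split at h
    · exact SimpleGraph.Adj.symm h
    · exact Y.hK _ _ h
    · exact ⟨h.1.symm, h.1 ▸ h.2⟩
    · exact ⟨h.1.symm, h.1 ▸ h.2⟩
    · exact ⟨h.1.symm, h.1 ▸ h.2⟩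
    · exact h
  s3 := fun h => h
  s3' := fun h => h
  s4 := fun {r} {_} {_} {_} {_} h => (Y.sym r).1 _ _ _ _ h
  s4' := fun {r} {_} {_} {_} {_} h => (Y.sym r).2 _ _ _ _ h

end Pool.Agent.SOG
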