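import Pool.Agent.SOG.MainG

/-! Project SOG, module MDefs: modification of the structure of one side. The vertices of the block `Y` of the other
side are treated as the vertices of the block `O` when at least two vertices of the block `F` occur. -/

set_option autoImplicit false

namespace Pool.Agent.SOG

open Pool.Agent.SOC Pool.Agent.SOD Pool.Agent.RUP Pool.Agent.SOF

variable {V : Type}

open Classical in
/-- the modified value of the quartet `y p | q r`, for `y` in `Y`, the other vertices not in `Y` -/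
noncomputable def mo (C : Cut V) (T1 : V → V → V → V → Prop) (F O : V → Prop) (y p q r : V) : Prop :=
  if F p then
    if F q then
      if F r then ∃ o, O o ∧ T1 o p q r
      else if C.S r then (if C.A r then False else T1 y p q r)
      else if O r then False else ∃ o, O o ∧ T1 o p q r
    else if F r then
      if C.S q then (if C.A q then False else T1 y p q r)
      else if O q then False else ∃ o, O o ∧ T1 o p q r
    else T1 y p q r
  else if F q ∧ F r then
    if C.S p then (if C.A p then True else T1 y p q r)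
    else if O p then True else ∃ o, O o ∧ T1 o p q r
  else T1 y p q r

open Classical in
/-- the modified structure -/
noncomputable def modT (C : Cut V) (T1 : V → V → V → V → Prop) (F Y O : V → Prop) (a b c d : V) : Prop :=
  (a ≠ b ∧ c ≠ d) ∧
  if Y a then (if Y b then False else if Y c then False else if Y d then False else mo C T1 F O a b c d)
  else if Y b then (if Y c then False else if Y d then False else mo C T1 F O b a c d)
  else if Y c then (if Y d then False else mo C T1 F O c d a b)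
  else if Y d then mo C T1 F O d c a b
  else T1 a b c d

/-- the hypotheses -/
structure MH (C : Cut V) (G : SimpleGraph V) (T1 : V → V → V → V → Prop) (F Y O : V → Prop) : Prop where
  fs : ∀ {a}, F a → C.S a
  fa : ∀ {a}, F a → C.A a
  fk : ∀ {a b}, F a → F b → C.K a b
  fk' : ∀ {a b}, F a → C.K a b → F b
  ys : ∀ {a}, Y a → ¬ C.S a
  ya : ∀ {a}, Y a → C.A a
  yk : ∀ {a b}, Y a → Y b → C.K a b
  yk' : ∀ {a b}, Y a → C.K a b → Y b
  os : ∀ {a}, O a → ¬ C.S a
  oa : ∀ {a}, O a → C.A a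
  ok : ∀ {a b}, O a → O b → C.K a b
  ok' : ∀ {a b}, O a → C.K a b → O b
  yo : ∀ {a}, Y a → O a → False
  ay : ∀ {a b}, Y a → C.S b → C.A b → G.Adj a b
  ay' : ∀ {a b}, Y a → ¬ C.S b → C.A b → ¬ Y b → G.Adj a b
  ax : ∀ {a b}, F a → C.S b → C.A b → ¬ F b → G.Adj a b
  ao : ∀ {a b}, F a → O b → G.Adj a b
  ex : ∃ o, O o
  fact : ∀ {p x x' o}, C.A p → ¬ F p → ¬ Y p → ¬ O p → F x → F x' → x ≠ x' → O o → G.Adj p x → G.Adj p x' → T1 p o x x'

section
variable {C : Cut V} {G : SimpleGraph V} {X T1 : V → V → V → V → Prop} {F Y O : V → Prop}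

theorem mT0 {a b c d : V} (h0 : ¬ Y a) (h1 : ¬ Y b) (h2 : ¬ Y c) (h3 : ¬ Y d) :
    modT C T1 F Y O a b c d ↔ (a ≠ b ∧ c ≠ d) ∧ T1 a b c d := by
  simp only [modT, h0, h1, h2, h3, if_false]

theorem mT1 {a b c d : V} (h0 : Y a) (h1 : ¬ Y b) (h2 : ¬ Y c) (h3 : ¬ Y d) :
    modT C T1 F Y O a b c d ↔ (a ≠ b ∧ c ≠ d) ∧ mo C T1 F O a b c d := by
  simp only [modT, h0, h1, h2, h3, if_true, if_false]

theorem mTab {a b c d : V} (h0 : Y a) (h1 : Y b) (h : modT C T1 F Y O a b c d) : False := by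
  simp only [modT, h0, h1, if_true, and_false] at h

theorem mTac {a b c d : V} (h0 : Y a) (h1 : Y c) (h : modT C T1 F Y O a b c d) : False := by
  by_cases h2 : Y b <;> simp only [modT, h0, h1, h2, if_true, if_false, and_false] at h

theorem mo_swap (h1 : Sym4 T1) {y p q r : V} (h : mo C T1 F O y p q r) : mo C T1 F O y p r q := by
  have sw : ∀ {a b c d}, T1 a b c d → T1 a b d c := fun h => h1.2 _ _ _ _ (h1.1 _ _ _ _ (h1.2 _ _ _ _ h))
  have sx : ∀ {b c d}, (∃ o, O o ∧ T1 o b c d) → ∃ o, O o ∧ T1 o b d c := fun ⟨o, h2, h3⟩ => ⟨o, h2, sw h3⟩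
  by_cases f1 : F p <;> by_cases f2 : F q <;> by_cases f3 : F r <;> by_cases s1 : C.S p <;> by_cases s2 : C.S q <;>
    by_cases s3 : C.S r <;> simp only [mo, f1, f2, f3, s1, s2, s3, if_true, if_false, and_true, and_false,
      and_self] at h ⊢ <;>
    first
      | exact sw h
      | exact sx h
      | (split at h <;> first | exact h.elim | (rename_i k; simp only [k, if_true, if_false]; try (first | exact sw h | exact sx h)))

theorem modT_sym (h1 : Sym4 T1) : Sym4 (modT C T1 F Y O) := by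
  constructor
  · intro a b c d h
    by_cases s0 : Y a <;> by_cases s1 : Y b <;> by_cases s2 : Y c <;> by_cases s3 : Y d <;>
      simp only [modT, s0, s1, s2, s3, if_true, if_false, and_false] at h ⊢ <;>
      first
        | exact ⟨⟨h.1.1.symm, h.1.2⟩, h.2⟩
        | exact ⟨⟨h.1.1.symm, h.1.2⟩, h1.1 _ _ _ _ h.2⟩
        | exact ⟨⟨h.1.1.symm, h.1.2⟩, mo_swap h1 h.2⟩
  · intro a b c d h
    by_cases s0 : Y a <;> by_cases s1 : Y b <;> by_cases s2 : Y c <;> by_cases s3 : Y d <;>
      simp only [modT, s0, s1, s2, s3, if_true, if_false, and_false] at h ⊢ <;>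
      first
        | exact ⟨⟨h.1.2, h.1.1⟩, h.2⟩
        | exact ⟨⟨h.1.2, h.1.1⟩, h1.2 _ _ _ _ h.2⟩

/-- the vertices of `O` are equivalent -/
theorem mex (hh : Half C G X C.S T1) (hm : MH C G T1 F Y O) {v p q r : V} (hv : O v) :
    (∃ o, O o ∧ T1 o p q r) ↔ T1 v p q r := by
  constructor
  · rintro ⟨o, ho, h⟩
    have h1 : T1 q r p o := hh.swap₂ (hh.swap₁ h)
    have h2 : T1 q r p v := hh.inv (hm.os ho) (hm.ok ho hv) h1
    exact hh.swap₁ (hh.swap₂ h2)
  · intro h
    exact ⟨v, hv, h⟩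

section
variable {y p q r v : V}

theorem mo_f (hh : Half C G X C.S T1) (hm : MH C G T1 F Y O) (f1 : F p) (f2 : F q) (f3 : F r) (hv : O v) :
    mo C T1 F O y p q r ↔ T1 v p q r := by
  simp only [mo, f1, f2, f3, if_true]
  exact mex hh hm hv

theorem mo_g1 (f1 : ¬ F p) (f2 : F q) (f3 : F r) (s : ¬ C.S p) (o : O p) : mo C T1 F O y p q r := by
  simp only [mo, f1, f2, f3, s, o, if_true, if_false, and_self]

theorem mo_g2 (hh : Half C G X C.S T1) (hm : MH C G T1 F Y O) (f1 : ¬ F p) (f2 : F q) (f3 : F r) (s : ¬ C.S p)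
    (o : ¬ O p) (hv : O v) : mo C T1 F O y p q r ↔ T1 v p q r := by
  simp only [mo, f1, f2, f3, s, o, if_true, if_false, and_self]
  exact mex hh hm hv

theorem mo_g3 (f1 : ¬ F p) (f2 : F q) (f3 : F r) (s : C.S p) (a : C.A p) : mo C T1 F O y p q r := by
  simp only [mo, f1, f2, f3, s, a, if_true, if_false, and_self]

theorem mo_g4 (f1 : ¬ F p) (f2 : F q) (f3 : F r) (s : C.S p) (a : ¬ C.A p) : mo C T1 F O y p q r ↔ T1 y p q r := by
  simp only [mo, f1, f2, f3, s, a, if_true, if_false, and_self]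

theorem mo_b1 (f1 : F p) (f2 : F q) (f3 : ¬ F r) (s : ¬ C.S r) (o : O r) (h : mo C T1 F O y p q r) : False := by
  simp only [mo, f1, f2, f3, s, o, if_true, if_false] at h

theorem mo_b2 (hh : Half C G X C.S T1) (hm : MH C G T1 F Y O) (f1 : F p) (f2 : F q) (f3 : ¬ F r) (s : ¬ C.S r)
    (o : ¬ O r) (hv : O v) : mo C T1 F O y p q r ↔ T1 v p q r := by
  simp only [mo, f1, f2, f3, s, o, if_true, if_false]
  exact mex hh hm hv

theorem mo_b3 (f1 : F p) (f2 : F q) (f3 : ¬ F r) (s : C.S r) (a : C.A r) (h : mo C T1 F O y p q r) : False := by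
  simp only [mo, f1, f2, f3, s, a, if_true, if_false] at h

theorem mo_b4 (f1 : F p) (f2 : F q) (f3 : ¬ F r) (s : C.S r) (a : ¬ C.A r) : mo C T1 F O y p q r ↔ T1 y p q r := by
  simp only [mo, f1, f2, f3, s, a, if_true, if_false]

theorem mo_12 (f1 : ¬ F p) (f2 : ¬ F q) : mo C T1 F O y p q r ↔ T1 y p q r := by
  simp only [mo, f1, f2, if_false, false_and]

theorem mo_23 (f1 : ¬ F q) (f2 : ¬ F r) : mo C T1 F O y p q r ↔ T1 y p q r := by
  by_cases h : F p <;> simp only [mo, h, f1, f2, if_true, if_false, false_and]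

end

end

/-- the relations for the refutations: binary 0 adjacency, 1 same block, 2 side, 3 attached, 5, 6, 7 the blocks; quaternary 0
crossing, 1 the given structure, 3 the modified structure -/
structure MSy (V : Type) where
  G : SimpleGraph V
  X : V → V → V → V → Prop
  C : Cut V
  T1 : V → V → V → V → Prop
  F : V → Prop
  Y : V → Prop
  O : V → Prop
  hX : Sym4 X
  h1 : Sym4 T1
  hK : ∀ a b, C.K a b → C.K b a

/-- quaternary relations -/
noncomputable def MSy.fam (Y : MSy V) : Nat → V → V → V → V → Prop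
  | 0 => Y.X
  | 1 => Y.T1
  | 3 => modT Y.C Y.T1 Y.F Y.Y Y.O
  | _ => fun _ _ _ _ => False

/-- binary relations -/
def MSy.fam2 (Y : MSy V) : Nat → V → V → Prop
  | 0 => Y.G.Adj
  | 1 => Y.C.K
  | 2 => fun a b => a = b ∧ Y.C.S a
  | 3 => fun a b => a = b ∧ Y.C.A a
  | 5 => fun a b => a = b ∧ Y.F a
  | 6 => fun a b => a = b ∧ Y.Y a
  | 7 => fun a b => a = b ∧ Y.O a
  | _ => fun _ _ => False

/-- the family is symmetric -/
theorem MSy.sym (Y : MSy V) (r : Nat) : Sym4 (Y.fam r) := by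
  unfold MSy.fam
  split
  · exact Y.hX
  · exact Y.h1
  · exact modT_sym Y.h1
  · exact ⟨fun _ _ _ _ h => h, fun _ _ _ _ h => h⟩

/-- the relations -/
noncomputable def MSy.rel (Y : MSy V) : SRel V where
  r2 := Y.fam2
  r3 := fun _ _ _ _ => False
  r4 := Y.fam
  s2 := by
    intro r a b h
    unfold MSy.fam2 at h ⊢
    split at h
    · exact SimpleGraph.Adj.symm h
    · exact Y.hK _ _ h
    · exact ⟨h.1.symm, h.1 ▸ h.2⟩
    · exact ⟨h.1.symm, h.1 ▸ h.2⟩
    · exact ⟨h.1.symm, h.1 ▸ h.2⟩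
    · exact ⟨h.1.symm, h.1 ▸ h.2⟩
    · exact ⟨h.1.symm, h.1 ▸ h.2⟩
    · exact h
  s3 := fun h => h
  s3' := fun h => h
  s4 := fun {r} {_} {_} {_} {_} h => (Y.sym r).1 _ _ _ _ h
  s4' := fun {r} {_} {_} {_} {_} h => (Y.sym r).2 _ _ _ _ h

end Pool.Agent.SOG
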