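import Pool.Agent.SOG.RgG
import Pool.Agent.SOG.Main

/-! Project SOG, module MainG: the glued structure satisfies all axioms, for general cuts. -/

set_option autoImplicit false

namespace Pool.Agent.SOG

open Pool.Agent.SOC Pool.Agent.SOD Pool.Agent.RUP Pool.Agent.SOF

variable {V : Type} {C : Cut V} {G : SimpleGraph V} {X T1 T2 : V → V → V → V → Prop}

/-- GLUING along a general cut -/
theorem glue_qt (hc : C.Ok X) (hg : C.Bi G) (hh1 : Half C G X C.S T1) (hh2 : Half C G X (fun a => ¬ C.S a) T2)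
    (hf : Facts C G T1 T2) : QT G X (glueT C G T1 T2) := by
  have sX : Sym4 X := ⟨fun _ _ _ _ => hc.sepr.swap, fun _ _ _ _ => hc.sepr.comm⟩
  have s1 : Sym4 T1 := ⟨fun _ _ _ _ => hh1.swap₁, fun _ _ _ _ => hh1.swap₂⟩
  have s2 : Sym4 T2 := ⟨fun _ _ _ _ => hh2.swap₁, fun _ _ _ _ => hh2.swap₂⟩
  have hK : ∀ a b, C.K a b → C.K b a := fun _ _ => hc.ksym
  let Y : GSy V := ⟨G, X, C, T1, T2, sX, s1, s2, hK⟩
  have sT := glueT_sym (G := G) hK s1 s2
  have sq := fun {a b c d : V} (h : glueT C G T1 T2 a b c d) => glueT_sq hh1 hh2 h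
  have sw3 : ∀ {a b c d : V}, glueT C G T1 T2 a b c d → glueT C G T1 T2 a b d c :=
    fun h => sT.2 _ _ _ _ (sT.1 _ _ _ _ (sT.2 _ _ _ _ h))
  have nb : ∀ {a b c d : V}, glueT C G T1 T2 a b c d → ¬ glueT C G T1 T2 a c b d := by
    intro a b c d h1 h2
    obtain ⟨⟨n1, n2⟩, e1, e2, e3, e4⟩ := sq h1
    refine ggnb (Y := Y) hc hg hh1 hh2 hf (a := a) (b := b) (c := c) (d := d) ?_ h1 h2
    simp only [List.nodup_cons, List.mem_cons, List.not_mem_nil, or_false, not_or, not_false_eq_true,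
      List.nodup_nil, and_true]
    exact ⟨⟨n1, e1.ne, e2.ne⟩, ⟨e3.ne, e4.ne⟩, n2⟩
  have f5 : ∀ {a b x y x2 : V}, glueT C G T1 T2 a x b y → glueT C G T1 T2 a x2 b x → y ≠ x2 →
      glueT C G T1 T2 a x2 b y := by
    intro a b x y x2 h1 h2 h3
    by_contra hn
    obtain ⟨⟨n1, n2⟩, e1, e2, e3, e4⟩ := sq h1
    obtain ⟨⟨m1, m2⟩, f1, f2, f3, f4⟩ := sq h2
    refine ggf5 (Y := Y) hc hg hh1 hh2 hf (u := a) (w := b) (x := x) (y := y) (z := x2) ?_ h1 h2 hn
    simp only [List.nodup_cons, List.mem_cons, List.not_mem_nil, or_false, not_or, not_false_eq_true,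
      List.nodup_nil, and_true]
    exact ⟨⟨e1.ne, n1, e2.ne, m1⟩, ⟨m2, n2, f3.ne.symm⟩, ⟨e4.ne, f4.ne.symm⟩, h3⟩
  refine ⟨fun h => sT.1 _ _ _ _ h, fun h => sT.2 _ _ _ _ h, fun h => h.1.1, fun h => (sq h).2.1, ?_, ?_, ?_, ?_, ?_⟩
  · intro a b c d h1 h2
    obtain ⟨⟨n1, n2⟩, e1, e2, e3, e4⟩ := sq h1
    refine ggnc (Y := Y) hc hg hh1 hh2 hf (a := a) (b := b) (c := c) (d := d) ?_ h1 h2
    simp only [List.nodup_cons, List.mem_cons, List.not_mem_nil, or_false, not_or, not_false_eq_true,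
      List.nodup_nil, and_true]
    exact ⟨⟨n1, e1.ne, e2.ne⟩, ⟨e3.ne, e4.ne⟩, n2⟩
  · intro a b c d ac bd ab ad bc cd hx
    by_contra hn
    rw [not_or] at hn
    refine ggsome (Y := Y) hc hg hh1 hh2 hf (a := a) (b := b) (c := c) (d := d) ?_ ac bd hx hn.1 hn.2
    simp only [List.nodup_cons, List.mem_cons, List.not_mem_nil, or_false, not_or, not_false_eq_true,
      List.nodup_nil, and_true]
    exact ⟨⟨ab, ac.ne, ad⟩, ⟨bc, bd.ne⟩, cd⟩
  · intro a b c d h1 h2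
    exact nb (sw3 h1) h2
  · intro u w x y z h1 h2 xz
    by_contra hn
    obtain ⟨⟨n1, n2⟩, e1, e2, e3, e4⟩ := sq h1
    obtain ⟨⟨m1, m2⟩, f1, f2, f3, f4⟩ := sq h2
    refine ggtr (Y := Y) hc hg hh1 hh2 hf (u := u) (w := w) (x := x) (y := y) (z := z) ?_ h1 h2 hn
    simp only [List.nodup_cons, List.mem_cons, List.not_mem_nil, or_false, not_or, not_false_eq_true,
      List.nodup_nil, and_true]
    exact ⟨⟨n1, e1.ne, e2.ne, f2.ne⟩, ⟨e3.ne, e4.ne, f4.ne⟩, ⟨n2, xz⟩, m2⟩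
  · intro a b x y x' y' h1 h2
    by_cases xx : x = x'
    · subst xx
      exact Or.inl h2
    · by_cases yy : y = y'
      · subst yy
        exact Or.inr h2
      · by_cases xy : x = y'
        · subst xy
          by_cases yx : y = x'
          · subst yx
            exact (nb (sw3 h1) (sw3 h2)).elim
          · exact Or.inr (f5 h1 h2 yx)
        · by_cases yx : y = x'
          · subst yx
            exact Or.inl (f5 h2 h1 (fun h => xy h.symm))
          · by_contra hn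
            rw [not_or] at hn
            obtain ⟨⟨n1, n2⟩, e1, e2, e3, e4⟩ := sq h1
            obtain ⟨⟨m1, m2⟩, f1, f2, f3, f4⟩ := sq h2
            refine ggf6 (Y := Y) hc hg hh1 hh2 hf (a := a) (b := b) (x := x) (y := y) (x2 := x') (y2 := y') ?_ h1 h2
              hn.1 hn.2
            simp only [List.nodup_cons, List.mem_cons, List.not_mem_nil, or_false, not_or, not_false_eq_true,
              List.nodup_nil, and_true]
            exact ⟨⟨e1.ne, n1, e2.ne, m1, f2.ne⟩, ⟨e3.ne.symm, n2, f3.ne.symm, m2⟩, ⟨e4.ne, xx, xy⟩, ⟨yx, yy⟩,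
              f4.ne⟩

end Pool.Agent.SOG
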