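import Pool.Agent.SOG.RgM1
import Pool.Agent.SOG.RgM2
import Pool.Agent.SOG.RgM3

/-! Project SOG, module MainM: the modified structure is a structure of the side. -/

set_option autoImplicit false

namespace Pool.Agent.SOG

open Pool.Agent.SOC Pool.Agent.SOD Pool.Agent.RUP Pool.Agent.SOF

variable {V : Type} {C : Cut V} {G : SimpleGraph V} {X T1 : V → V → V → V → Prop} {F Y O : V → Prop}

theorem mo_ne (hh : Half C G X C.S T1) {y p q r : V}
    (h : mo C T1 F O y p q r) : p ≠ q ∧ p ≠ r := by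
  have n1 : ∀ {a b c d : V}, T1 a b c d → b ≠ c ∧ b ≠ d := fun h =>
    ⟨(hh.adj (hh.swap₁ h)).ne, (hh.adj (hh.swap₁ (hh.swap₂ (hh.swap₁ (hh.swap₂ h))))).ne⟩
  have n2 : (∃ o, O o ∧ T1 o p q r) → p ≠ q ∧ p ≠ r := fun ⟨o, _, h⟩ => n1 h
  by_cases f1 : F p
  · by_cases f2 : F q
    · by_cases f3 : F r
      · simp only [mo, f1, f2, f3, if_true] at h
        exact n2 h
      · refine ⟨?_, fun e => f3 (e ▸ f1)⟩
        simp only [mo, f1, f2, f3, if_true, if_false] at h
        split at h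
        · split at h
          · exact h.elim
          · exact (n1 h).1
        · split at h
          · exact h.elim
          · exact (n2 h).1
    · by_cases f3 : F r
      · refine ⟨fun e => f2 (e ▸ f1), ?_⟩
        simp only [mo, f1, f2, f3, if_true, if_false] at h
        split at h
        · split at h
          · exact h.elim
          · exact (n1 h).2
        · split at h
          · exact h.elim
          · exact (n2 h).2
      · exact n1 ((mo_23 f2 f3).1 h)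
  · by_cases f2 : F q ∧ F r
    · exact ⟨fun e => f1 (e ▸ f2.1), fun e => f1 (e ▸ f2.2)⟩
    · simp only [mo, f1, f2, if_false] at h
      exact n1 h

/-- the four points are different -/
theorem modT_nd (hh : Half C G X C.S T1) (hm : MH C G T1 F Y O) {a b c d : V} (h : modT C T1 F Y O a b c d) :
    [a, b, c, d].Nodup := by
  have s1 : Sym4 T1 := ⟨fun _ _ _ _ => hh.swap₁, fun _ _ _ _ => hh.swap₂⟩
  have sT := modT_sym (C := C) (F := F) (Y := Y) (O := O) s1
  have n1 : ∀ {a b c d : V}, T1 a b c d → a ≠ b ∧ c ≠ d ∧ a ≠ c ∧ a ≠ d ∧ b ≠ c ∧ b ≠ d := fun h =>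
    ⟨hh.ne h, hh.ne (hh.swap₂ h), (hh.adj h).ne, (hh.adj (hh.swap₂ (hh.swap₁ (hh.swap₂ h)))).ne,
      (hh.adj (hh.swap₁ h)).ne, (hh.adj (hh.swap₁ (hh.swap₂ (hh.swap₁ (hh.swap₂ h))))).ne⟩
  have key : ∀ {a b c d : V}, modT C T1 F Y O a b c d → Y a → a ≠ b ∧ c ≠ d ∧ a ≠ c ∧ a ≠ d ∧ b ≠ c ∧ b ≠ d := by
    intro a b c d h ha
    have hb : ¬ Y b := fun k => mTab ha k h
    have hc : ¬ Y c := fun k => mTac ha k h
    have hd : ¬ Y d := fun k => mTac ha k (sT.2 _ _ _ _ (sT.1 _ _ _ _ (sT.2 _ _ _ _ h)))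
    obtain ⟨⟨h1, h2⟩, h3⟩ := (mT1 ha hb hc hd).1 h
    obtain ⟨h4, h5⟩ := mo_ne hh h3
    exact ⟨h1, h2, fun e => hc (e ▸ ha), fun e => hd (e ▸ ha), h4, h5⟩
  have all : a ≠ b ∧ c ≠ d ∧ a ≠ c ∧ a ≠ d ∧ b ≠ c ∧ b ≠ d := by
    by_cases ha : Y a
    · exact key h ha
    by_cases hb : Y b
    · have := key (sT.1 _ _ _ _ h) hb
      tauto
    by_cases hc : Y c
    · have := key (sT.2 _ _ _ _ h) hc
      have e1 := this.2.2.1.symm
      have e2 := this.2.2.2.1.symm
      have e3 := this.2.2.2.2.1.symm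
      have e4 := this.2.2.2.2.2.symm
      tauto
    by_cases hd : Y d
    · have := key (sT.1 _ _ _ _ (sT.2 _ _ _ _ h)) hd
      have e0 := this.1.symm
      have e1 := this.2.2.1.symm
      have e2 := this.2.2.2.1.symm
      have e3 := this.2.2.2.2.1.symm
      have e4 := this.2.2.2.2.2.symm
      tauto
    exact n1 ((mT0 ha hb hc hd).1 h).2
  obtain ⟨h1, h2, h3, h4, h5, h6⟩ := all
  simp only [List.nodup_cons, List.mem_cons, List.not_mem_nil, or_false, not_or, not_false_eq_true, List.nodup_nil,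
    and_true]
  exact ⟨⟨h1, h3, h4⟩, ⟨h5, h6⟩, h2⟩

/-- MODIFICATION: the modified structure is a structure of the side -/
theorem mod_half (hc : C.Ok X) (hg : C.Bi G) (hh : Half C G X C.S T1) (hm : MH C G T1 F Y O) :
    Half C G X C.S (modT C T1 F Y O) := by
  have sX : Sym4 X := ⟨fun _ _ _ _ => hc.sepr.swap, fun _ _ _ _ => hc.sepr.comm⟩
  have s1 : Sym4 T1 := ⟨fun _ _ _ _ => hh.swap₁, fun _ _ _ _ => hh.swap₂⟩
  have hK : ∀ a b, C.K a b → C.K b a := fun _ _ => hc.ksym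
  let Z : MSy V := ⟨G, X, C, T1, F, Y, O, sX, s1, hK⟩
  have sT := modT_sym (C := C) (F := F) (Y := Y) (O := O) s1
  have nd := fun {a b c d : V} (h : modT C T1 F Y O a b c d) => modT_nd hh hm h
  have adj : ∀ {a b c d : V}, modT C T1 F Y O a b c d → G.Adj a c := fun {a b c d} h => by
    by_contra hn
    exact mradj (Y := Z) hc hg hh hm (nd h) h hn
  have sw3 : ∀ {a b c d : V}, modT C T1 F Y O a b c d → modT C T1 F Y O a b d c :=
    fun h => sT.2 _ _ _ _ (sT.1 _ _ _ _ (sT.2 _ _ _ _ h))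
  have sq : ∀ {a b c d : V}, modT C T1 F Y O a b c d → (a ≠ b ∧ c ≠ d) ∧ G.Adj a c ∧ G.Adj a d ∧ G.Adj b c ∧ G.Adj b d :=
    fun h => ⟨h.1, adj h, adj (sw3 h), adj (sT.1 _ _ _ _ h), adj (sT.1 _ _ _ _ (sw3 h))⟩
  have nb : ∀ {a b c d : V}, modT C T1 F Y O a b c d → ¬ modT C T1 F Y O a c b d := fun h1 h2 =>
    mrnb (Y := Z) hc hg hh hm (nd h1) h1 h2
  have f5 : ∀ {a b x y x2 : V}, modT C T1 F Y O a x b y → modT C T1 F Y O a x2 b x → y ≠ x2 →
      modT C T1 F Y O a x2 b y := by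
    intro a b x y x2 h1 h2 h3
    by_contra hn
    obtain ⟨⟨n1, n2⟩, e1, e2, e3, e4⟩ := sq h1
    obtain ⟨⟨m1, m2⟩, g1, g2, g3, g4⟩ := sq h2
    refine mrf5 (Y := Z) hc hg hh hm (a := a) (b := b) (c := x) (d := y) (e := x2) ?_ h1 h2 hn
    simp only [List.nodup_cons, List.mem_cons, List.not_mem_nil, or_false, not_or, not_false_eq_true,
      List.nodup_nil, and_true]
    exact ⟨⟨e1.ne, n1, e2.ne, m1⟩, ⟨m2, n2, g3.ne.symm⟩, ⟨e4.ne, g4.ne.symm⟩, h3⟩
  refine ⟨fun h => sT.1 _ _ _ _ h, fun h => sT.2 _ _ _ _ h, fun h => h.1.1, fun h => adj h, ?_, ?_, ?_, ?_, ?_, ?_,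
    ?_, ?_, ?_⟩
  · intro a b c d h1 h2
    exact mrnc (Y := Z) hc hg hh hm (nd h1) h1 h2
  · intro a b c d h1
    by_contra hn
    rw [not_or] at hn
    exact mratt (Y := Z) hc hg hh hm (nd h1) h1 hn.1 hn.2
  · intro a b c d h1 h2 h3 h4
    exact mrd1 (Y := Z) hc hg hh hm (nd h1) h1 h2 h3 h4
  · intro a b c d h1 h2 h3 h4
    exact mrd2 (Y := Z) hc hg hh hm (nd h1) h1 h2 h3 h4
  · exact nb
  · intro a b c d ac bd hx a0 a1 a2 a3 k01 k02 k03 k12 k13 k23
    by_contra hn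
    rw [not_or] at hn
    have ab := (hc.sepr.dist hx).2
    have cb := (hc.sepr.dist (hc.sepr.swap hx)).2
    have ad := (hc.sepr.dist (hc.sepr.comm (hc.sepr.swap (hc.sepr.comm hx)))).2
    have cd := (hc.sepr.dist (hc.sepr.swap (hc.sepr.comm (hc.sepr.swap (hc.sepr.comm hx))))).2
    refine mrsome (Y := Z) hc hg hh hm (a := a) (b := b) (c := c) (d := d) ?_ ac bd hx hn.1 hn.2 a0 a1 a2 a3 k01 k02 k03
      k12 k13 k23
    simp only [List.nodup_cons, List.mem_cons, List.not_mem_nil, or_false, not_or, not_false_eq_true,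
      List.nodup_nil, and_true]
    exact ⟨⟨ab, ac.ne, ad⟩, ⟨cb.symm, bd.ne⟩, cd⟩
  · intro u w x y z xz hk h1 h2
    by_contra hn
    obtain ⟨⟨n1, n2⟩, e1, e2, e3, e4⟩ := sq h1
    obtain ⟨⟨m1, m2⟩, g1, g2, g3, g4⟩ := sq h2
    refine mrtr (Y := Z) hc hg hh hm (a := u) (b := w) (c := x) (d := y) (e := z) ?_ h1 h2 hn hk
    simp only [List.nodup_cons, List.mem_cons, List.not_mem_nil, or_false, not_or, not_false_eq_true,
      List.nodup_nil, and_true]
    exact ⟨⟨n1, e1.ne, e2.ne, g2.ne⟩, ⟨e3.ne, e4.ne, g4.ne⟩, ⟨n2, xz⟩, m2⟩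
  · intro a b x y x' y' h1 h2
    by_cases xx : x = x'
    · subst xx
      exact Or.inl h2
    · by_cases yy : y = y'
      · subst yy
        exact Or.inr h2
      · by_cases xy : x = y'
        · subst xy
          by_cases yx : y = x'
          · subst yx
            exact (nb (sw3 h1) (sw3 h2)).elim
          · exact Or.inr (f5 h1 h2 yx)
        · by_cases yx : y = x'
          · subst yx
            exact Or.inl (f5 h2 h1 (fun h => xy h.symm))
          · by_contra hn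
            rw [not_or] at hn
            obtain ⟨⟨n1, n2⟩, e1, e2, e3, e4⟩ := sq h1
            obtain ⟨⟨m1, m2⟩, g1, g2, g3, g4⟩ := sq h2
            refine mrf6 (Y := Z) hc hg hh hm (a := a) (b := b) (c := x) (d := y) (e := x') (f := y') ?_ h1 h2
              hn.1 hn.2
            simp only [List.nodup_cons, List.mem_cons, List.not_mem_nil, or_false, not_or, not_false_eq_true,
              List.nodup_nil, and_true]
            exact ⟨⟨e1.ne, n1, e2.ne, m1, g2.ne⟩, ⟨e3.ne.symm, n2, g3.ne.symm, m2⟩, ⟨e4.ne, xx, xy⟩, ⟨yx, yy⟩,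
              g4.ne⟩
  · intro a b c d e hd hk h1
    by_cases de : d = e
    · subst de
      exact h1
    by_contra hn
    obtain ⟨⟨n1, n2⟩, e1, e2, e3, e4⟩ := sq h1
    have kd : C.K e d := hc.ksym hk
    have he : ¬ C.S e := fun k => hd (hc.kS kd k)
    have na : a ≠ e := by
      rintro rfl
      exact mrd2 (Y := Z) hc hg hh hm (nd (sw3 h1)) (sw3 h1) he hd kd
    have nb' : b ≠ e := by
      rintro rfl
      have h2 := sT.1 _ _ _ _ (sw3 h1)
      exact mrd2 (Y := Z) hc hg hh hm (nd h2) h2 he hd kd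
    have nc' : c ≠ e := by
      rintro rfl
      have h2 := sT.2 _ _ _ _ h1
      exact mrd1 (Y := Z) hc hg hh hm (nd h2) h2 he hd kd
    refine mrinv (Y := Z) hc hg hh hm (a := a) (b := b) (c := c) (d := d) (e := e) ?_ hd hk h1 hn
    simp only [List.nodup_cons, List.mem_cons, List.not_mem_nil, or_false, not_or, not_false_eq_true,
      List.nodup_nil, and_true]
    exact ⟨⟨n1, e1.ne, e2.ne, na⟩, ⟨e3.ne, e4.ne, nb'⟩, ⟨n2, nc'⟩, de⟩

end Pool.Agent.SOG
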