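import Pool.Agent.SOG.Main

/-! Project SOG, module Rep: a structure on a smaller set in which blocks are represented by single points. -/

set_option autoImplicit false

namespace Pool.Agent.SOG

open Pool.Agent.SOC Pool.Agent.SOD Pool.Agent.RUP Pool.Agent.SOF

variable {V V' : Type} {C : Cut V} {G : SimpleGraph V} {X : V → V → V → V → Prop} {G' : SimpleGraph V'}
  {X' T' : V' → V' → V' → V' → Prop} {s : V → Prop} {ρ : V → V'}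

/-- `ρ` represents the points of the side `s` and the blocks of the other side by points of `V'` -/
structure RepOk (C : Cut V) (G : SimpleGraph V) (X : V → V → V → V → Prop) (s : V → Prop) (G' : SimpleGraph V')
    (X' : V' → V' → V' → V' → Prop) (ρ : V → V') : Prop where
  inj : ∀ {p q}, (s p ∨ C.A p) → (s q ∨ C.A q) → ρ p = ρ q → p = q ∨ (¬ s p ∧ C.K p q)
  con : ∀ {p q}, ¬ s p → C.K p q → ρ p = ρ q
  side : ∀ {p q}, C.K p q → s p → s q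
  adj : ∀ {p q}, (s p ∨ C.A p) → (s q ∨ C.A q) → ρ p ≠ ρ q → (G.Adj p q ↔ G'.Adj (ρ p) (ρ q))
  cross : ∀ {p q r t}, (s p ∨ C.A p) → (s q ∨ C.A q) → (s r ∨ C.A r) → (s t ∨ C.A t) → ρ p ≠ ρ q → ρ p ≠ ρ r →
    ρ p ≠ ρ t → ρ q ≠ ρ r → ρ q ≠ ρ t → ρ r ≠ ρ t → (X p q r t ↔ X' (ρ p) (ρ q) (ρ r) (ρ t))

/-- the structure in which the points of the other side stand for their blocks -/
def repT (C : Cut V) (s : V → Prop) (T' : V' → V' → V' → V' → Prop) (ρ : V → V') (a b c d : V) : Prop :=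
  ((s a ∨ C.A a) ∧ (s b ∨ C.A b) ∧ (s c ∨ C.A c) ∧ (s d ∨ C.A d)) ∧ T' (ρ a) (ρ b) (ρ c) (ρ d)

theorem half_of_qt (hX : Sepr X) (hC : C.Ok X) (hR : RepOk C G X s G' X' ρ) (h : QT G' X' T') :
    Half C G X s (repT C s T' ρ) := by
  have sq : ∀ {a b c d : V'}, T' a b c d → a ≠ b ∧ c ≠ d ∧ G'.Adj a c ∧ G'.Adj a d ∧ G'.Adj b c ∧ G'.Adj b d :=
    fun ht => ⟨h.ne ht, h.ne (h.swap₂ ht), h.adj ht, h.adj (h.swap₂ (h.swap₁ (h.swap₂ ht))), h.adj (h.swap₁ ht),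
      h.adj (h.swap₁ (h.swap₂ (h.swap₁ (h.swap₂ ht))))⟩
  have dl : ∀ {p q : V}, (s p ∨ C.A p) → (s q ∨ C.A q) → p ≠ q → (s p ∨ s q ∨ ¬ C.K p q) → ρ p ≠ ρ q := by
    intro p q hp hq pq hk he
    rcases hR.inj hp hq he with h1 | ⟨h1, h2⟩
    · exact pq h1
    · rcases hk with h3 | h3 | h3
      · exact h1 h3
      · exact h1 (hR.side (hC.ksym h2) h3)
      · exact h3 h2
  refine ⟨?_, ?_, ?_, ?_, ?_, ?_, ?_, ?_, ?_, ?_, ?_, ?_, ?_⟩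
  · rintro a b c d ⟨⟨h1, h2, h3, h4⟩, h5⟩
    exact ⟨⟨h2, h1, h3, h4⟩, h.swap₁ h5⟩
  · rintro a b c d ⟨⟨h1, h2, h3, h4⟩, h5⟩
    exact ⟨⟨h3, h4, h1, h2⟩, h.swap₂ h5⟩
  · rintro a b c d ⟨_, h5⟩ rfl
    exact h.ne h5 rfl
  · rintro a b c d ⟨⟨h1, h2, h3, h4⟩, h5⟩
    exact (hR.adj h1 h3 (h.adj h5).ne).2 (h.adj h5)
  · rintro a b c d ⟨⟨h1, h2, h3, h4⟩, h5⟩ hx
    obtain ⟨n1, n2, e1, e2, e3, e4⟩ := sq h5
    exact h.nocross h5 ((hR.cross h1 h2 h3 h4 n1 e1.ne e2.ne e3.ne e4.ne n2).1 hx)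
  · rintro a b c d ⟨⟨h1, _⟩, _⟩
    exact h1
  · rintro a b c d ⟨_, h5⟩ ha _ hk
    exact h.ne h5 (hR.con ha hk)
  · rintro a b c d ⟨_, h5⟩ ha _ hk
    exact (h.adj h5).ne (hR.con ha hk)
  · rintro a b c d ⟨_, h5⟩ ⟨_, h6⟩
    exact h.notboth (h.swap₂ (h.swap₁ (h.swap₂ h5))) h6
  · intro a b c d ac bd hx ha hb hc hd kab kac kad kbc kbd kcd
    have ab := (hX.dist hx).2
    have cb := (hX.dist (hX.swap hx)).2
    have ad := (hX.dist (hX.comm (hX.swap (hX.comm hx)))).2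
    have cd := (hX.dist (hX.swap (hX.comm (hX.swap (hX.comm hx))))).2
    have n1 := dl ha hb ab kab
    have n2 := dl ha hc ac.ne kac
    have n3 := dl ha hd ad kad
    have n4 := dl hb hc cb.symm kbc
    have n5 := dl hb hd bd.ne kbd
    have n6 := dl hc hd cd kcd
    rcases h.some ((hR.adj ha hc n2).1 ac) ((hR.adj hb hd n5).1 bd) n1 n3 n4 n6
      ((hR.cross ha hc hb hd n2 n1 n3 n4.symm n6 n5).1 hx) with h1 | h1
    · exact Or.inl ⟨⟨ha, hb, hc, hd⟩, h1⟩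
    · exact Or.inr ⟨⟨ha, hd, hb, hc⟩, h1⟩
  · rintro u w x y z xz hk ⟨⟨h1, h2, h3, h4⟩, h5⟩ ⟨⟨_, _, _, h6⟩, h7⟩
    exact ⟨⟨h1, h2, h3, h6⟩, h.trans h5 h7 (dl h3 h6 xz hk)⟩
  · rintro a b x y x' y' ⟨⟨h1, h2, h3, h4⟩, h5⟩ ⟨⟨_, g2, _, g4⟩, h7⟩
    rcases h.ferrers h5 h7 with h8 | h8
    · exact Or.inl ⟨⟨h1, h2, h3, g4⟩, h8⟩
    · exact Or.inr ⟨⟨h1, g2, h3, h4⟩, h8⟩
  · rintro a b c d e hd hk ⟨⟨h1, h2, h3, h4⟩, h5⟩
    refine ⟨⟨h1, h2, h3, Or.inr (hC.kA (hC.ksym hk))⟩, ?_⟩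
    rw [← hR.con hd hk]
    exact h5

end Pool.Agent.SOG
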