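import Pool.Agent.SOG.Defs
import Pool.Agent.RUP.Gen

/-! Project SOG: templates for the glued structure (generated). -/

set_option autoImplicit false
set_option maxRecDepth 100000
set_option linter.unusedVariables false

namespace Pool.Agent.SOG

open Pool.Agent.SOC Pool.Agent.SOD Pool.Agent.RUP Pool.Agent.SOF

theorem ng {V : Type} {a : V} {P : Prop} (h : ¬ (a = a ∧ P)) : ¬ P := fun k => h ⟨rfl, k⟩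

theorem Half.irr {V : Type} {C : Cut V} {G : SimpleGraph V} {X T : V → V → V → V → Prop} {s : V → Prop}
    (h : Half C G X s T) {a b x : V} (ht : T a x b x) : False := by
  have h1 : G.Adj x x := h.adj (h.swap₂ (h.swap₁ (h.swap₂ (h.swap₁ ht))))
  exact h1.ne rfl

theorem merge_sq {V : Type} {C : Cut V} {G : SimpleGraph V} {X : V → V → V → V → Prop} (hc : C.Ok X) (ht : C.Ty0 G)
    {a b c d : V} (sa : C.S a) (sc : ¬ C.S c) (kab : C.K a b) (kcd : C.K c d) (e : G.Adj a c) : Sq G a b c d := by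
  obtain ⟨h1, h2, h3⟩ := ht.xa sa sc e
  have sb := hc.kS kab sa
  have sd : ¬ C.S d := fun k => sc (hc.kS (hc.ksym kcd) k)
  have ab := hc.kA (hc.ksym kab)
  have ad := hc.kA (hc.ksym kcd)
  have bb : C.B a ↔ C.B b := ⟨hc.kB kab, hc.kB (hc.ksym kab)⟩
  have bd : C.B c ↔ C.B d := ⟨hc.kB kcd, hc.kB (hc.ksym kcd)⟩
  exact ⟨e, ht.xc sa sd h1 ad (h3.trans bd), ht.xc sb sc ab h2 (bb.symm.trans h3),
    ht.xc sb sd ab ad (bb.symm.trans (h3.trans bd))⟩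

/-- templates -/
def gO : List Tm := [
  ⟨4, [], ad4, [.q true 0 0 1 2 3, .q true 0 0 2 1 3, .q true 0 0 3 1 2]⟩,
  ⟨4, [], ad4, [.q false 0 0 1 2 3, .q false 0 0 2 1 3]⟩,
  ⟨5, [], ad5, [.q false 0 0 1 2 3, .q false 0 0 1 3 4, .q false 0 0 1 2 4]⟩,
  ⟨5, [], ad5, [.q false 0 0 1 2 3, .q true 0 0 1 3 4, .q true 0 0 1 2 4]⟩]

theorem gO_h {V : Type} {Y : GSy V} (hc : Y.C.Ok Y.X) : UHs Y.rel gO :=
  .cons (fun v n01 n02 n03 n12 n13 n23 h0 h1 h2 => (hc.sepr.one n01 n02 n03 n12 n13 n23).elim h0 (fun k => k.elim h1 h2)) (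
  .cons (fun v n01 n02 n03 n12 n13 n23 h0 h1 => hc.sepr.amo h0 h1) (
  .cons (fun v n01 n02 n03 n04 n12 n13 n14 n23 n24 n34 h0 h1 h2 => hc.sepr.add h0 h1 h2) (
  .cons (fun v n01 n02 n03 n04 n12 n13 n14 n23 n24 n34 h0 h1 h2 => (hc.sepr.add2 h0 n34 n24 n04 n14).elim h1 h2) (
  .nil))))

/-- templates -/
def gC0 : List Tm := [
  ⟨4, [], ad4, [.b false 2 0 0, .b false 2 1 1, .b true 2 2 2, .b true 2 3 3, .q false 0 0 1 2 3]⟩,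
  ⟨2, [], [(0, 1)], [.b false 2 0 0, .b true 2 1 1, .b false 0 0 1, .b true 3 0 0]⟩,
  ⟨2, [], [(0, 1)], [.b false 2 0 0, .b true 2 1 1, .b false 0 0 1, .b true 3 1 1]⟩,
  ⟨2, [], [(0, 1)], [.b false 2 0 0, .b true 2 1 1, .b false 0 0 1, .b false 4 0 0, .b true 4 1 1]⟩,
  ⟨2, [], [(0, 1)], [.b false 2 0 0, .b true 2 1 1, .b false 0 0 1, .b true 4 0 0, .b false 4 1 1]⟩,
  ⟨2, [], [(0, 1)], [.b false 2 0 0, .b true 2 1 1, .b false 3 0 0, .b false 3 1 1, .b false 4 0 0, .b false 4 1 1, .b true 0 0 1]⟩,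
  ⟨2, [], [(0, 1)], [.b false 2 0 0, .b true 2 1 1, .b false 3 0 0, .b false 3 1 1, .b true 4 0 0, .b true 4 1 1, .b true 0 0 1]⟩,
  ⟨2, [], [(0, 1)], [.b false 2 0 0, .b false 2 1 1, .b false 3 0 0, .b false 3 1 1, .b true 4 0 0, .b false 4 1 1, .b true 0 0 1]⟩,
  ⟨2, [], [(0, 1)], [.b false 2 0 0, .b false 2 1 1, .b false 3 0 0, .b false 3 1 1, .b true 1 0 1, .b false 4 0 0, .b false 4 1 1, .b false 0 0 1]⟩,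
  ⟨2, [], [(0, 1)], [.b false 2 0 0, .b false 2 1 1, .b false 3 0 0, .b false 3 1 1, .b true 1 0 1, .b true 4 0 0, .b true 4 1 1, .b false 0 0 1]⟩,
  ⟨2, [], [(0, 1)], [.b true 2 0 0, .b true 2 1 1, .b false 3 0 0, .b false 3 1 1, .b true 4 0 0, .b false 4 1 1, .b true 0 0 1]⟩,
  ⟨2, [], [(0, 1)], [.b true 2 0 0, .b true 2 1 1, .b false 3 0 0, .b false 3 1 1, .b true 1 0 1, .b false 4 0 0, .b false 4 1 1, .b false 0 0 1]⟩,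
  ⟨2, [], [(0, 1)], [.b true 2 0 0, .b true 2 1 1, .b false 3 0 0, .b false 3 1 1, .b true 1 0 1, .b true 4 0 0, .b true 4 1 1, .b false 0 0 1]⟩,
  ⟨2, [], [(0, 1)], [.b false 1 0 1, .b false 2 0 0, .b true 2 1 1]⟩,
  ⟨2, [], [(0, 1)], [.b false 1 0 1, .b true 3 0 0]⟩,
  ⟨2, [], [(0, 1)], [.b false 1 0 1, .b false 4 0 0, .b true 4 1 1]⟩,
  ⟨3, [], [(0, 1), (0, 2), (1, 2)], [.b false 1 0 1, .b false 1 1 2, .b true 1 0 2]⟩,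
  ⟨4, [], ad4, [.b false 1 0 1, .b false 3 2 2, .b false 2 0 0, .b false 2 2 2, .b true 2 3 3, .q false 0 0 1 2 3, .b true 1 0 2]⟩,
  ⟨4, [], ad4, [.b false 1 0 1, .b false 3 2 2, .b true 2 0 0, .b true 2 2 2, .b false 2 3 3, .q false 0 0 1 2 3, .b true 1 0 2]⟩]

theorem gC0_h {V : Type} {Y : GSy V} (hc : Y.C.Ok Y.X) (ht : Y.C.Ty0 Y.G) : UHs Y.rel gC0 :=
  .cons (fun v n01 n02 n03 n12 n13 n23 h0 h1 h2 h3 h4 => hc.int h0.2 h1.2 (ng h2) (ng h3) h4) (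
  .cons (fun v n01 h0 h1 h2 h3 => h3 ⟨rfl, (ht.xa h0.2 (ng h1) h2).1⟩) (
  .cons (fun v n01 h0 h1 h2 h3 => h3 ⟨rfl, (ht.xa h0.2 (ng h1) h2).2.1⟩) (
  .cons (fun v n01 h0 h1 h2 h3 h4 => h4 ⟨rfl, (ht.xa h0.2 (ng h1) h2).2.2.1 h3.2⟩) (
  .cons (fun v n01 h0 h1 h2 h3 h4 => h3 ⟨rfl, (ht.xa h0.2 (ng h1) h2).2.2.2 h4.2⟩) (
  .cons (fun v n01 h0 h1 h2 h3 h4 h5 h6 => h6 (ht.xc h0.2 (ng h1) h2.2 h3.2 ⟨fun _ => h5.2, fun _ => h4.2⟩)) (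
  .cons (fun v n01 h0 h1 h2 h3 h4 h5 h6 => h6 (ht.xc h0.2 (ng h1) h2.2 h3.2 ⟨fun k => absurd k (ng h4), fun k => absurd k (ng h5)⟩)) (
  .cons (fun v n01 h0 h1 h2 h3 h4 h5 h6 => h6 (ht.cl ⟨fun _ => h1.2, fun _ => h0.2⟩ h2.2 h3.2 (ng h4) h5.2)) (
  .cons (fun v n01 h0 h1 h2 h3 h4 h5 h6 h7 => ht.cr ⟨fun _ => h1.2, fun _ => h0.2⟩ h2.2 h3.2 h4 ⟨fun _ => h6.2, fun _ => h5.2⟩ h7) (
  .cons (fun v n01 h0 h1 h2 h3 h4 h5 h6 h7 => ht.cr ⟨fun _ => h1.2, fun _ => h0.2⟩ h2.2 h3.2 h4 ⟨fun k => absurd k (ng h5), fun k => absurd k (ng h6)⟩ h7) (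
  .cons (fun v n01 h0 h1 h2 h3 h4 h5 h6 => h6 (ht.cl ⟨fun k => absurd k (ng h0), fun k => absurd k (ng h1)⟩ h2.2 h3.2 (ng h4) h5.2)) (
  .cons (fun v n01 h0 h1 h2 h3 h4 h5 h6 h7 => ht.cr ⟨fun k => absurd k (ng h0), fun k => absurd k (ng h1)⟩ h2.2 h3.2 h4 ⟨fun _ => h6.2, fun _ => h5.2⟩ h7) (
  .cons (fun v n01 h0 h1 h2 h3 h4 h5 h6 h7 => ht.cr ⟨fun k => absurd k (ng h0), fun k => absurd k (ng h1)⟩ h2.2 h3.2 h4 ⟨fun k => absurd k (ng h5), fun k => absurd k (ng h6)⟩ h7) (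
  .cons (fun v n01 h0 h1 h2 => h2 ⟨rfl, hc.kS h0 h1.2⟩) (
  .cons (fun v n01 h0 h1 => h1 ⟨rfl, hc.kA h0⟩) (
  .cons (fun v n01 h0 h1 h2 => h2 ⟨rfl, hc.kB h0 h1.2⟩) (
  .cons (fun v n01 n02 n12 h0 h1 h2 => h2 (hc.ktr h0 h1)) (
  .cons (fun v n01 n02 n03 n12 n13 n23 h0 h1 h2 h3 h4 h5 h6 => h6 (hc.kb h0 h1.2 h2.2 h3.2 (ng h4) h5)) (
  .cons (fun v n01 n02 n03 n12 n13 n23 h0 h1 h2 h3 h4 h5 h6 => h6 (hc.kb' h0 h1.2 (ng h2) (ng h3) h4.2 h5)) (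
  .nil)))))))))))))))))))

/-- templates -/
def gH1 : List Tm := [
  ⟨4, [], ad4, [.q false 1 0 1 2 3, .b true 0 0 2]⟩,
  ⟨4, [], ad4, [.q false 1 0 1 2 3, .q false 0 0 1 2 3]⟩,
  ⟨4, [], ad4, [.q false 1 0 1 2 3, .b true 2 0 0, .b true 3 0 0]⟩,
  ⟨4, [], ad4, [.q false 1 0 1 2 3, .b true 2 0 0, .b true 2 1 1, .b false 1 0 1]⟩,
  ⟨4, [], ad4, [.q false 1 0 1 2 3, .b true 2 0 0, .b true 2 2 2, .b false 1 0 2]⟩,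
  ⟨4, [], ad4, [.q false 1 0 1 2 3, .q false 1 0 2 1 3]⟩,
  ⟨4, [], ad4, [.b false 0 0 2, .b false 0 1 3, .q false 0 0 2 1 3, .q true 1 0 1 2 3, .q true 1 0 3 1 2, .b true 2 0 0, .b true 2 1 1, .b true 2 2 2, .b true 2 3 3, .b false 3 0 0, .b false 3 1 1, .b false 3 2 2, .b false 3 3 3, .b true 1 0 1, .b true 1 0 2, .b true 1 0 3, .b true 1 1 2, .b true 1 1 3, .b true 1 2 3]⟩,
  ⟨4, [], ad4, [.b false 0 0 2, .b false 0 1 3, .q false 0 0 2 1 3, .q true 1 0 1 2 3, .q true 1 0 3 1 2, .b true 2 0 0, .b true 2 1 1, .b true 2 2 2, .b false 2 3 3, .b false 3 0 0, .b false 3 1 1, .b false 3 2 2, .b true 1 0 1, .b true 1 0 2, .b true 1 1 2]⟩,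
  ⟨4, [], ad4, [.b false 0 0 2, .b false 0 1 3, .q false 0 0 2 1 3, .q true 1 0 1 2 3, .q true 1 0 3 1 2, .b true 2 0 0, .b true 2 1 1, .b false 2 2 2, .b true 2 3 3, .b false 3 0 0, .b false 3 1 1, .b false 3 3 3, .b true 1 0 1, .b true 1 0 3, .b true 1 1 3]⟩,
  ⟨4, [], ad4, [.b false 0 0 2, .b false 0 1 3, .q false 0 0 2 1 3, .q true 1 0 1 2 3, .q true 1 0 3 1 2, .b true 2 0 0, .b true 2 1 1, .b false 2 2 2, .b false 2 3 3, .b false 3 0 0, .b false 3 1 1, .b true 1 0 1]⟩,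
  ⟨4, [], ad4, [.b false 0 0 2, .b false 0 1 3, .q false 0 0 2 1 3, .q true 1 0 1 2 3, .q true 1 0 3 1 2, .b true 2 0 0, .b false 2 1 1, .b true 2 2 2, .b true 2 3 3, .b false 3 0 0, .b false 3 2 2, .b false 3 3 3, .b true 1 0 2, .b true 1 0 3, .b true 1 2 3]⟩,
  ⟨4, [], ad4, [.b false 0 0 2, .b false 0 1 3, .q false 0 0 2 1 3, .q true 1 0 1 2 3, .q true 1 0 3 1 2, .b true 2 0 0, .b false 2 1 1, .b true 2 2 2, .b false 2 3 3, .b false 3 0 0, .b false 3 2 2, .b true 1 0 2]⟩,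
  ⟨4, [], ad4, [.b false 0 0 2, .b false 0 1 3, .q false 0 0 2 1 3, .q true 1 0 1 2 3, .q true 1 0 3 1 2, .b true 2 0 0, .b false 2 1 1, .b false 2 2 2, .b true 2 3 3, .b false 3 0 0, .b false 3 3 3, .b true 1 0 3]⟩,
  ⟨4, [], ad4, [.b false 0 0 2, .b false 0 1 3, .q false 0 0 2 1 3, .q true 1 0 1 2 3, .q true 1 0 3 1 2, .b true 2 0 0, .b false 2 1 1, .b false 2 2 2, .b false 2 3 3, .b false 3 0 0]⟩,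
  ⟨4, [], ad4, [.b false 0 0 2, .b false 0 1 3, .q false 0 0 2 1 3, .q true 1 0 1 2 3, .q true 1 0 3 1 2, .b false 2 0 0, .b true 2 1 1, .b true 2 2 2, .b true 2 3 3, .b false 3 1 1, .b false 3 2 2, .b false 3 3 3, .b true 1 1 2, .b true 1 1 3, .b true 1 2 3]⟩,
  ⟨4, [], ad4, [.b false 0 0 2, .b false 0 1 3, .q false 0 0 2 1 3, .q true 1 0 1 2 3, .q true 1 0 3 1 2, .b false 2 0 0, .b true 2 1 1, .b true 2 2 2, .b false 2 3 3, .b false 3 1 1, .b false 3 2 2, .b true 1 1 2]⟩,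
  ⟨4, [], ad4, [.b false 0 0 2, .b false 0 1 3, .q false 0 0 2 1 3, .q true 1 0 1 2 3, .q true 1 0 3 1 2, .b false 2 0 0, .b true 2 1 1, .b false 2 2 2, .b true 2 3 3, .b false 3 1 1, .b false 3 3 3, .b true 1 1 3]⟩,
  ⟨4, [], ad4, [.b false 0 0 2, .b false 0 1 3, .q false 0 0 2 1 3, .q true 1 0 1 2 3, .q true 1 0 3 1 2, .b false 2 0 0, .b true 2 1 1, .b false 2 2 2, .b false 2 3 3, .b false 3 1 1]⟩,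
  ⟨4, [], ad4, [.b false 0 0 2, .b false 0 1 3, .q false 0 0 2 1 3, .q true 1 0 1 2 3, .q true 1 0 3 1 2, .b false 2 0 0, .b false 2 1 1, .b true 2 2 2, .b true 2 3 3, .b false 3 2 2, .b false 3 3 3, .b true 1 2 3]⟩,
  ⟨4, [], ad4, [.b false 0 0 2, .b false 0 1 3, .q false 0 0 2 1 3, .q true 1 0 1 2 3, .q true 1 0 3 1 2, .b false 2 0 0, .b false 2 1 1, .b true 2 2 2, .b false 2 3 3, .b false 3 2 2]⟩,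
  ⟨4, [], ad4, [.b false 0 0 2, .b false 0 1 3, .q false 0 0 2 1 3, .q true 1 0 1 2 3, .q true 1 0 3 1 2, .b false 2 0 0, .b false 2 1 1, .b false 2 2 2, .b true 2 3 3, .b false 3 3 3]⟩,
  ⟨4, [], ad4, [.b false 0 0 2, .b false 0 1 3, .q false 0 0 2 1 3, .q true 1 0 1 2 3, .q true 1 0 3 1 2, .b false 2 0 0, .b false 2 1 1, .b false 2 2 2, .b false 2 3 3]⟩,
  ⟨5, [], ad5, [.q false 1 0 1 2 3, .q false 1 0 1 3 4, .q true 1 0 1 2 4, .b true 1 2 4]⟩,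
  ⟨5, [], ad5, [.q false 1 0 1 2 3, .q false 1 0 1 3 4, .q true 1 0 1 2 4, .b false 2 2 2]⟩,
  ⟨5, [], ad5, [.q false 1 0 2 1 3, .q false 1 0 4 1 2, .q true 1 0 4 1 3]⟩,
  ⟨6, [], ad6, [.q false 1 0 2 1 3, .q false 1 0 4 1 5, .q true 1 0 2 1 5, .q true 1 0 4 1 3]⟩,
  ⟨5, [], ad5, [.b true 2 3 3, .b false 1 3 4, .q false 1 0 1 2 3, .q true 1 0 1 2 4]⟩]

theorem gH1_h {V : Type} {Y : GSy V} (hh : Half Y.C Y.G Y.X Y.C.S Y.T1) : UHs Y.rel gH1 :=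
  .cons (fun v n01 n02 n03 n12 n13 n23 h0 h1 => h1 (hh.adj h0)) (
  .cons (fun v n01 n02 n03 n12 n13 n23 h0 h1 => hh.nocross h0 h1) (
  .cons (fun v n01 n02 n03 n12 n13 n23 h0 h1 h2 => (hh.att h0).elim (ng h1) (ng h2)) (
  .cons (fun v n01 n02 n03 n12 n13 n23 h0 h1 h2 h3 => hh.d1 h0 (ng h1) (ng h2) h3) (
  .cons (fun v n01 n02 n03 n12 n13 n23 h0 h1 h2 h3 => hh.d2 h0 (ng h1) (ng h2) h3) (
  .cons (fun v n01 n02 n03 n12 n13 n23 h0 h1 => hh.nb h0 h1) (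
  .cons (fun v n01 n02 n03 n12 n13 n23 h0 h1 h2 h3 h4 h5 h6 h7 h8 h9 h10 h11 h12 h13 h14 h15 h16 h17 h18 => (hh.some h0 h1 h2 (Or.inr h9.2) (Or.inr h10.2) (Or.inr h11.2) (Or.inr h12.2) (Or.inr (Or.inr h13)) (Or.inr (Or.inr h14)) (Or.inr (Or.inr h15)) (Or.inr (Or.inr h16)) (Or.inr (Or.inr h17)) (Or.inr (Or.inr h18))).elim h3 h4) (
  .cons (fun v n01 n02 n03 n12 n13 n23 h0 h1 h2 h3 h4 h5 h6 h7 h8 h9 h10 h11 h12 h13 h14 => (hh.some h0 h1 h2 (Or.inr h9.2) (Or.inr h10.2) (Or.inr h11.2) (Or.inl h8.2) (Or.inr (Or.inr h12)) (Or.inr (Or.inr h13)) (Or.inr (Or.inl h8.2)) (Or.inr (Or.inr h14)) (Or.inr (Or.inl h8.2)) (Or.inr (Or.inl h8.2))).elim h3 h4) (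
  .cons (fun v n01 n02 n03 n12 n13 n23 h0 h1 h2 h3 h4 h5 h6 h7 h8 h9 h10 h11 h12 h13 h14 => (hh.some h0 h1 h2 (Or.inr h9.2) (Or.inr h10.2) (Or.inl h7.2) (Or.inr h11.2) (Or.inr (Or.inr h12)) (Or.inr (Or.inl h7.2)) (Or.inr (Or.inr h13)) (Or.inr (Or.inl h7.2)) (Or.inr (Or.inr h14)) (Or.inl h7.2)).elim h3 h4) (
  .cons (fun v n01 n02 n03 n12 n13 n23 h0 h1 h2 h3 h4 h5 h6 h7 h8 h9 h10 h11 => (hh.some h0 h1 h2 (Or.inr h9.2) (Or.inr h10.2) (Or.inl h7.2) (Or.inl h8.2) (Or.inr (Or.inr h11)) (Or.inr (Or.inl h7.2)) (Or.inr (Or.inl h8.2)) (Or.inr (Or.inl h7.2)) (Or.inr (Or.inl h8.2)) (Or.inl h7.2)).elim h3 h4) (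
  .cons (fun v n01 n02 n03 n12 n13 n23 h0 h1 h2 h3 h4 h5 h6 h7 h8 h9 h10 h11 h12 h13 h14 => (hh.some h0 h1 h2 (Or.inr h9.2) (Or.inl h6.2) (Or.inr h10.2) (Or.inr h11.2) (Or.inr (Or.inl h6.2)) (Or.inr (Or.inr h12)) (Or.inr (Or.inr h13)) (Or.inl h6.2) (Or.inl h6.2) (Or.inr (Or.inr h14))).elim h3 h4) (
  .cons (fun v n01 n02 n03 n12 n13 n23 h0 h1 h2 h3 h4 h5 h6 h7 h8 h9 h10 h11 => (hh.some h0 h1 h2 (Or.inr h9.2) (Or.inl h6.2) (Or.inr h10.2) (Or.inl h8.2) (Or.inr (Or.inl h6.2)) (Or.inr (Or.inr h11)) (Or.inr (Or.inl h8.2)) (Or.inl h6.2) (Or.inl h6.2) (Or.inr (Or.inl h8.2))).elim h3 h4) (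
  .cons (fun v n01 n02 n03 n12 n13 n23 h0 h1 h2 h3 h4 h5 h6 h7 h8 h9 h10 h11 => (hh.some h0 h1 h2 (Or.inr h9.2) (Or.inl h6.2) (Or.inl h7.2) (Or.inr h10.2) (Or.inr (Or.inl h6.2)) (Or.inr (Or.inl h7.2)) (Or.inr (Or.inr h11)) (Or.inl h6.2) (Or.inl h6.2) (Or.inl h7.2)).elim h3 h4) (
  .cons (fun v n01 n02 n03 n12 n13 n23 h0 h1 h2 h3 h4 h5 h6 h7 h8 h9 => (hh.some h0 h1 h2 (Or.inr h9.2) (Or.inl h6.2) (Or.inl h7.2) (Or.inl h8.2) (Or.inr (Or.inl h6.2)) (Or.inr (Or.inl h7.2)) (Or.inr (Or.inl h8.2)) (Or.inl h6.2) (Or.inl h6.2) (Or.inl h7.2)).elim h3 h4) (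
  .cons (fun v n01 n02 n03 n12 n13 n23 h0 h1 h2 h3 h4 h5 h6 h7 h8 h9 h10 h11 h12 h13 h14 => (hh.some h0 h1 h2 (Or.inl h5.2) (Or.inr h9.2) (Or.inr h10.2) (Or.inr h11.2) (Or.inl h5.2) (Or.inl h5.2) (Or.inl h5.2) (Or.inr (Or.inr h12)) (Or.inr (Or.inr h13)) (Or.inr (Or.inr h14))).elim h3 h4) (
  .cons (fun v n01 n02 n03 n12 n13 n23 h0 h1 h2 h3 h4 h5 h6 h7 h8 h9 h10 h11 => (hh.some h0 h1 h2 (Or.inl h5.2) (Or.inr h9.2) (Or.inr h10.2) (Or.inl h8.2) (Or.inl h5.2) (Or.inl h5.2) (Or.inl h5.2) (Or.inr (Or.inr h11)) (Or.inr (Or.inl h8.2)) (Or.inr (Or.inl h8.2))).elim h3 h4) (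
  .cons (fun v n01 n02 n03 n12 n13 n23 h0 h1 h2 h3 h4 h5 h6 h7 h8 h9 h10 h11 => (hh.some h0 h1 h2 (Or.inl h5.2) (Or.inr h9.2) (Or.inl h7.2) (Or.inr h10.2) (Or.inl h5.2) (Or.inl h5.2) (Or.inl h5.2) (Or.inr (Or.inl h7.2)) (Or.inr (Or.inr h11)) (Or.inl h7.2)).elim h3 h4) (
  .cons (fun v n01 n02 n03 n12 n13 n23 h0 h1 h2 h3 h4 h5 h6 h7 h8 h9 => (hh.some h0 h1 h2 (Or.inl h5.2) (Or.inr h9.2) (Or.inl h7.2) (Or.inl h8.2) (Or.inl h5.2) (Or.inl h5.2) (Or.inl h5.2) (Or.inr (Or.inl h7.2)) (Or.inr (Or.inl h8.2)) (Or.inl h7.2)).elim h3 h4) (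
  .cons (fun v n01 n02 n03 n12 n13 n23 h0 h1 h2 h3 h4 h5 h6 h7 h8 h9 h10 h11 => (hh.some h0 h1 h2 (Or.inl h5.2) (Or.inl h6.2) (Or.inr h9.2) (Or.inr h10.2) (Or.inl h5.2) (Or.inl h5.2) (Or.inl h5.2) (Or.inl h6.2) (Or.inl h6.2) (Or.inr (Or.inr h11))).elim h3 h4) (
  .cons (fun v n01 n02 n03 n12 n13 n23 h0 h1 h2 h3 h4 h5 h6 h7 h8 h9 => (hh.some h0 h1 h2 (Or.inl h5.2) (Or.inl h6.2) (Or.inr h9.2) (Or.inl h8.2) (Or.inl h5.2) (Or.inl h5.2) (Or.inl h5.2) (Or.inl h6.2) (Or.inl h6.2) (Or.inr (Or.inl h8.2))).elim h3 h4) (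
  .cons (fun v n01 n02 n03 n12 n13 n23 h0 h1 h2 h3 h4 h5 h6 h7 h8 h9 => (hh.some h0 h1 h2 (Or.inl h5.2) (Or.inl h6.2) (Or.inl h7.2) (Or.inr h9.2) (Or.inl h5.2) (Or.inl h5.2) (Or.inl h5.2) (Or.inl h6.2) (Or.inl h6.2) (Or.inl h7.2)).elim h3 h4) (
  .cons (fun v n01 n02 n03 n12 n13 n23 h0 h1 h2 h3 h4 h5 h6 h7 h8 => (hh.some h0 h1 h2 (Or.inl h5.2) (Or.inl h6.2) (Or.inl h7.2) (Or.inl h8.2) (Or.inl h5.2) (Or.inl h5.2) (Or.inl h5.2) (Or.inl h6.2) (Or.inl h6.2) (Or.inl h7.2)).elim h3 h4) (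
  .cons (fun v n01 n02 n03 n04 n12 n13 n14 n23 n24 n34 h0 h1 h2 h3 => h2 (hh.trans n24 (Or.inr (Or.inr h3)) h0 h1)) (
  .cons (fun v n01 n02 n03 n04 n12 n13 n14 n23 n24 n34 h0 h1 h2 h3 => h2 (hh.trans n24 (Or.inl h3.2) h0 h1)) (
  .cons (fun v n01 n02 n03 n04 n12 n13 n14 n23 n24 n34 h0 h1 h2 => (hh.ferrers h0 h1).elim (fun k => hh.irr k) h2) (
  .cons (fun v n01 n02 n03 n04 n05 n12 n13 n14 n15 n23 n24 n25 n34 n35 n45 h0 h1 h2 h3 => (hh.ferrers h0 h1).elim h2 h3) (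
  .cons (fun v n01 n02 n03 n04 n12 n13 n14 n23 n24 n34 h0 h1 h2 h3 => h3 (hh.inv (ng h0) h1 h2)) (
  .nil)))))))))))))))))))))))))))

/-- templates -/
def gH2 : List Tm := [
  ⟨4, [], ad4, [.q false 2 0 1 2 3, .b true 0 0 2]⟩,
  ⟨4, [], ad4, [.q false 2 0 1 2 3, .q false 0 0 1 2 3]⟩,
  ⟨4, [], ad4, [.q false 2 0 1 2 3, .b false 2 0 0, .b true 3 0 0]⟩,
  ⟨4, [], ad4, [.q false 2 0 1 2 3, .b false 2 0 0, .b false 2 1 1, .b false 1 0 1]⟩,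
  ⟨4, [], ad4, [.q false 2 0 1 2 3, .b false 2 0 0, .b false 2 2 2, .b false 1 0 2]⟩,
  ⟨4, [], ad4, [.q false 2 0 1 2 3, .q false 2 0 2 1 3]⟩,
  ⟨4, [], ad4, [.b false 0 0 2, .b false 0 1 3, .q false 0 0 2 1 3, .q true 2 0 1 2 3, .q true 2 0 3 1 2, .b false 2 0 0, .b false 2 1 1, .b false 2 2 2, .b false 2 3 3, .b false 3 0 0, .b false 3 1 1, .b false 3 2 2, .b false 3 3 3, .b true 1 0 1, .b true 1 0 2, .b true 1 0 3, .b true 1 1 2, .b true 1 1 3, .b true 1 2 3]⟩,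
  ⟨4, [], ad4, [.b false 0 0 2, .b false 0 1 3, .q false 0 0 2 1 3, .q true 2 0 1 2 3, .q true 2 0 3 1 2, .b false 2 0 0, .b false 2 1 1, .b false 2 2 2, .b true 2 3 3, .b false 3 0 0, .b false 3 1 1, .b false 3 2 2, .b true 1 0 1, .b true 1 0 2, .b true 1 1 2]⟩,
  ⟨4, [], ad4, [.b false 0 0 2, .b false 0 1 3, .q false 0 0 2 1 3, .q true 2 0 1 2 3, .q true 2 0 3 1 2, .b false 2 0 0, .b false 2 1 1, .b true 2 2 2, .b false 2 3 3, .b false 3 0 0, .b false 3 1 1, .b false 3 3 3, .b true 1 0 1, .b true 1 0 3, .b true 1 1 3]⟩,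
  ⟨4, [], ad4, [.b false 0 0 2, .b false 0 1 3, .q false 0 0 2 1 3, .q true 2 0 1 2 3, .q true 2 0 3 1 2, .b false 2 0 0, .b false 2 1 1, .b true 2 2 2, .b true 2 3 3, .b false 3 0 0, .b false 3 1 1, .b true 1 0 1]⟩,
  ⟨4, [], ad4, [.b false 0 0 2, .b false 0 1 3, .q false 0 0 2 1 3, .q true 2 0 1 2 3, .q true 2 0 3 1 2, .b false 2 0 0, .b true 2 1 1, .b false 2 2 2, .b false 2 3 3, .b false 3 0 0, .b false 3 2 2, .b false 3 3 3, .b true 1 0 2, .b true 1 0 3, .b true 1 2 3]⟩,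
  ⟨4, [], ad4, [.b false 0 0 2, .b false 0 1 3, .q false 0 0 2 1 3, .q true 2 0 1 2 3, .q true 2 0 3 1 2, .b false 2 0 0, .b true 2 1 1, .b false 2 2 2, .b true 2 3 3, .b false 3 0 0, .b false 3 2 2, .b true 1 0 2]⟩,
  ⟨4, [], ad4, [.b false 0 0 2, .b false 0 1 3, .q false 0 0 2 1 3, .q true 2 0 1 2 3, .q true 2 0 3 1 2, .b false 2 0 0, .b true 2 1 1, .b true 2 2 2, .b false 2 3 3, .b false 3 0 0, .b false 3 3 3, .b true 1 0 3]⟩,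
  ⟨4, [], ad4, [.b false 0 0 2, .b false 0 1 3, .q false 0 0 2 1 3, .q true 2 0 1 2 3, .q true 2 0 3 1 2, .b false 2 0 0, .b true 2 1 1, .b true 2 2 2, .b true 2 3 3, .b false 3 0 0]⟩,
  ⟨4, [], ad4, [.b false 0 0 2, .b false 0 1 3, .q false 0 0 2 1 3, .q true 2 0 1 2 3, .q true 2 0 3 1 2, .b true 2 0 0, .b false 2 1 1, .b false 2 2 2, .b false 2 3 3, .b false 3 1 1, .b false 3 2 2, .b false 3 3 3, .b true 1 1 2, .b true 1 1 3, .b true 1 2 3]⟩,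
  ⟨4, [], ad4, [.b false 0 0 2, .b false 0 1 3, .q false 0 0 2 1 3, .q true 2 0 1 2 3, .q true 2 0 3 1 2, .b true 2 0 0, .b false 2 1 1, .b false 2 2 2, .b true 2 3 3, .b false 3 1 1, .b false 3 2 2, .b true 1 1 2]⟩,
  ⟨4, [], ad4, [.b false 0 0 2, .b false 0 1 3, .q false 0 0 2 1 3, .q true 2 0 1 2 3, .q true 2 0 3 1 2, .b true 2 0 0, .b false 2 1 1, .b true 2 2 2, .b false 2 3 3, .b false 3 1 1, .b false 3 3 3, .b true 1 1 3]⟩,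
  ⟨4, [], ad4, [.b false 0 0 2, .b false 0 1 3, .q false 0 0 2 1 3, .q true 2 0 1 2 3, .q true 2 0 3 1 2, .b true 2 0 0, .b false 2 1 1, .b true 2 2 2, .b true 2 3 3, .b false 3 1 1]⟩,
  ⟨4, [], ad4, [.b false 0 0 2, .b false 0 1 3, .q false 0 0 2 1 3, .q true 2 0 1 2 3, .q true 2 0 3 1 2, .b true 2 0 0, .b true 2 1 1, .b false 2 2 2, .b false 2 3 3, .b false 3 2 2, .b false 3 3 3, .b true 1 2 3]⟩,
  ⟨4, [], ad4, [.b false 0 0 2, .b false 0 1 3, .q false 0 0 2 1 3, .q true 2 0 1 2 3, .q true 2 0 3 1 2, .b true 2 0 0, .b true 2 1 1, .b false 2 2 2, .b true 2 3 3, .b false 3 2 2]⟩,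
  ⟨4, [], ad4, [.b false 0 0 2, .b false 0 1 3, .q false 0 0 2 1 3, .q true 2 0 1 2 3, .q true 2 0 3 1 2, .b true 2 0 0, .b true 2 1 1, .b true 2 2 2, .b false 2 3 3, .b false 3 3 3]⟩,
  ⟨4, [], ad4, [.b false 0 0 2, .b false 0 1 3, .q false 0 0 2 1 3, .q true 2 0 1 2 3, .q true 2 0 3 1 2, .b true 2 0 0, .b true 2 1 1, .b true 2 2 2, .b true 2 3 3]⟩,
  ⟨5, [], ad5, [.q false 2 0 1 2 3, .q false 2 0 1 3 4, .q true 2 0 1 2 4, .b true 1 2 4]⟩,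
  ⟨5, [], ad5, [.q false 2 0 1 2 3, .q false 2 0 1 3 4, .q true 2 0 1 2 4, .b true 2 2 2]⟩,
  ⟨5, [], ad5, [.q false 2 0 2 1 3, .q false 2 0 4 1 2, .q true 2 0 4 1 3]⟩,
  ⟨6, [], ad6, [.q false 2 0 2 1 3, .q false 2 0 4 1 5, .q true 2 0 2 1 5, .q true 2 0 4 1 3]⟩,
  ⟨5, [], ad5, [.b false 2 3 3, .b false 1 3 4, .q false 2 0 1 2 3, .q true 2 0 1 2 4]⟩]

theorem gH2_h {V : Type} {Y : GSy V} (hh : Half Y.C Y.G Y.X (fun a => ¬ Y.C.S a) Y.T2) : UHs Y.rel gH2 :=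
  .cons (fun v n01 n02 n03 n12 n13 n23 h0 h1 => h1 (hh.adj h0)) (
  .cons (fun v n01 n02 n03 n12 n13 n23 h0 h1 => hh.nocross h0 h1) (
  .cons (fun v n01 n02 n03 n12 n13 n23 h0 h1 h2 => (hh.att h0).elim (fun k => k h1.2) (ng h2)) (
  .cons (fun v n01 n02 n03 n12 n13 n23 h0 h1 h2 h3 => hh.d1 h0 (fun k => k h1.2) (fun k => k h2.2) h3) (
  .cons (fun v n01 n02 n03 n12 n13 n23 h0 h1 h2 h3 => hh.d2 h0 (fun k => k h1.2) (fun k => k h2.2) h3) (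
  .cons (fun v n01 n02 n03 n12 n13 n23 h0 h1 => hh.nb h0 h1) (
  .cons (fun v n01 n02 n03 n12 n13 n23 h0 h1 h2 h3 h4 h5 h6 h7 h8 h9 h10 h11 h12 h13 h14 h15 h16 h17 h18 => (hh.some h0 h1 h2 (Or.inr h9.2) (Or.inr h10.2) (Or.inr h11.2) (Or.inr h12.2) (Or.inr (Or.inr h13)) (Or.inr (Or.inr h14)) (Or.inr (Or.inr h15)) (Or.inr (Or.inr h16)) (Or.inr (Or.inr h17)) (Or.inr (Or.inr h18))).elim h3 h4) (
  .cons (fun v n01 n02 n03 n12 n13 n23 h0 h1 h2 h3 h4 h5 h6 h7 h8 h9 h10 h11 h12 h13 h14 => (hh.some h0 h1 h2 (Or.inr h9.2) (Or.inr h10.2) (Or.inr h11.2) (Or.inl (ng h8)) (Or.inr (Or.inr h12)) (Or.inr (Or.inr h13)) (Or.inr (Or.inl (ng h8))) (Or.inr (Or.inr h14)) (Or.inr (Or.inl (ng h8))) (Or.inr (Or.inl (ng h8)))).elim h3 h4) (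
  .cons (fun v n01 n02 n03 n12 n13 n23 h0 h1 h2 h3 h4 h5 h6 h7 h8 h9 h10 h11 h12 h13 h14 => (hh.some h0 h1 h2 (Or.inr h9.2) (Or.inr h10.2) (Or.inl (ng h7)) (Or.inr h11.2) (Or.inr (Or.inr h12)) (Or.inr (Or.inl (ng h7))) (Or.inr (Or.inr h13)) (Or.inr (Or.inl (ng h7))) (Or.inr (Or.inr h14)) (Or.inl (ng h7))).elim h3 h4) (
  .cons (fun v n01 n02 n03 n12 n13 n23 h0 h1 h2 h3 h4 h5 h6 h7 h8 h9 h10 h11 => (hh.some h0 h1 h2 (Or.inr h9.2) (Or.inr h10.2) (Or.inl (ng h7)) (Or.inl (ng h8)) (Or.inr (Or.inr h11)) (Or.inr (Or.inl (ng h7))) (Or.inr (Or.inl (ng h8))) (Or.inr (Or.inl (ng h7))) (Or.inr (Or.inl (ng h8))) (Or.inl (ng h7))).elim h3 h4) (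
  .cons (fun v n01 n02 n03 n12 n13 n23 h0 h1 h2 h3 h4 h5 h6 h7 h8 h9 h10 h11 h12 h13 h14 => (hh.some h0 h1 h2 (Or.inr h9.2) (Or.inl (ng h6)) (Or.inr h10.2) (Or.inr h11.2) (Or.inr (Or.inl (ng h6))) (Or.inr (Or.inr h12)) (Or.inr (Or.inr h13)) (Or.inl (ng h6)) (Or.inl (ng h6)) (Or.inr (Or.inr h14))).elim h3 h4) (
  .cons (fun v n01 n02 n03 n12 n13 n23 h0 h1 h2 h3 h4 h5 h6 h7 h8 h9 h10 h11 => (hh.some h0 h1 h2 (Or.inr h9.2) (Or.inl (ng h6)) (Or.inr h10.2) (Or.inl (ng h8)) (Or.inr (Or.inl (ng h6))) (Or.inr (Or.inr h11)) (Or.inr (Or.inl (ng h8))) (Or.inl (ng h6)) (Or.inl (ng h6)) (Or.inr (Or.inl (ng h8)))).elim h3 h4) (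
  .cons (fun v n01 n02 n03 n12 n13 n23 h0 h1 h2 h3 h4 h5 h6 h7 h8 h9 h10 h11 => (hh.some h0 h1 h2 (Or.inr h9.2) (Or.inl (ng h6)) (Or.inl (ng h7)) (Or.inr h10.2) (Or.inr (Or.inl (ng h6))) (Or.inr (Or.inl (ng h7))) (Or.inr (Or.inr h11)) (Or.inl (ng h6)) (Or.inl (ng h6)) (Or.inl (ng h7))).elim h3 h4) (
  .cons (fun v n01 n02 n03 n12 n13 n23 h0 h1 h2 h3 h4 h5 h6 h7 h8 h9 => (hh.some h0 h1 h2 (Or.inr h9.2) (Or.inl (ng h6)) (Or.inl (ng h7)) (Or.inl (ng h8)) (Or.inr (Or.inl (ng h6))) (Or.inr (Or.inl (ng h7))) (Or.inr (Or.inl (ng h8))) (Or.inl (ng h6)) (Or.inl (ng h6)) (Or.inl (ng h7))).elim h3 h4) (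
  .cons (fun v n01 n02 n03 n12 n13 n23 h0 h1 h2 h3 h4 h5 h6 h7 h8 h9 h10 h11 h12 h13 h14 => (hh.some h0 h1 h2 (Or.inl (ng h5)) (Or.inr h9.2) (Or.inr h10.2) (Or.inr h11.2) (Or.inl (ng h5)) (Or.inl (ng h5)) (Or.inl (ng h5)) (Or.inr (Or.inr h12)) (Or.inr (Or.inr h13)) (Or.inr (Or.inr h14))).elim h3 h4) (
  .cons (fun v n01 n02 n03 n12 n13 n23 h0 h1 h2 h3 h4 h5 h6 h7 h8 h9 h10 h11 => (hh.some h0 h1 h2 (Or.inl (ng h5)) (Or.inr h9.2) (Or.inr h10.2) (Or.inl (ng h8)) (Or.inl (ng h5)) (Or.inl (ng h5)) (Or.inl (ng h5)) (Or.inr (Or.inr h11)) (Or.inr (Or.inl (ng h8))) (Or.inr (Or.inl (ng h8)))).elim h3 h4) (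
  .cons (fun v n01 n02 n03 n12 n13 n23 h0 h1 h2 h3 h4 h5 h6 h7 h8 h9 h10 h11 => (hh.some h0 h1 h2 (Or.inl (ng h5)) (Or.inr h9.2) (Or.inl (ng h7)) (Or.inr h10.2) (Or.inl (ng h5)) (Or.inl (ng h5)) (Or.inl (ng h5)) (Or.inr (Or.inl (ng h7))) (Or.inr (Or.inr h11)) (Or.inl (ng h7))).elim h3 h4) (
  .cons (fun v n01 n02 n03 n12 n13 n23 h0 h1 h2 h3 h4 h5 h6 h7 h8 h9 => (hh.some h0 h1 h2 (Or.inl (ng h5)) (Or.inr h9.2) (Or.inl (ng h7)) (Or.inl (ng h8)) (Or.inl (ng h5)) (Or.inl (ng h5)) (Or.inl (ng h5)) (Or.inr (Or.inl (ng h7))) (Or.inr (Or.inl (ng h8))) (Or.inl (ng h7))).elim h3 h4) (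
  .cons (fun v n01 n02 n03 n12 n13 n23 h0 h1 h2 h3 h4 h5 h6 h7 h8 h9 h10 h11 => (hh.some h0 h1 h2 (Or.inl (ng h5)) (Or.inl (ng h6)) (Or.inr h9.2) (Or.inr h10.2) (Or.inl (ng h5)) (Or.inl (ng h5)) (Or.inl (ng h5)) (Or.inl (ng h6)) (Or.inl (ng h6)) (Or.inr (Or.inr h11))).elim h3 h4) (
  .cons (fun v n01 n02 n03 n12 n13 n23 h0 h1 h2 h3 h4 h5 h6 h7 h8 h9 => (hh.some h0 h1 h2 (Or.inl (ng h5)) (Or.inl (ng h6)) (Or.inr h9.2) (Or.inl (ng h8)) (Or.inl (ng h5)) (Or.inl (ng h5)) (Or.inl (ng h5)) (Or.inl (ng h6)) (Or.inl (ng h6)) (Or.inr (Or.inl (ng h8)))).elim h3 h4) (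
  .cons (fun v n01 n02 n03 n12 n13 n23 h0 h1 h2 h3 h4 h5 h6 h7 h8 h9 => (hh.some h0 h1 h2 (Or.inl (ng h5)) (Or.inl (ng h6)) (Or.inl (ng h7)) (Or.inr h9.2) (Or.inl (ng h5)) (Or.inl (ng h5)) (Or.inl (ng h5)) (Or.inl (ng h6)) (Or.inl (ng h6)) (Or.inl (ng h7))).elim h3 h4) (
  .cons (fun v n01 n02 n03 n12 n13 n23 h0 h1 h2 h3 h4 h5 h6 h7 h8 => (hh.some h0 h1 h2 (Or.inl (ng h5)) (Or.inl (ng h6)) (Or.inl (ng h7)) (Or.inl (ng h8)) (Or.inl (ng h5)) (Or.inl (ng h5)) (Or.inl (ng h5)) (Or.inl (ng h6)) (Or.inl (ng h6)) (Or.inl (ng h7))).elim h3 h4) (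
  .cons (fun v n01 n02 n03 n04 n12 n13 n14 n23 n24 n34 h0 h1 h2 h3 => h2 (hh.trans n24 (Or.inr (Or.inr h3)) h0 h1)) (
  .cons (fun v n01 n02 n03 n04 n12 n13 n14 n23 n24 n34 h0 h1 h2 h3 => h2 (hh.trans n24 (Or.inl (ng h3)) h0 h1)) (
  .cons (fun v n01 n02 n03 n04 n12 n13 n14 n23 n24 n34 h0 h1 h2 => (hh.ferrers h0 h1).elim (fun k => hh.irr k) h2) (
  .cons (fun v n01 n02 n03 n04 n05 n12 n13 n14 n15 n23 n24 n25 n34 n35 n45 h0 h1 h2 h3 => (hh.ferrers h0 h1).elim h2 h3) (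
  .cons (fun v n01 n02 n03 n04 n12 n13 n14 n23 n24 n34 h0 h1 h2 h3 => h3 (hh.inv (fun k => k h0.2) h1 h2)) (
  .nil)))))))))))))))))))))))))))

/-- templates -/
def gD0 : List Tm := [
  ⟨4, [], ad4, [.b true 2 0 0, .b true 2 1 1, .b true 2 2 2, .b true 2 3 3, .q false 3 0 1 2 3, .q true 2 0 1 2 3]⟩,
  ⟨4, [], ad4, [.b true 2 0 0, .b true 2 1 1, .b true 2 2 2, .b true 2 3 3, .q true 3 0 1 2 3, .q false 2 0 1 2 3]⟩,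
  ⟨4, [], ad4, [.b true 2 0 0, .b true 2 1 1, .b true 2 2 2, .b false 2 3 3, .q false 3 0 1 2 3, .q true 2 0 1 2 3]⟩,
  ⟨4, [], ad4, [.b true 2 0 0, .b true 2 1 1, .b true 2 2 2, .b false 2 3 3, .q true 3 0 1 2 3, .q false 2 0 1 2 3]⟩,
  ⟨4, [], ad4, [.b true 2 0 0, .b true 2 1 1, .b false 2 2 2, .b true 2 3 3, .q false 3 0 1 2 3, .q true 2 0 1 2 3]⟩,
  ⟨4, [], ad4, [.b true 2 0 0, .b true 2 1 1, .b false 2 2 2, .b true 2 3 3, .q true 3 0 1 2 3, .q false 2 0 1 2 3]⟩,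
  ⟨4, [], ad4, [.b true 2 0 0, .b true 2 1 1, .b false 2 2 2, .b false 2 3 3, .b true 1 0 1, .q false 3 0 1 2 3, .q true 1 0 1 2 3]⟩,
  ⟨4, [], ad4, [.b true 2 0 0, .b true 2 1 1, .b false 2 2 2, .b false 2 3 3, .b true 1 0 1, .q true 3 0 1 2 3, .q false 1 0 1 2 3]⟩,
  ⟨4, [], ad4, [.b true 2 0 0, .b true 2 1 1, .b false 2 2 2, .b false 2 3 3, .b false 1 0 1, .b true 1 2 3, .q false 3 0 1 2 3, .q true 2 0 1 2 3]⟩,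
  ⟨4, [], ad4, [.b true 2 0 0, .b true 2 1 1, .b false 2 2 2, .b false 2 3 3, .b false 1 0 1, .b true 1 2 3, .q true 3 0 1 2 3, .q false 2 0 1 2 3]⟩,
  ⟨4, [], ad4, [.b true 2 0 0, .b true 2 1 1, .b false 2 2 2, .b false 2 3 3, .b false 1 0 1, .b false 1 2 3, .q false 3 0 1 2 3, .b true 0 0 2]⟩,
  ⟨4, [], ad4, [.b true 2 0 0, .b true 2 1 1, .b false 2 2 2, .b false 2 3 3, .b false 1 0 1, .b false 1 2 3, .q true 3 0 1 2 3, .b false 0 0 2]⟩,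
  ⟨4, [], ad4, [.b true 2 0 0, .b false 2 1 1, .b true 2 2 2, .b true 2 3 3, .q false 3 0 1 2 3, .q true 2 0 1 2 3]⟩,
  ⟨4, [], ad4, [.b true 2 0 0, .b false 2 1 1, .b true 2 2 2, .b true 2 3 3, .q true 3 0 1 2 3, .q false 2 0 1 2 3]⟩,
  ⟨4, [], ad4, [.b true 2 0 0, .b false 2 1 1, .b true 2 2 2, .b false 2 3 3, .b true 1 0 2, .q false 3 0 1 2 3, .q true 1 0 1 2 3]⟩,
  ⟨4, [], ad4, [.b true 2 0 0, .b false 2 1 1, .b true 2 2 2, .b false 2 3 3, .b true 1 0 2, .q true 3 0 1 2 3, .q false 1 0 1 2 3]⟩,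
  ⟨4, [], ad4, [.b true 2 0 0, .b false 2 1 1, .b true 2 2 2, .b false 2 3 3, .b false 1 0 2, .b true 1 1 3, .q false 3 0 1 2 3, .q true 2 0 1 2 3]⟩,
  ⟨4, [], ad4, [.b true 2 0 0, .b false 2 1 1, .b true 2 2 2, .b false 2 3 3, .b false 1 0 2, .b true 1 1 3, .q true 3 0 1 2 3, .q false 2 0 1 2 3]⟩,
  ⟨4, [], ad4, [.b true 2 0 0, .b false 2 1 1, .b true 2 2 2, .b false 2 3 3, .b false 1 0 2, .b false 1 1 3, .q false 3 0 1 2 3]⟩,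
  ⟨4, [], ad4, [.b true 2 0 0, .b false 2 1 1, .b false 2 2 2, .b true 2 3 3, .b true 1 0 3, .q false 3 0 1 2 3, .q true 1 0 1 2 3]⟩,
  ⟨4, [], ad4, [.b true 2 0 0, .b false 2 1 1, .b false 2 2 2, .b true 2 3 3, .b true 1 0 3, .q true 3 0 1 2 3, .q false 1 0 1 2 3]⟩,
  ⟨4, [], ad4, [.b true 2 0 0, .b false 2 1 1, .b false 2 2 2, .b true 2 3 3, .b false 1 0 3, .b true 1 1 2, .q false 3 0 1 2 3, .q true 2 0 1 2 3]⟩,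
  ⟨4, [], ad4, [.b true 2 0 0, .b false 2 1 1, .b false 2 2 2, .b true 2 3 3, .b false 1 0 3, .b true 1 1 2, .q true 3 0 1 2 3, .q false 2 0 1 2 3]⟩,
  ⟨4, [], ad4, [.b true 2 0 0, .b false 2 1 1, .b false 2 2 2, .b true 2 3 3, .b false 1 0 3, .b false 1 1 2, .q false 3 0 1 2 3]⟩,
  ⟨4, [], ad4, [.b true 2 0 0, .b false 2 1 1, .b false 2 2 2, .b false 2 3 3, .q false 3 0 1 2 3, .q true 1 0 1 2 3]⟩,
  ⟨4, [], ad4, [.b true 2 0 0, .b false 2 1 1, .b false 2 2 2, .b false 2 3 3, .q true 3 0 1 2 3, .q false 1 0 1 2 3]⟩,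
  ⟨4, [], ad4, [.b false 2 0 0, .b true 2 1 1, .b true 2 2 2, .b true 2 3 3, .q false 3 0 1 2 3, .q true 2 0 1 2 3]⟩,
  ⟨4, [], ad4, [.b false 2 0 0, .b true 2 1 1, .b true 2 2 2, .b true 2 3 3, .q true 3 0 1 2 3, .q false 2 0 1 2 3]⟩,
  ⟨4, [], ad4, [.b false 2 0 0, .b true 2 1 1, .b true 2 2 2, .b false 2 3 3, .b true 1 1 2, .q false 3 0 1 2 3, .q true 1 0 1 2 3]⟩,
  ⟨4, [], ad4, [.b false 2 0 0, .b true 2 1 1, .b true 2 2 2, .b false 2 3 3, .b true 1 1 2, .q true 3 0 1 2 3, .q false 1 0 1 2 3]⟩,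
  ⟨4, [], ad4, [.b false 2 0 0, .b true 2 1 1, .b true 2 2 2, .b false 2 3 3, .b false 1 1 2, .b true 1 0 3, .q false 3 0 1 2 3, .q true 2 0 1 2 3]⟩,
  ⟨4, [], ad4, [.b false 2 0 0, .b true 2 1 1, .b true 2 2 2, .b false 2 3 3, .b false 1 1 2, .b true 1 0 3, .q true 3 0 1 2 3, .q false 2 0 1 2 3]⟩,
  ⟨4, [], ad4, [.b false 2 0 0, .b true 2 1 1, .b true 2 2 2, .b false 2 3 3, .b false 1 1 2, .b false 1 0 3, .q false 3 0 1 2 3]⟩,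
  ⟨4, [], ad4, [.b false 2 0 0, .b true 2 1 1, .b false 2 2 2, .b true 2 3 3, .b true 1 1 3, .q false 3 0 1 2 3, .q true 1 0 1 2 3]⟩,
  ⟨4, [], ad4, [.b false 2 0 0, .b true 2 1 1, .b false 2 2 2, .b true 2 3 3, .b true 1 1 3, .q true 3 0 1 2 3, .q false 1 0 1 2 3]⟩,
  ⟨4, [], ad4, [.b false 2 0 0, .b true 2 1 1, .b false 2 2 2, .b true 2 3 3, .b false 1 1 3, .b true 1 0 2, .q false 3 0 1 2 3, .q true 2 0 1 2 3]⟩,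
  ⟨4, [], ad4, [.b false 2 0 0, .b true 2 1 1, .b false 2 2 2, .b true 2 3 3, .b false 1 1 3, .b true 1 0 2, .q true 3 0 1 2 3, .q false 2 0 1 2 3]⟩,
  ⟨4, [], ad4, [.b false 2 0 0, .b true 2 1 1, .b false 2 2 2, .b true 2 3 3, .b false 1 1 3, .b false 1 0 2, .q false 3 0 1 2 3]⟩,
  ⟨4, [], ad4, [.b false 2 0 0, .b true 2 1 1, .b false 2 2 2, .b false 2 3 3, .q false 3 0 1 2 3, .q true 1 0 1 2 3]⟩,
  ⟨4, [], ad4, [.b false 2 0 0, .b true 2 1 1, .b false 2 2 2, .b false 2 3 3, .q true 3 0 1 2 3, .q false 1 0 1 2 3]⟩,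
  ⟨4, [], ad4, [.b false 2 0 0, .b false 2 1 1, .b true 2 2 2, .b true 2 3 3, .b true 1 2 3, .q false 3 0 1 2 3, .q true 1 0 1 2 3]⟩,
  ⟨4, [], ad4, [.b false 2 0 0, .b false 2 1 1, .b true 2 2 2, .b true 2 3 3, .b true 1 2 3, .q true 3 0 1 2 3, .q false 1 0 1 2 3]⟩,
  ⟨4, [], ad4, [.b false 2 0 0, .b false 2 1 1, .b true 2 2 2, .b true 2 3 3, .b false 1 2 3, .b true 1 0 1, .q false 3 0 1 2 3, .q true 2 0 1 2 3]⟩,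
  ⟨4, [], ad4, [.b false 2 0 0, .b false 2 1 1, .b true 2 2 2, .b true 2 3 3, .b false 1 2 3, .b true 1 0 1, .q true 3 0 1 2 3, .q false 2 0 1 2 3]⟩,
  ⟨4, [], ad4, [.b false 2 0 0, .b false 2 1 1, .b true 2 2 2, .b true 2 3 3, .b false 1 2 3, .b false 1 0 1, .q false 3 0 1 2 3, .b true 0 0 2]⟩,
  ⟨4, [], ad4, [.b false 2 0 0, .b false 2 1 1, .b true 2 2 2, .b true 2 3 3, .b false 1 2 3, .b false 1 0 1, .q true 3 0 1 2 3, .b false 0 0 2]⟩,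
  ⟨4, [], ad4, [.b false 2 0 0, .b false 2 1 1, .b true 2 2 2, .b false 2 3 3, .q false 3 0 1 2 3, .q true 1 0 1 2 3]⟩,
  ⟨4, [], ad4, [.b false 2 0 0, .b false 2 1 1, .b true 2 2 2, .b false 2 3 3, .q true 3 0 1 2 3, .q false 1 0 1 2 3]⟩,
  ⟨4, [], ad4, [.b false 2 0 0, .b false 2 1 1, .b false 2 2 2, .b true 2 3 3, .q false 3 0 1 2 3, .q true 1 0 1 2 3]⟩,
  ⟨4, [], ad4, [.b false 2 0 0, .b false 2 1 1, .b false 2 2 2, .b true 2 3 3, .q true 3 0 1 2 3, .q false 1 0 1 2 3]⟩,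
  ⟨4, [], ad4, [.b false 2 0 0, .b false 2 1 1, .b false 2 2 2, .b false 2 3 3, .q false 3 0 1 2 3, .q true 1 0 1 2 3]⟩,
  ⟨4, [], ad4, [.b false 2 0 0, .b false 2 1 1, .b false 2 2 2, .b false 2 3 3, .q true 3 0 1 2 3, .q false 1 0 1 2 3]⟩]

theorem gD0_h {V : Type} {Y : GSy V} (hc : Y.C.Ok Y.X) (ht : Y.C.Ty0 Y.G) : UHs Y.rel gD0 :=
  .cons (fun v n01 n02 n03 n12 n13 n23 h0 h1 h2 h3 h4 h5 => h5 ((gl0000 (ng h0) (ng h1) (ng h2) (ng h3)).1 h4).2) (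
  .cons (fun v n01 n02 n03 n12 n13 n23 h0 h1 h2 h3 h4 h5 => h4 ((gl0000 (ng h0) (ng h1) (ng h2) (ng h3)).2 ⟨⟨n01, n23⟩, h5⟩)) (
  .cons (fun v n01 n02 n03 n12 n13 n23 h0 h1 h2 h3 h4 h5 => h5 ((gl0001 (ng h0) (ng h1) (ng h2) h3.2).1 h4).2) (
  .cons (fun v n01 n02 n03 n12 n13 n23 h0 h1 h2 h3 h4 h5 => h4 ((gl0001 (ng h0) (ng h1) (ng h2) h3.2).2 ⟨⟨n01, n23⟩, h5⟩)) (
  .cons (fun v n01 n02 n03 n12 n13 n23 h0 h1 h2 h3 h4 h5 => h5 ((gl0010 (ng h0) (ng h1) h2.2 (ng h3)).1 h4).2) (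
  .cons (fun v n01 n02 n03 n12 n13 n23 h0 h1 h2 h3 h4 h5 => h4 ((gl0010 (ng h0) (ng h1) h2.2 (ng h3)).2 ⟨⟨n01, n23⟩, h5⟩)) (
  .cons (fun v n01 n02 n03 n12 n13 n23 h0 h1 h2 h3 h4 h5 h6 => h6 ((two1 h4).1 ((gl0011 (ng h0) (ng h1) h2.2 h3.2).1 h5).2)) (
  .cons (fun v n01 n02 n03 n12 n13 n23 h0 h1 h2 h3 h4 h5 h6 => h5 ((gl0011 (ng h0) (ng h1) h2.2 h3.2).2 ⟨⟨n01, n23⟩, (two1 h4).2 h6⟩)) (
  .cons (fun v n01 n02 n03 n12 n13 n23 h0 h1 h2 h3 h4 h5 h6 h7 => h7 ((two2 h4 h5).1 ((gl0011 (ng h0) (ng h1) h2.2 h3.2).1 h6).2)) (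
  .cons (fun v n01 n02 n03 n12 n13 n23 h0 h1 h2 h3 h4 h5 h6 h7 => h6 ((gl0011 (ng h0) (ng h1) h2.2 h3.2).2 ⟨⟨n01, n23⟩, (two2 h4 h5).2 h7⟩)) (
  .cons (fun v n01 n02 n03 n12 n13 n23 h0 h1 h2 h3 h4 h5 h6 h7 => h7 ((two3 h4 h5).1 ((gl0011 (ng h0) (ng h1) h2.2 h3.2).1 h6).2).1) (
  .cons (fun v n01 n02 n03 n12 n13 n23 h0 h1 h2 h3 h4 h5 h6 h7 => h6 ((gl0011 (ng h0) (ng h1) h2.2 h3.2).2 ⟨⟨n01, n23⟩, (two3 h4 h5).2 (merge_sq hc ht h2.2 (ng h0) h5 h4 (SimpleGraph.Adj.symm h7)).symm2⟩)) (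
  .cons (fun v n01 n02 n03 n12 n13 n23 h0 h1 h2 h3 h4 h5 => h5 ((gl0100 (ng h0) h1.2 (ng h2) (ng h3)).1 h4).2) (
  .cons (fun v n01 n02 n03 n12 n13 n23 h0 h1 h2 h3 h4 h5 => h4 ((gl0100 (ng h0) h1.2 (ng h2) (ng h3)).2 ⟨⟨n01, n23⟩, h5⟩)) (
  .cons (fun v n01 n02 n03 n12 n13 n23 h0 h1 h2 h3 h4 h5 h6 => h6 ((two1 h4).1 ((gl0101 (ng h0) h1.2 (ng h2) h3.2).1 h5).2)) (
  .cons (fun v n01 n02 n03 n12 n13 n23 h0 h1 h2 h3 h4 h5 h6 => h5 ((gl0101 (ng h0) h1.2 (ng h2) h3.2).2 ⟨⟨n01, n23⟩, (two1 h4).2 h6⟩)) (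
  .cons (fun v n01 n02 n03 n12 n13 n23 h0 h1 h2 h3 h4 h5 h6 h7 => h7 ((two2 h4 h5).1 ((gl0101 (ng h0) h1.2 (ng h2) h3.2).1 h6).2)) (
  .cons (fun v n01 n02 n03 n12 n13 n23 h0 h1 h2 h3 h4 h5 h6 h7 => h6 ((gl0101 (ng h0) h1.2 (ng h2) h3.2).2 ⟨⟨n01, n23⟩, (two2 h4 h5).2 h7⟩)) (
  .cons (fun v n01 n02 n03 n12 n13 n23 h0 h1 h2 h3 h4 h5 h6 => (two3 h4 h5).1 ((gl0101 (ng h0) h1.2 (ng h2) h3.2).1 h6).2) (
  .cons (fun v n01 n02 n03 n12 n13 n23 h0 h1 h2 h3 h4 h5 h6 => h6 ((two1 h4).1 ((gl0110 (ng h0) h1.2 h2.2 (ng h3)).1 h5).2)) (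
  .cons (fun v n01 n02 n03 n12 n13 n23 h0 h1 h2 h3 h4 h5 h6 => h5 ((gl0110 (ng h0) h1.2 h2.2 (ng h3)).2 ⟨⟨n01, n23⟩, (two1 h4).2 h6⟩)) (
  .cons (fun v n01 n02 n03 n12 n13 n23 h0 h1 h2 h3 h4 h5 h6 h7 => h7 ((two2 h4 h5).1 ((gl0110 (ng h0) h1.2 h2.2 (ng h3)).1 h6).2)) (
  .cons (fun v n01 n02 n03 n12 n13 n23 h0 h1 h2 h3 h4 h5 h6 h7 => h6 ((gl0110 (ng h0) h1.2 h2.2 (ng h3)).2 ⟨⟨n01, n23⟩, (two2 h4 h5).2 h7⟩)) (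
  .cons (fun v n01 n02 n03 n12 n13 n23 h0 h1 h2 h3 h4 h5 h6 => (two3 h4 h5).1 ((gl0110 (ng h0) h1.2 h2.2 (ng h3)).1 h6).2) (
  .cons (fun v n01 n02 n03 n12 n13 n23 h0 h1 h2 h3 h4 h5 => h5 ((gl0111 (ng h0) h1.2 h2.2 h3.2).1 h4).2) (
  .cons (fun v n01 n02 n03 n12 n13 n23 h0 h1 h2 h3 h4 h5 => h4 ((gl0111 (ng h0) h1.2 h2.2 h3.2).2 ⟨⟨n01, n23⟩, h5⟩)) (
  .cons (fun v n01 n02 n03 n12 n13 n23 h0 h1 h2 h3 h4 h5 => h5 ((gl1000 h0.2 (ng h1) (ng h2) (ng h3)).1 h4).2) (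
  .cons (fun v n01 n02 n03 n12 n13 n23 h0 h1 h2 h3 h4 h5 => h4 ((gl1000 h0.2 (ng h1) (ng h2) (ng h3)).2 ⟨⟨n01, n23⟩, h5⟩)) (
  .cons (fun v n01 n02 n03 n12 n13 n23 h0 h1 h2 h3 h4 h5 h6 => h6 ((two1 h4).1 ((gl1001 h0.2 (ng h1) (ng h2) h3.2).1 h5).2)) (
  .cons (fun v n01 n02 n03 n12 n13 n23 h0 h1 h2 h3 h4 h5 h6 => h5 ((gl1001 h0.2 (ng h1) (ng h2) h3.2).2 ⟨⟨n01, n23⟩, (two1 h4).2 h6⟩)) (
  .cons (fun v n01 n02 n03 n12 n13 n23 h0 h1 h2 h3 h4 h5 h6 h7 => h7 ((two2 h4 h5).1 ((gl1001 h0.2 (ng h1) (ng h2) h3.2).1 h6).2)) (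
  .cons (fun v n01 n02 n03 n12 n13 n23 h0 h1 h2 h3 h4 h5 h6 h7 => h6 ((gl1001 h0.2 (ng h1) (ng h2) h3.2).2 ⟨⟨n01, n23⟩, (two2 h4 h5).2 h7⟩)) (
  .cons (fun v n01 n02 n03 n12 n13 n23 h0 h1 h2 h3 h4 h5 h6 => (two3 h4 h5).1 ((gl1001 h0.2 (ng h1) (ng h2) h3.2).1 h6).2) (
  .cons (fun v n01 n02 n03 n12 n13 n23 h0 h1 h2 h3 h4 h5 h6 => h6 ((two1 h4).1 ((gl1010 h0.2 (ng h1) h2.2 (ng h3)).1 h5).2)) (
  .cons (fun v n01 n02 n03 n12 n13 n23 h0 h1 h2 h3 h4 h5 h6 => h5 ((gl1010 h0.2 (ng h1) h2.2 (ng h3)).2 ⟨⟨n01, n23⟩, (two1 h4).2 h6⟩)) (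
  .cons (fun v n01 n02 n03 n12 n13 n23 h0 h1 h2 h3 h4 h5 h6 h7 => h7 ((two2 h4 h5).1 ((gl1010 h0.2 (ng h1) h2.2 (ng h3)).1 h6).2)) (
  .cons (fun v n01 n02 n03 n12 n13 n23 h0 h1 h2 h3 h4 h5 h6 h7 => h6 ((gl1010 h0.2 (ng h1) h2.2 (ng h3)).2 ⟨⟨n01, n23⟩, (two2 h4 h5).2 h7⟩)) (
  .cons (fun v n01 n02 n03 n12 n13 n23 h0 h1 h2 h3 h4 h5 h6 => (two3 h4 h5).1 ((gl1010 h0.2 (ng h1) h2.2 (ng h3)).1 h6).2) (
  .cons (fun v n01 n02 n03 n12 n13 n23 h0 h1 h2 h3 h4 h5 => h5 ((gl1011 h0.2 (ng h1) h2.2 h3.2).1 h4).2) (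
  .cons (fun v n01 n02 n03 n12 n13 n23 h0 h1 h2 h3 h4 h5 => h4 ((gl1011 h0.2 (ng h1) h2.2 h3.2).2 ⟨⟨n01, n23⟩, h5⟩)) (
  .cons (fun v n01 n02 n03 n12 n13 n23 h0 h1 h2 h3 h4 h5 h6 => h6 ((two1 h4).1 ((gl1100 h0.2 h1.2 (ng h2) (ng h3)).1 h5).2)) (
  .cons (fun v n01 n02 n03 n12 n13 n23 h0 h1 h2 h3 h4 h5 h6 => h5 ((gl1100 h0.2 h1.2 (ng h2) (ng h3)).2 ⟨⟨n01, n23⟩, (two1 h4).2 h6⟩)) (
  .cons (fun v n01 n02 n03 n12 n13 n23 h0 h1 h2 h3 h4 h5 h6 h7 => h7 ((two2 h4 h5).1 ((gl1100 h0.2 h1.2 (ng h2) (ng h3)).1 h6).2)) (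
  .cons (fun v n01 n02 n03 n12 n13 n23 h0 h1 h2 h3 h4 h5 h6 h7 => h6 ((gl1100 h0.2 h1.2 (ng h2) (ng h3)).2 ⟨⟨n01, n23⟩, (two2 h4 h5).2 h7⟩)) (
  .cons (fun v n01 n02 n03 n12 n13 n23 h0 h1 h2 h3 h4 h5 h6 h7 => h7 ((two3 h4 h5).1 ((gl1100 h0.2 h1.2 (ng h2) (ng h3)).1 h6).2).1) (
  .cons (fun v n01 n02 n03 n12 n13 n23 h0 h1 h2 h3 h4 h5 h6 h7 => h6 ((gl1100 h0.2 h1.2 (ng h2) (ng h3)).2 ⟨⟨n01, n23⟩, (two3 h4 h5).2 (merge_sq hc ht h0.2 (ng h2) h5 h4 h7)⟩)) (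
  .cons (fun v n01 n02 n03 n12 n13 n23 h0 h1 h2 h3 h4 h5 => h5 ((gl1101 h0.2 h1.2 (ng h2) h3.2).1 h4).2) (
  .cons (fun v n01 n02 n03 n12 n13 n23 h0 h1 h2 h3 h4 h5 => h4 ((gl1101 h0.2 h1.2 (ng h2) h3.2).2 ⟨⟨n01, n23⟩, h5⟩)) (
  .cons (fun v n01 n02 n03 n12 n13 n23 h0 h1 h2 h3 h4 h5 => h5 ((gl1110 h0.2 h1.2 h2.2 (ng h3)).1 h4).2) (
  .cons (fun v n01 n02 n03 n12 n13 n23 h0 h1 h2 h3 h4 h5 => h4 ((gl1110 h0.2 h1.2 h2.2 (ng h3)).2 ⟨⟨n01, n23⟩, h5⟩)) (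
  .cons (fun v n01 n02 n03 n12 n13 n23 h0 h1 h2 h3 h4 h5 => h5 ((gl1111 h0.2 h1.2 h2.2 h3.2).1 h4).2) (
  .cons (fun v n01 n02 n03 n12 n13 n23 h0 h1 h2 h3 h4 h5 => h4 ((gl1111 h0.2 h1.2 h2.2 h3.2).2 ⟨⟨n01, n23⟩, h5⟩)) (
  .nil))))))))))))))))))))))))))))))))))))))))))))))))))))

end Pool.Agent.SOG
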