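import Pool.Agent.SOG.Th

/-! Project SOG: templates for the glued structure, general cuts (generated). -/

set_option autoImplicit false
set_option maxRecDepth 100000
set_option linter.unusedVariables false

namespace Pool.Agent.SOG

open Pool.Agent.SOC Pool.Agent.SOD Pool.Agent.RUP Pool.Agent.SOF

/-- vertices of a block have the same neighbours on the other side -/
structure Cut.Bi {V : Type} (C : Cut V) (G : SimpleGraph V) : Prop where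
  xa : ∀ {a b}, C.S a → ¬ C.S b → G.Adj a b → C.A a ∧ C.A b
  bi : ∀ {a b c}, C.K a b → C.S a → ¬ C.S c → G.Adj a c → G.Adj b c
  bi' : ∀ {a b c}, C.K a b → ¬ C.S a → C.S c → G.Adj a c → G.Adj b c

/-- the facts which are used -/
structure Facts {V : Type} (C : Cut V) (G : SimpleGraph V) (T1 T2 : V → V → V → V → Prop) : Prop where
  m1 : ∀ {a b c d}, C.S a → ¬ C.S c → ¬ C.S d → C.K a b → ¬ C.K c d → G.Adj a c → G.Adj a d → T1 a b c d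
  m2 : ∀ {a b c d}, ¬ C.S a → C.S c → C.S d → C.K a b → ¬ C.K c d → G.Adj a c → G.Adj a d → T2 a b c d
  d1 : ∀ {a b c d}, C.S a → C.S b → ¬ C.S c → ¬ C.S d → ¬ C.K a b → ¬ C.K c d → (T1 a b c d ↔ T2 a b c d)
  d2 : ∀ {a b c d}, C.S a → C.S b → ¬ C.S c → ¬ C.S d → ¬ C.K a b → ¬ C.K c d → (T1 a c b d ↔ T2 a c b d)
  l : ∀ {p q a b c d}, C.S p → ¬ C.S q → C.S a → C.S b → ¬ C.S c → ¬ C.S d → T1 q a p b → T2 q c p d →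
    G.Adj a d ∨ G.Adj b c

theorem merge_sqg {V : Type} {C : Cut V} {G : SimpleGraph V} {X : V → V → V → V → Prop} (hc : C.Ok X) (hg : C.Bi G)
    {a b c d : V} (sa : C.S a) (sc : ¬ C.S c) (kab : C.K a b) (kcd : C.K c d) (e : G.Adj a c) : Sq G a b c d := by
  have sb := hc.kS kab sa
  have e1 : G.Adj b c := hg.bi kab sa sc e
  have e2 : G.Adj a d := (hg.bi' kcd sc sa e.symm).symm
  exact ⟨e, e2, e1, (hg.bi' kcd sc sb e1.symm).symm⟩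

/-- templates -/
def gCG : List Tm := [
  ⟨4, [], ad4, [.b false 2 0 0, .b false 2 1 1, .b true 2 2 2, .b true 2 3 3, .q false 0 0 1 2 3]⟩,
  ⟨2, [], [(0, 1)], [.b false 2 0 0, .b true 2 1 1, .b false 0 0 1, .b true 3 0 0]⟩,
  ⟨2, [], [(0, 1)], [.b false 2 0 0, .b true 2 1 1, .b false 0 0 1, .b true 3 1 1]⟩,
  ⟨2, [], [(0, 1)], [.b false 1 0 1, .b false 2 0 0, .b true 2 1 1]⟩,
  ⟨2, [], [(0, 1)], [.b false 1 0 1, .b true 3 0 0]⟩,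
  ⟨3, [], [(0, 1), (0, 2), (1, 2)], [.b false 1 0 1, .b false 1 1 2, .b true 1 0 2]⟩,
  ⟨3, [], [(0, 1), (0, 2), (1, 2)], [.b false 1 0 1, .b false 2 0 0, .b true 2 2 2, .b false 0 0 2, .b true 0 1 2]⟩,
  ⟨3, [], [(0, 1), (0, 2), (1, 2)], [.b false 1 0 1, .b true 2 0 0, .b false 2 2 2, .b false 0 0 2, .b true 0 1 2]⟩,
  ⟨4, [], ad4, [.b false 1 0 1, .b false 3 2 2, .b false 2 0 0, .b false 2 2 2, .b true 2 3 3, .q false 0 0 1 2 3, .b true 1 0 2]⟩,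
  ⟨4, [], ad4, [.b false 1 0 1, .b false 3 2 2, .b true 2 0 0, .b true 2 2 2, .b false 2 3 3, .q false 0 0 1 2 3, .b true 1 0 2]⟩]

theorem gCG_h {V : Type} {Y : GSy V} (hc : Y.C.Ok Y.X) (hg : Y.C.Bi Y.G) : UHs Y.rel gCG :=
  .cons (fun v n01 n02 n03 n12 n13 n23 h0 h1 h2 h3 h4 => hc.int h0.2 h1.2 (ng h2) (ng h3) h4) (
  .cons (fun v n01 h0 h1 h2 h3 => h3 ⟨rfl, (hg.xa h0.2 (ng h1) h2).1⟩) (
  .cons (fun v n01 h0 h1 h2 h3 => h3 ⟨rfl, (hg.xa h0.2 (ng h1) h2).2⟩) (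
  .cons (fun v n01 h0 h1 h2 => h2 ⟨rfl, hc.kS h0 h1.2⟩) (
  .cons (fun v n01 h0 h1 => h1 ⟨rfl, hc.kA h0⟩) (
  .cons (fun v n01 n02 n12 h0 h1 h2 => h2 (hc.ktr h0 h1)) (
  .cons (fun v n01 n02 n12 h0 h1 h2 h3 h4 => h4 (hg.bi h0 h1.2 (ng h2) h3)) (
  .cons (fun v n01 n02 n12 h0 h1 h2 h3 h4 => h4 (hg.bi' h0 (ng h1) h2.2 h3)) (
  .cons (fun v n01 n02 n03 n12 n13 n23 h0 h1 h2 h3 h4 h5 h6 => h6 (hc.kb h0 h1.2 h2.2 h3.2 (ng h4) h5)) (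
  .cons (fun v n01 n02 n03 n12 n13 n23 h0 h1 h2 h3 h4 h5 h6 => h6 (hc.kb' h0 h1.2 (ng h2) (ng h3) h4.2 h5)) (
  .nil))))))))))

/-- templates -/
def gFG : List Tm := [
  ⟨4, [], ad4, [.b false 2 0 0, .b true 2 2 2, .b true 2 3 3, .b false 1 0 1, .b true 1 2 3, .b false 0 0 2, .b false 0 0 3, .q true 1 0 1 2 3]⟩,
  ⟨4, [], ad4, [.b true 2 0 0, .b false 2 2 2, .b false 2 3 3, .b false 1 0 1, .b true 1 2 3, .b false 0 0 2, .b false 0 0 3, .q true 2 0 1 2 3]⟩,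
  ⟨4, [], ad4, [.b false 2 0 0, .b false 2 1 1, .b true 2 2 2, .b true 2 3 3, .b true 1 0 1, .b true 1 2 3, .q false 1 0 1 2 3, .q true 2 0 1 2 3]⟩,
  ⟨4, [], ad4, [.b false 2 0 0, .b false 2 1 1, .b true 2 2 2, .b true 2 3 3, .b true 1 0 1, .b true 1 2 3, .q false 1 0 2 1 3, .q true 2 0 2 1 3]⟩,
  ⟨4, [], ad4, [.b false 2 0 0, .b false 2 1 1, .b true 2 2 2, .b true 2 3 3, .b true 1 0 1, .b true 1 2 3, .q false 2 0 1 2 3, .q true 1 0 1 2 3]⟩,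
  ⟨4, [], ad4, [.b false 2 0 0, .b false 2 1 1, .b true 2 2 2, .b true 2 3 3, .b true 1 0 1, .b true 1 2 3, .q false 2 0 2 1 3, .q true 1 0 2 1 3]⟩,
  ⟨6, [], ad6, [.b false 2 0 0, .b true 2 1 1, .b false 2 2 2, .b false 2 3 3, .b true 2 4 4, .b true 2 5 5, .q false 1 1 2 0 3, .q false 2 1 4 0 5, .b true 0 2 5, .b true 0 3 4]⟩]

theorem gFG_h {V : Type} {Y : GSy V} (hf : Facts Y.C Y.G Y.T1 Y.T2) : UHs Y.rel gFG :=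
  .cons (fun v n01 n02 n03 n12 n13 n23 h0 h1 h2 h3 h4 h5 h6 h7 => h7 (hf.m1 h0.2 (ng h1) (ng h2) h3 h4 h5 h6)) (
  .cons (fun v n01 n02 n03 n12 n13 n23 h0 h1 h2 h3 h4 h5 h6 h7 => h7 (hf.m2 (ng h0) h1.2 h2.2 h3 h4 h5 h6)) (
  .cons (fun v n01 n02 n03 n12 n13 n23 h0 h1 h2 h3 h4 h5 h6 h7 => h7 ((hf.d1 h0.2 h1.2 (ng h2) (ng h3) h4 h5).1 h6)) (
  .cons (fun v n01 n02 n03 n12 n13 n23 h0 h1 h2 h3 h4 h5 h6 h7 => h7 ((hf.d2 h0.2 h1.2 (ng h2) (ng h3) h4 h5).1 h6)) (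
  .cons (fun v n01 n02 n03 n12 n13 n23 h0 h1 h2 h3 h4 h5 h6 h7 => h7 ((hf.d1 h0.2 h1.2 (ng h2) (ng h3) h4 h5).2 h6)) (
  .cons (fun v n01 n02 n03 n12 n13 n23 h0 h1 h2 h3 h4 h5 h6 h7 => h7 ((hf.d2 h0.2 h1.2 (ng h2) (ng h3) h4 h5).2 h6)) (
  .cons (fun v n01 n02 n03 n04 n05 n12 n13 n14 n15 n23 n24 n25 n34 n35 n45 h0 h1 h2 h3 h4 h5 h6 h7 h8 h9 => (hf.l h0.2 (ng h1) h2.2 h3.2 (ng h4) (ng h5) h6 h7).elim h8 h9) (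
  .nil)))))))

/-- templates -/
def gDG : List Tm := [
  ⟨4, [], ad4, [.b true 2 0 0, .b true 2 1 1, .b true 2 2 2, .b true 2 3 3, .q false 3 0 1 2 3, .q true 2 0 1 2 3]⟩,
  ⟨4, [], ad4, [.b true 2 0 0, .b true 2 1 1, .b true 2 2 2, .b true 2 3 3, .q true 3 0 1 2 3, .q false 2 0 1 2 3]⟩,
  ⟨4, [], ad4, [.b true 2 0 0, .b true 2 1 1, .b true 2 2 2, .b false 2 3 3, .q false 3 0 1 2 3, .q true 2 0 1 2 3]⟩,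
  ⟨4, [], ad4, [.b true 2 0 0, .b true 2 1 1, .b true 2 2 2, .b false 2 3 3, .q true 3 0 1 2 3, .q false 2 0 1 2 3]⟩,
  ⟨4, [], ad4, [.b true 2 0 0, .b true 2 1 1, .b false 2 2 2, .b true 2 3 3, .q false 3 0 1 2 3, .q true 2 0 1 2 3]⟩,
  ⟨4, [], ad4, [.b true 2 0 0, .b true 2 1 1, .b false 2 2 2, .b true 2 3 3, .q true 3 0 1 2 3, .q false 2 0 1 2 3]⟩,
  ⟨4, [], ad4, [.b true 2 0 0, .b true 2 1 1, .b false 2 2 2, .b false 2 3 3, .b true 1 0 1, .q false 3 0 1 2 3, .q true 1 0 1 2 3]⟩,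
  ⟨4, [], ad4, [.b true 2 0 0, .b true 2 1 1, .b false 2 2 2, .b false 2 3 3, .b true 1 0 1, .q true 3 0 1 2 3, .q false 1 0 1 2 3]⟩,
  ⟨4, [], ad4, [.b true 2 0 0, .b true 2 1 1, .b false 2 2 2, .b false 2 3 3, .b false 1 0 1, .b true 1 2 3, .q false 3 0 1 2 3, .q true 2 0 1 2 3]⟩,
  ⟨4, [], ad4, [.b true 2 0 0, .b true 2 1 1, .b false 2 2 2, .b false 2 3 3, .b false 1 0 1, .b true 1 2 3, .q true 3 0 1 2 3, .q false 2 0 1 2 3]⟩,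
  ⟨4, [], ad4, [.b true 2 0 0, .b true 2 1 1, .b false 2 2 2, .b false 2 3 3, .b false 1 0 1, .b false 1 2 3, .q false 3 0 1 2 3, .b true 0 0 2]⟩,
  ⟨4, [], ad4, [.b true 2 0 0, .b true 2 1 1, .b false 2 2 2, .b false 2 3 3, .b false 1 0 1, .b false 1 2 3, .q true 3 0 1 2 3, .b false 0 0 2]⟩,
  ⟨4, [], ad4, [.b true 2 0 0, .b false 2 1 1, .b true 2 2 2, .b true 2 3 3, .q false 3 0 1 2 3, .q true 2 0 1 2 3]⟩,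
  ⟨4, [], ad4, [.b true 2 0 0, .b false 2 1 1, .b true 2 2 2, .b true 2 3 3, .q true 3 0 1 2 3, .q false 2 0 1 2 3]⟩,
  ⟨4, [], ad4, [.b true 2 0 0, .b false 2 1 1, .b true 2 2 2, .b false 2 3 3, .b true 1 0 2, .q false 3 0 1 2 3, .q true 1 0 1 2 3]⟩,
  ⟨4, [], ad4, [.b true 2 0 0, .b false 2 1 1, .b true 2 2 2, .b false 2 3 3, .b true 1 0 2, .q true 3 0 1 2 3, .q false 1 0 1 2 3]⟩,
  ⟨4, [], ad4, [.b true 2 0 0, .b false 2 1 1, .b true 2 2 2, .b false 2 3 3, .b false 1 0 2, .b true 1 1 3, .q false 3 0 1 2 3, .q true 2 0 1 2 3]⟩,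
  ⟨4, [], ad4, [.b true 2 0 0, .b false 2 1 1, .b true 2 2 2, .b false 2 3 3, .b false 1 0 2, .b true 1 1 3, .q true 3 0 1 2 3, .q false 2 0 1 2 3]⟩,
  ⟨4, [], ad4, [.b true 2 0 0, .b false 2 1 1, .b true 2 2 2, .b false 2 3 3, .b false 1 0 2, .b false 1 1 3, .q false 3 0 1 2 3]⟩,
  ⟨4, [], ad4, [.b true 2 0 0, .b false 2 1 1, .b false 2 2 2, .b true 2 3 3, .b true 1 0 3, .q false 3 0 1 2 3, .q true 1 0 1 2 3]⟩,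
  ⟨4, [], ad4, [.b true 2 0 0, .b false 2 1 1, .b false 2 2 2, .b true 2 3 3, .b true 1 0 3, .q true 3 0 1 2 3, .q false 1 0 1 2 3]⟩,
  ⟨4, [], ad4, [.b true 2 0 0, .b false 2 1 1, .b false 2 2 2, .b true 2 3 3, .b false 1 0 3, .b true 1 1 2, .q false 3 0 1 2 3, .q true 2 0 1 2 3]⟩,
  ⟨4, [], ad4, [.b true 2 0 0, .b false 2 1 1, .b false 2 2 2, .b true 2 3 3, .b false 1 0 3, .b true 1 1 2, .q true 3 0 1 2 3, .q false 2 0 1 2 3]⟩,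
  ⟨4, [], ad4, [.b true 2 0 0, .b false 2 1 1, .b false 2 2 2, .b true 2 3 3, .b false 1 0 3, .b false 1 1 2, .q false 3 0 1 2 3]⟩,
  ⟨4, [], ad4, [.b true 2 0 0, .b false 2 1 1, .b false 2 2 2, .b false 2 3 3, .q false 3 0 1 2 3, .q true 1 0 1 2 3]⟩,
  ⟨4, [], ad4, [.b true 2 0 0, .b false 2 1 1, .b false 2 2 2, .b false 2 3 3, .q true 3 0 1 2 3, .q false 1 0 1 2 3]⟩,
  ⟨4, [], ad4, [.b false 2 0 0, .b true 2 1 1, .b true 2 2 2, .b true 2 3 3, .q false 3 0 1 2 3, .q true 2 0 1 2 3]⟩,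
  ⟨4, [], ad4, [.b false 2 0 0, .b true 2 1 1, .b true 2 2 2, .b true 2 3 3, .q true 3 0 1 2 3, .q false 2 0 1 2 3]⟩,
  ⟨4, [], ad4, [.b false 2 0 0, .b true 2 1 1, .b true 2 2 2, .b false 2 3 3, .b true 1 1 2, .q false 3 0 1 2 3, .q true 1 0 1 2 3]⟩,
  ⟨4, [], ad4, [.b false 2 0 0, .b true 2 1 1, .b true 2 2 2, .b false 2 3 3, .b true 1 1 2, .q true 3 0 1 2 3, .q false 1 0 1 2 3]⟩,
  ⟨4, [], ad4, [.b false 2 0 0, .b true 2 1 1, .b true 2 2 2, .b false 2 3 3, .b false 1 1 2, .b true 1 0 3, .q false 3 0 1 2 3, .q true 2 0 1 2 3]⟩,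
  ⟨4, [], ad4, [.b false 2 0 0, .b true 2 1 1, .b true 2 2 2, .b false 2 3 3, .b false 1 1 2, .b true 1 0 3, .q true 3 0 1 2 3, .q false 2 0 1 2 3]⟩,
  ⟨4, [], ad4, [.b false 2 0 0, .b true 2 1 1, .b true 2 2 2, .b false 2 3 3, .b false 1 1 2, .b false 1 0 3, .q false 3 0 1 2 3]⟩,
  ⟨4, [], ad4, [.b false 2 0 0, .b true 2 1 1, .b false 2 2 2, .b true 2 3 3, .b true 1 1 3, .q false 3 0 1 2 3, .q true 1 0 1 2 3]⟩,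
  ⟨4, [], ad4, [.b false 2 0 0, .b true 2 1 1, .b false 2 2 2, .b true 2 3 3, .b true 1 1 3, .q true 3 0 1 2 3, .q false 1 0 1 2 3]⟩,
  ⟨4, [], ad4, [.b false 2 0 0, .b true 2 1 1, .b false 2 2 2, .b true 2 3 3, .b false 1 1 3, .b true 1 0 2, .q false 3 0 1 2 3, .q true 2 0 1 2 3]⟩,
  ⟨4, [], ad4, [.b false 2 0 0, .b true 2 1 1, .b false 2 2 2, .b true 2 3 3, .b false 1 1 3, .b true 1 0 2, .q true 3 0 1 2 3, .q false 2 0 1 2 3]⟩,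
  ⟨4, [], ad4, [.b false 2 0 0, .b true 2 1 1, .b false 2 2 2, .b true 2 3 3, .b false 1 1 3, .b false 1 0 2, .q false 3 0 1 2 3]⟩,
  ⟨4, [], ad4, [.b false 2 0 0, .b true 2 1 1, .b false 2 2 2, .b false 2 3 3, .q false 3 0 1 2 3, .q true 1 0 1 2 3]⟩,
  ⟨4, [], ad4, [.b false 2 0 0, .b true 2 1 1, .b false 2 2 2, .b false 2 3 3, .q true 3 0 1 2 3, .q false 1 0 1 2 3]⟩,
  ⟨4, [], ad4, [.b false 2 0 0, .b false 2 1 1, .b true 2 2 2, .b true 2 3 3, .b true 1 2 3, .q false 3 0 1 2 3, .q true 1 0 1 2 3]⟩,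
  ⟨4, [], ad4, [.b false 2 0 0, .b false 2 1 1, .b true 2 2 2, .b true 2 3 3, .b true 1 2 3, .q true 3 0 1 2 3, .q false 1 0 1 2 3]⟩,
  ⟨4, [], ad4, [.b false 2 0 0, .b false 2 1 1, .b true 2 2 2, .b true 2 3 3, .b false 1 2 3, .b true 1 0 1, .q false 3 0 1 2 3, .q true 2 0 1 2 3]⟩,
  ⟨4, [], ad4, [.b false 2 0 0, .b false 2 1 1, .b true 2 2 2, .b true 2 3 3, .b false 1 2 3, .b true 1 0 1, .q true 3 0 1 2 3, .q false 2 0 1 2 3]⟩,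
  ⟨4, [], ad4, [.b false 2 0 0, .b false 2 1 1, .b true 2 2 2, .b true 2 3 3, .b false 1 2 3, .b false 1 0 1, .q false 3 0 1 2 3, .b true 0 0 2]⟩,
  ⟨4, [], ad4, [.b false 2 0 0, .b false 2 1 1, .b true 2 2 2, .b true 2 3 3, .b false 1 2 3, .b false 1 0 1, .q true 3 0 1 2 3, .b false 0 0 2]⟩,
  ⟨4, [], ad4, [.b false 2 0 0, .b false 2 1 1, .b true 2 2 2, .b false 2 3 3, .q false 3 0 1 2 3, .q true 1 0 1 2 3]⟩,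
  ⟨4, [], ad4, [.b false 2 0 0, .b false 2 1 1, .b true 2 2 2, .b false 2 3 3, .q true 3 0 1 2 3, .q false 1 0 1 2 3]⟩,
  ⟨4, [], ad4, [.b false 2 0 0, .b false 2 1 1, .b false 2 2 2, .b true 2 3 3, .q false 3 0 1 2 3, .q true 1 0 1 2 3]⟩,
  ⟨4, [], ad4, [.b false 2 0 0, .b false 2 1 1, .b false 2 2 2, .b true 2 3 3, .q true 3 0 1 2 3, .q false 1 0 1 2 3]⟩,
  ⟨4, [], ad4, [.b false 2 0 0, .b false 2 1 1, .b false 2 2 2, .b false 2 3 3, .q false 3 0 1 2 3, .q true 1 0 1 2 3]⟩,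
  ⟨4, [], ad4, [.b false 2 0 0, .b false 2 1 1, .b false 2 2 2, .b false 2 3 3, .q true 3 0 1 2 3, .q false 1 0 1 2 3]⟩]

theorem gDG_h {V : Type} {Y : GSy V} (hc : Y.C.Ok Y.X) (hg : Y.C.Bi Y.G) : UHs Y.rel gDG :=
  .cons (fun v n01 n02 n03 n12 n13 n23 h0 h1 h2 h3 h4 h5 => h5 ((gl0000 (ng h0) (ng h1) (ng h2) (ng h3)).1 h4).2) (
  .cons (fun v n01 n02 n03 n12 n13 n23 h0 h1 h2 h3 h4 h5 => h4 ((gl0000 (ng h0) (ng h1) (ng h2) (ng h3)).2 ⟨⟨n01, n23⟩, h5⟩)) (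
  .cons (fun v n01 n02 n03 n12 n13 n23 h0 h1 h2 h3 h4 h5 => h5 ((gl0001 (ng h0) (ng h1) (ng h2) h3.2).1 h4).2) (
  .cons (fun v n01 n02 n03 n12 n13 n23 h0 h1 h2 h3 h4 h5 => h4 ((gl0001 (ng h0) (ng h1) (ng h2) h3.2).2 ⟨⟨n01, n23⟩, h5⟩)) (
  .cons (fun v n01 n02 n03 n12 n13 n23 h0 h1 h2 h3 h4 h5 => h5 ((gl0010 (ng h0) (ng h1) h2.2 (ng h3)).1 h4).2) (
  .cons (fun v n01 n02 n03 n12 n13 n23 h0 h1 h2 h3 h4 h5 => h4 ((gl0010 (ng h0) (ng h1) h2.2 (ng h3)).2 ⟨⟨n01, n23⟩, h5⟩)) (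
  .cons (fun v n01 n02 n03 n12 n13 n23 h0 h1 h2 h3 h4 h5 h6 => h6 ((two1 h4).1 ((gl0011 (ng h0) (ng h1) h2.2 h3.2).1 h5).2)) (
  .cons (fun v n01 n02 n03 n12 n13 n23 h0 h1 h2 h3 h4 h5 h6 => h5 ((gl0011 (ng h0) (ng h1) h2.2 h3.2).2 ⟨⟨n01, n23⟩, (two1 h4).2 h6⟩)) (
  .cons (fun v n01 n02 n03 n12 n13 n23 h0 h1 h2 h3 h4 h5 h6 h7 => h7 ((two2 h4 h5).1 ((gl0011 (ng h0) (ng h1) h2.2 h3.2).1 h6).2)) (
  .cons (fun v n01 n02 n03 n12 n13 n23 h0 h1 h2 h3 h4 h5 h6 h7 => h6 ((gl0011 (ng h0) (ng h1) h2.2 h3.2).2 ⟨⟨n01, n23⟩, (two2 h4 h5).2 h7⟩)) (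
  .cons (fun v n01 n02 n03 n12 n13 n23 h0 h1 h2 h3 h4 h5 h6 h7 => h7 ((two3 h4 h5).1 ((gl0011 (ng h0) (ng h1) h2.2 h3.2).1 h6).2).1) (
  .cons (fun v n01 n02 n03 n12 n13 n23 h0 h1 h2 h3 h4 h5 h6 h7 => h6 ((gl0011 (ng h0) (ng h1) h2.2 h3.2).2 ⟨⟨n01, n23⟩, (two3 h4 h5).2 (merge_sqg hc hg h2.2 (ng h0) h5 h4 (SimpleGraph.Adj.symm h7)).symm2⟩)) (
  .cons (fun v n01 n02 n03 n12 n13 n23 h0 h1 h2 h3 h4 h5 => h5 ((gl0100 (ng h0) h1.2 (ng h2) (ng h3)).1 h4).2) (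
  .cons (fun v n01 n02 n03 n12 n13 n23 h0 h1 h2 h3 h4 h5 => h4 ((gl0100 (ng h0) h1.2 (ng h2) (ng h3)).2 ⟨⟨n01, n23⟩, h5⟩)) (
  .cons (fun v n01 n02 n03 n12 n13 n23 h0 h1 h2 h3 h4 h5 h6 => h6 ((two1 h4).1 ((gl0101 (ng h0) h1.2 (ng h2) h3.2).1 h5).2)) (
  .cons (fun v n01 n02 n03 n12 n13 n23 h0 h1 h2 h3 h4 h5 h6 => h5 ((gl0101 (ng h0) h1.2 (ng h2) h3.2).2 ⟨⟨n01, n23⟩, (two1 h4).2 h6⟩)) (
  .cons (fun v n01 n02 n03 n12 n13 n23 h0 h1 h2 h3 h4 h5 h6 h7 => h7 ((two2 h4 h5).1 ((gl0101 (ng h0) h1.2 (ng h2) h3.2).1 h6).2)) (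
  .cons (fun v n01 n02 n03 n12 n13 n23 h0 h1 h2 h3 h4 h5 h6 h7 => h6 ((gl0101 (ng h0) h1.2 (ng h2) h3.2).2 ⟨⟨n01, n23⟩, (two2 h4 h5).2 h7⟩)) (
  .cons (fun v n01 n02 n03 n12 n13 n23 h0 h1 h2 h3 h4 h5 h6 => (two3 h4 h5).1 ((gl0101 (ng h0) h1.2 (ng h2) h3.2).1 h6).2) (
  .cons (fun v n01 n02 n03 n12 n13 n23 h0 h1 h2 h3 h4 h5 h6 => h6 ((two1 h4).1 ((gl0110 (ng h0) h1.2 h2.2 (ng h3)).1 h5).2)) (
  .cons (fun v n01 n02 n03 n12 n13 n23 h0 h1 h2 h3 h4 h5 h6 => h5 ((gl0110 (ng h0) h1.2 h2.2 (ng h3)).2 ⟨⟨n01, n23⟩, (two1 h4).2 h6⟩)) (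
  .cons (fun v n01 n02 n03 n12 n13 n23 h0 h1 h2 h3 h4 h5 h6 h7 => h7 ((two2 h4 h5).1 ((gl0110 (ng h0) h1.2 h2.2 (ng h3)).1 h6).2)) (
  .cons (fun v n01 n02 n03 n12 n13 n23 h0 h1 h2 h3 h4 h5 h6 h7 => h6 ((gl0110 (ng h0) h1.2 h2.2 (ng h3)).2 ⟨⟨n01, n23⟩, (two2 h4 h5).2 h7⟩)) (
  .cons (fun v n01 n02 n03 n12 n13 n23 h0 h1 h2 h3 h4 h5 h6 => (two3 h4 h5).1 ((gl0110 (ng h0) h1.2 h2.2 (ng h3)).1 h6).2) (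
  .cons (fun v n01 n02 n03 n12 n13 n23 h0 h1 h2 h3 h4 h5 => h5 ((gl0111 (ng h0) h1.2 h2.2 h3.2).1 h4).2) (
  .cons (fun v n01 n02 n03 n12 n13 n23 h0 h1 h2 h3 h4 h5 => h4 ((gl0111 (ng h0) h1.2 h2.2 h3.2).2 ⟨⟨n01, n23⟩, h5⟩)) (
  .cons (fun v n01 n02 n03 n12 n13 n23 h0 h1 h2 h3 h4 h5 => h5 ((gl1000 h0.2 (ng h1) (ng h2) (ng h3)).1 h4).2) (
  .cons (fun v n01 n02 n03 n12 n13 n23 h0 h1 h2 h3 h4 h5 => h4 ((gl1000 h0.2 (ng h1) (ng h2) (ng h3)).2 ⟨⟨n01, n23⟩, h5⟩)) (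
  .cons (fun v n01 n02 n03 n12 n13 n23 h0 h1 h2 h3 h4 h5 h6 => h6 ((two1 h4).1 ((gl1001 h0.2 (ng h1) (ng h2) h3.2).1 h5).2)) (
  .cons (fun v n01 n02 n03 n12 n13 n23 h0 h1 h2 h3 h4 h5 h6 => h5 ((gl1001 h0.2 (ng h1) (ng h2) h3.2).2 ⟨⟨n01, n23⟩, (two1 h4).2 h6⟩)) (
  .cons (fun v n01 n02 n03 n12 n13 n23 h0 h1 h2 h3 h4 h5 h6 h7 => h7 ((two2 h4 h5).1 ((gl1001 h0.2 (ng h1) (ng h2) h3.2).1 h6).2)) (
  .cons (fun v n01 n02 n03 n12 n13 n23 h0 h1 h2 h3 h4 h5 h6 h7 => h6 ((gl1001 h0.2 (ng h1) (ng h2) h3.2).2 ⟨⟨n01, n23⟩, (two2 h4 h5).2 h7⟩)) (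
  .cons (fun v n01 n02 n03 n12 n13 n23 h0 h1 h2 h3 h4 h5 h6 => (two3 h4 h5).1 ((gl1001 h0.2 (ng h1) (ng h2) h3.2).1 h6).2) (
  .cons (fun v n01 n02 n03 n12 n13 n23 h0 h1 h2 h3 h4 h5 h6 => h6 ((two1 h4).1 ((gl1010 h0.2 (ng h1) h2.2 (ng h3)).1 h5).2)) (
  .cons (fun v n01 n02 n03 n12 n13 n23 h0 h1 h2 h3 h4 h5 h6 => h5 ((gl1010 h0.2 (ng h1) h2.2 (ng h3)).2 ⟨⟨n01, n23⟩, (two1 h4).2 h6⟩)) (
  .cons (fun v n01 n02 n03 n12 n13 n23 h0 h1 h2 h3 h4 h5 h6 h7 => h7 ((two2 h4 h5).1 ((gl1010 h0.2 (ng h1) h2.2 (ng h3)).1 h6).2)) (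
  .cons (fun v n01 n02 n03 n12 n13 n23 h0 h1 h2 h3 h4 h5 h6 h7 => h6 ((gl1010 h0.2 (ng h1) h2.2 (ng h3)).2 ⟨⟨n01, n23⟩, (two2 h4 h5).2 h7⟩)) (
  .cons (fun v n01 n02 n03 n12 n13 n23 h0 h1 h2 h3 h4 h5 h6 => (two3 h4 h5).1 ((gl1010 h0.2 (ng h1) h2.2 (ng h3)).1 h6).2) (
  .cons (fun v n01 n02 n03 n12 n13 n23 h0 h1 h2 h3 h4 h5 => h5 ((gl1011 h0.2 (ng h1) h2.2 h3.2).1 h4).2) (
  .cons (fun v n01 n02 n03 n12 n13 n23 h0 h1 h2 h3 h4 h5 => h4 ((gl1011 h0.2 (ng h1) h2.2 h3.2).2 ⟨⟨n01, n23⟩, h5⟩)) (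
  .cons (fun v n01 n02 n03 n12 n13 n23 h0 h1 h2 h3 h4 h5 h6 => h6 ((two1 h4).1 ((gl1100 h0.2 h1.2 (ng h2) (ng h3)).1 h5).2)) (
  .cons (fun v n01 n02 n03 n12 n13 n23 h0 h1 h2 h3 h4 h5 h6 => h5 ((gl1100 h0.2 h1.2 (ng h2) (ng h3)).2 ⟨⟨n01, n23⟩, (two1 h4).2 h6⟩)) (
  .cons (fun v n01 n02 n03 n12 n13 n23 h0 h1 h2 h3 h4 h5 h6 h7 => h7 ((two2 h4 h5).1 ((gl1100 h0.2 h1.2 (ng h2) (ng h3)).1 h6).2)) (
  .cons (fun v n01 n02 n03 n12 n13 n23 h0 h1 h2 h3 h4 h5 h6 h7 => h6 ((gl1100 h0.2 h1.2 (ng h2) (ng h3)).2 ⟨⟨n01, n23⟩, (two2 h4 h5).2 h7⟩)) (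
  .cons (fun v n01 n02 n03 n12 n13 n23 h0 h1 h2 h3 h4 h5 h6 h7 => h7 ((two3 h4 h5).1 ((gl1100 h0.2 h1.2 (ng h2) (ng h3)).1 h6).2).1) (
  .cons (fun v n01 n02 n03 n12 n13 n23 h0 h1 h2 h3 h4 h5 h6 h7 => h6 ((gl1100 h0.2 h1.2 (ng h2) (ng h3)).2 ⟨⟨n01, n23⟩, (two3 h4 h5).2 (merge_sqg hc hg h0.2 (ng h2) h5 h4 h7)⟩)) (
  .cons (fun v n01 n02 n03 n12 n13 n23 h0 h1 h2 h3 h4 h5 => h5 ((gl1101 h0.2 h1.2 (ng h2) h3.2).1 h4).2) (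
  .cons (fun v n01 n02 n03 n12 n13 n23 h0 h1 h2 h3 h4 h5 => h4 ((gl1101 h0.2 h1.2 (ng h2) h3.2).2 ⟨⟨n01, n23⟩, h5⟩)) (
  .cons (fun v n01 n02 n03 n12 n13 n23 h0 h1 h2 h3 h4 h5 => h5 ((gl1110 h0.2 h1.2 h2.2 (ng h3)).1 h4).2) (
  .cons (fun v n01 n02 n03 n12 n13 n23 h0 h1 h2 h3 h4 h5 => h4 ((gl1110 h0.2 h1.2 h2.2 (ng h3)).2 ⟨⟨n01, n23⟩, h5⟩)) (
  .cons (fun v n01 n02 n03 n12 n13 n23 h0 h1 h2 h3 h4 h5 => h5 ((gl1111 h0.2 h1.2 h2.2 h3.2).1 h4).2) (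
  .cons (fun v n01 n02 n03 n12 n13 n23 h0 h1 h2 h3 h4 h5 => h4 ((gl1111 h0.2 h1.2 h2.2 h3.2).2 ⟨⟨n01, n23⟩, h5⟩)) (
  .nil))))))))))))))))))))))))))))))))))))))))))))))))))))

end Pool.Agent.SOG
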