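import Pool.Agent.SOG.MDefs

/-! Project SOG: templates for the modified structure (generated). -/

set_option autoImplicit false
set_option maxRecDepth 100000
set_option linter.unusedVariables false

namespace Pool.Agent.SOG

open Pool.Agent.SOC Pool.Agent.SOD Pool.Agent.RUP Pool.Agent.SOF

/-- templates -/
def mO : List Tm := [
  ⟨4, [], ad4, [.q true 0 0 1 2 3, .q true 0 0 2 1 3, .q true 0 0 3 1 2]⟩,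
  ⟨4, [], ad4, [.q false 0 0 1 2 3, .q false 0 0 2 1 3]⟩,
  ⟨5, [], ad5, [.q false 0 0 1 2 3, .q false 0 0 1 3 4, .q false 0 0 1 2 4]⟩,
  ⟨5, [], ad5, [.q false 0 0 1 2 3, .q true 0 0 1 3 4, .q true 0 0 1 2 4]⟩]

theorem mO_h {V : Type} {Y : MSy V} (hc : Y.C.Ok Y.X) : UHs Y.rel mO :=
  .cons (fun v n01 n02 n03 n12 n13 n23 h0 h1 h2 => (hc.sepr.one n01 n02 n03 n12 n13 n23).elim h0 (fun k => k.elim h1 h2)) (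
  .cons (fun v n01 n02 n03 n12 n13 n23 h0 h1 => hc.sepr.amo h0 h1) (
  .cons (fun v n01 n02 n03 n04 n12 n13 n14 n23 n24 n34 h0 h1 h2 => hc.sepr.add h0 h1 h2) (
  .cons (fun v n01 n02 n03 n04 n12 n13 n14 n23 n24 n34 h0 h1 h2 => (hc.sepr.add2 h0 n34 n24 n04 n14).elim h1 h2) (
  .nil))))

/-- templates -/
def mC : List Tm := [
  ⟨4, [], ad4, [.b false 2 0 0, .b false 2 1 1, .b true 2 2 2, .b true 2 3 3, .q false 0 0 1 2 3]⟩,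
  ⟨2, [], [(0, 1)], [.b false 2 0 0, .b true 2 1 1, .b false 0 0 1, .b true 3 0 0]⟩,
  ⟨2, [], [(0, 1)], [.b false 2 0 0, .b true 2 1 1, .b false 0 0 1, .b true 3 1 1]⟩,
  ⟨2, [], [(0, 1)], [.b false 1 0 1, .b false 2 0 0, .b true 2 1 1]⟩,
  ⟨2, [], [(0, 1)], [.b false 1 0 1, .b true 3 0 0]⟩,
  ⟨3, [], [(0, 1), (0, 2), (1, 2)], [.b false 1 0 1, .b false 1 1 2, .b true 1 0 2]⟩,
  ⟨3, [], [(0, 1), (0, 2), (1, 2)], [.b false 1 0 1, .b false 2 0 0, .b true 2 2 2, .b false 0 0 2, .b true 0 1 2]⟩,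
  ⟨3, [], [(0, 1), (0, 2), (1, 2)], [.b false 1 0 1, .b true 2 0 0, .b false 2 2 2, .b false 0 0 2, .b true 0 1 2]⟩,
  ⟨4, [], ad4, [.b false 1 0 1, .b false 3 2 2, .b false 2 0 0, .b false 2 2 2, .b true 2 3 3, .q false 0 0 1 2 3, .b true 1 0 2]⟩,
  ⟨4, [], ad4, [.b false 1 0 1, .b false 3 2 2, .b true 2 0 0, .b true 2 2 2, .b false 2 3 3, .q false 0 0 1 2 3, .b true 1 0 2]⟩]

theorem mC_h {V : Type} {Y : MSy V} (hc : Y.C.Ok Y.X) (hg : Y.C.Bi Y.G) : UHs Y.rel mC :=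
  .cons (fun v n01 n02 n03 n12 n13 n23 h0 h1 h2 h3 h4 => hc.int h0.2 h1.2 (ng h2) (ng h3) h4) (
  .cons (fun v n01 h0 h1 h2 h3 => h3 ⟨rfl, (hg.xa h0.2 (ng h1) h2).1⟩) (
  .cons (fun v n01 h0 h1 h2 h3 => h3 ⟨rfl, (hg.xa h0.2 (ng h1) h2).2⟩) (
  .cons (fun v n01 h0 h1 h2 => h2 ⟨rfl, hc.kS h0 h1.2⟩) (
  .cons (fun v n01 h0 h1 => h1 ⟨rfl, hc.kA h0⟩) (
  .cons (fun v n01 n02 n12 h0 h1 h2 => h2 (hc.ktr h0 h1)) (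
  .cons (fun v n01 n02 n12 h0 h1 h2 h3 h4 => h4 (hg.bi h0 h1.2 (ng h2) h3)) (
  .cons (fun v n01 n02 n12 h0 h1 h2 h3 h4 => h4 (hg.bi' h0 (ng h1) h2.2 h3)) (
  .cons (fun v n01 n02 n03 n12 n13 n23 h0 h1 h2 h3 h4 h5 h6 => h6 (hc.kb h0 h1.2 h2.2 h3.2 (ng h4) h5)) (
  .cons (fun v n01 n02 n03 n12 n13 n23 h0 h1 h2 h3 h4 h5 h6 => h6 (hc.kb' h0 h1.2 (ng h2) (ng h3) h4.2 h5)) (
  .nil))))))))))

/-- templates -/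
def mH : List Tm := [
  ⟨4, [], ad4, [.q false 1 0 1 2 3, .b true 0 0 2]⟩,
  ⟨4, [], ad4, [.q false 1 0 1 2 3, .q false 0 0 1 2 3]⟩,
  ⟨4, [], ad4, [.q false 1 0 1 2 3, .b true 2 0 0, .b true 3 0 0]⟩,
  ⟨4, [], ad4, [.q false 1 0 1 2 3, .b true 2 0 0, .b true 2 1 1, .b false 1 0 1]⟩,
  ⟨4, [], ad4, [.q false 1 0 1 2 3, .b true 2 0 0, .b true 2 2 2, .b false 1 0 2]⟩,
  ⟨4, [], ad4, [.q false 1 0 1 2 3, .q false 1 0 2 1 3]⟩,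
  ⟨4, [], ad4, [.b false 0 0 2, .b false 0 1 3, .q false 0 0 2 1 3, .q true 1 0 1 2 3, .q true 1 0 3 1 2, .b true 2 0 0, .b true 2 1 1, .b true 2 2 2, .b true 2 3 3, .b false 3 0 0, .b false 3 1 1, .b false 3 2 2, .b false 3 3 3, .b true 1 0 1, .b true 1 0 2, .b true 1 0 3, .b true 1 1 2, .b true 1 1 3, .b true 1 2 3]⟩,
  ⟨4, [], ad4, [.b false 0 0 2, .b false 0 1 3, .q false 0 0 2 1 3, .q true 1 0 1 2 3, .q true 1 0 3 1 2, .b true 2 0 0, .b true 2 1 1, .b true 2 2 2, .b false 2 3 3, .b false 3 0 0, .b false 3 1 1, .b false 3 2 2, .b true 1 0 1, .b true 1 0 2, .b true 1 1 2]⟩,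
  ⟨4, [], ad4, [.b false 0 0 2, .b false 0 1 3, .q false 0 0 2 1 3, .q true 1 0 1 2 3, .q true 1 0 3 1 2, .b true 2 0 0, .b true 2 1 1, .b false 2 2 2, .b true 2 3 3, .b false 3 0 0, .b false 3 1 1, .b false 3 3 3, .b true 1 0 1, .b true 1 0 3, .b true 1 1 3]⟩,
  ⟨4, [], ad4, [.b false 0 0 2, .b false 0 1 3, .q false 0 0 2 1 3, .q true 1 0 1 2 3, .q true 1 0 3 1 2, .b true 2 0 0, .b true 2 1 1, .b false 2 2 2, .b false 2 3 3, .b false 3 0 0, .b false 3 1 1, .b true 1 0 1]⟩,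
  ⟨4, [], ad4, [.b false 0 0 2, .b false 0 1 3, .q false 0 0 2 1 3, .q true 1 0 1 2 3, .q true 1 0 3 1 2, .b true 2 0 0, .b false 2 1 1, .b true 2 2 2, .b true 2 3 3, .b false 3 0 0, .b false 3 2 2, .b false 3 3 3, .b true 1 0 2, .b true 1 0 3, .b true 1 2 3]⟩,
  ⟨4, [], ad4, [.b false 0 0 2, .b false 0 1 3, .q false 0 0 2 1 3, .q true 1 0 1 2 3, .q true 1 0 3 1 2, .b true 2 0 0, .b false 2 1 1, .b true 2 2 2, .b false 2 3 3, .b false 3 0 0, .b false 3 2 2, .b true 1 0 2]⟩,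
  ⟨4, [], ad4, [.b false 0 0 2, .b false 0 1 3, .q false 0 0 2 1 3, .q true 1 0 1 2 3, .q true 1 0 3 1 2, .b true 2 0 0, .b false 2 1 1, .b false 2 2 2, .b true 2 3 3, .b false 3 0 0, .b false 3 3 3, .b true 1 0 3]⟩,
  ⟨4, [], ad4, [.b false 0 0 2, .b false 0 1 3, .q false 0 0 2 1 3, .q true 1 0 1 2 3, .q true 1 0 3 1 2, .b true 2 0 0, .b false 2 1 1, .b false 2 2 2, .b false 2 3 3, .b false 3 0 0]⟩,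
  ⟨4, [], ad4, [.b false 0 0 2, .b false 0 1 3, .q false 0 0 2 1 3, .q true 1 0 1 2 3, .q true 1 0 3 1 2, .b false 2 0 0, .b true 2 1 1, .b true 2 2 2, .b true 2 3 3, .b false 3 1 1, .b false 3 2 2, .b false 3 3 3, .b true 1 1 2, .b true 1 1 3, .b true 1 2 3]⟩,
  ⟨4, [], ad4, [.b false 0 0 2, .b false 0 1 3, .q false 0 0 2 1 3, .q true 1 0 1 2 3, .q true 1 0 3 1 2, .b false 2 0 0, .b true 2 1 1, .b true 2 2 2, .b false 2 3 3, .b false 3 1 1, .b false 3 2 2, .b true 1 1 2]⟩,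
  ⟨4, [], ad4, [.b false 0 0 2, .b false 0 1 3, .q false 0 0 2 1 3, .q true 1 0 1 2 3, .q true 1 0 3 1 2, .b false 2 0 0, .b true 2 1 1, .b false 2 2 2, .b true 2 3 3, .b false 3 1 1, .b false 3 3 3, .b true 1 1 3]⟩,
  ⟨4, [], ad4, [.b false 0 0 2, .b false 0 1 3, .q false 0 0 2 1 3, .q true 1 0 1 2 3, .q true 1 0 3 1 2, .b false 2 0 0, .b true 2 1 1, .b false 2 2 2, .b false 2 3 3, .b false 3 1 1]⟩,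
  ⟨4, [], ad4, [.b false 0 0 2, .b false 0 1 3, .q false 0 0 2 1 3, .q true 1 0 1 2 3, .q true 1 0 3 1 2, .b false 2 0 0, .b false 2 1 1, .b true 2 2 2, .b true 2 3 3, .b false 3 2 2, .b false 3 3 3, .b true 1 2 3]⟩,
  ⟨4, [], ad4, [.b false 0 0 2, .b false 0 1 3, .q false 0 0 2 1 3, .q true 1 0 1 2 3, .q true 1 0 3 1 2, .b false 2 0 0, .b false 2 1 1, .b true 2 2 2, .b false 2 3 3, .b false 3 2 2]⟩,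
  ⟨4, [], ad4, [.b false 0 0 2, .b false 0 1 3, .q false 0 0 2 1 3, .q true 1 0 1 2 3, .q true 1 0 3 1 2, .b false 2 0 0, .b false 2 1 1, .b false 2 2 2, .b true 2 3 3, .b false 3 3 3]⟩,
  ⟨4, [], ad4, [.b false 0 0 2, .b false 0 1 3, .q false 0 0 2 1 3, .q true 1 0 1 2 3, .q true 1 0 3 1 2, .b false 2 0 0, .b false 2 1 1, .b false 2 2 2, .b false 2 3 3]⟩,
  ⟨5, [], ad5, [.q false 1 0 1 2 3, .q false 1 0 1 3 4, .q true 1 0 1 2 4, .b true 1 2 4]⟩,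
  ⟨5, [], ad5, [.q false 1 0 1 2 3, .q false 1 0 1 3 4, .q true 1 0 1 2 4, .b false 2 2 2]⟩,
  ⟨5, [], ad5, [.q false 1 0 2 1 3, .q false 1 0 4 1 2, .q true 1 0 4 1 3]⟩,
  ⟨6, [], ad6, [.q false 1 0 2 1 3, .q false 1 0 4 1 5, .q true 1 0 2 1 5, .q true 1 0 4 1 3]⟩,
  ⟨5, [], ad5, [.b true 2 3 3, .b false 1 3 4, .q false 1 0 1 2 3, .q true 1 0 1 2 4]⟩]

theorem mH_h {V : Type} {Y : MSy V} (hh : Half Y.C Y.G Y.X Y.C.S Y.T1) : UHs Y.rel mH :=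
  .cons (fun v n01 n02 n03 n12 n13 n23 h0 h1 => h1 (hh.adj h0)) (
  .cons (fun v n01 n02 n03 n12 n13 n23 h0 h1 => hh.nocross h0 h1) (
  .cons (fun v n01 n02 n03 n12 n13 n23 h0 h1 h2 => (hh.att h0).elim (ng h1) (ng h2)) (
  .cons (fun v n01 n02 n03 n12 n13 n23 h0 h1 h2 h3 => hh.d1 h0 (ng h1) (ng h2) h3) (
  .cons (fun v n01 n02 n03 n12 n13 n23 h0 h1 h2 h3 => hh.d2 h0 (ng h1) (ng h2) h3) (
  .cons (fun v n01 n02 n03 n12 n13 n23 h0 h1 => hh.nb h0 h1) (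
  .cons (fun v n01 n02 n03 n12 n13 n23 h0 h1 h2 h3 h4 h5 h6 h7 h8 h9 h10 h11 h12 h13 h14 h15 h16 h17 h18 => (hh.some h0 h1 h2 (Or.inr h9.2) (Or.inr h10.2) (Or.inr h11.2) (Or.inr h12.2) (Or.inr (Or.inr h13)) (Or.inr (Or.inr h14)) (Or.inr (Or.inr h15)) (Or.inr (Or.inr h16)) (Or.inr (Or.inr h17)) (Or.inr (Or.inr h18))).elim h3 h4) (
  .cons (fun v n01 n02 n03 n12 n13 n23 h0 h1 h2 h3 h4 h5 h6 h7 h8 h9 h10 h11 h12 h13 h14 => (hh.some h0 h1 h2 (Or.inr h9.2) (Or.inr h10.2) (Or.inr h11.2) (Or.inl h8.2) (Or.inr (Or.inr h12)) (Or.inr (Or.inr h13)) (Or.inr (Or.inl h8.2)) (Or.inr (Or.inr h14)) (Or.inr (Or.inl h8.2)) (Or.inr (Or.inl h8.2))).elim h3 h4) (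
  .cons (fun v n01 n02 n03 n12 n13 n23 h0 h1 h2 h3 h4 h5 h6 h7 h8 h9 h10 h11 h12 h13 h14 => (hh.some h0 h1 h2 (Or.inr h9.2) (Or.inr h10.2) (Or.inl h7.2) (Or.inr h11.2) (Or.inr (Or.inr h12)) (Or.inr (Or.inl h7.2)) (Or.inr (Or.inr h13)) (Or.inr (Or.inl h7.2)) (Or.inr (Or.inr h14)) (Or.inl h7.2)).elim h3 h4) (
  .cons (fun v n01 n02 n03 n12 n13 n23 h0 h1 h2 h3 h4 h5 h6 h7 h8 h9 h10 h11 => (hh.some h0 h1 h2 (Or.inr h9.2) (Or.inr h10.2) (Or.inl h7.2) (Or.inl h8.2) (Or.inr (Or.inr h11)) (Or.inr (Or.inl h7.2)) (Or.inr (Or.inl h8.2)) (Or.inr (Or.inl h7.2)) (Or.inr (Or.inl h8.2)) (Or.inl h7.2)).elim h3 h4) (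
  .cons (fun v n01 n02 n03 n12 n13 n23 h0 h1 h2 h3 h4 h5 h6 h7 h8 h9 h10 h11 h12 h13 h14 => (hh.some h0 h1 h2 (Or.inr h9.2) (Or.inl h6.2) (Or.inr h10.2) (Or.inr h11.2) (Or.inr (Or.inl h6.2)) (Or.inr (Or.inr h12)) (Or.inr (Or.inr h13)) (Or.inl h6.2) (Or.inl h6.2) (Or.inr (Or.inr h14))).elim h3 h4) (
  .cons (fun v n01 n02 n03 n12 n13 n23 h0 h1 h2 h3 h4 h5 h6 h7 h8 h9 h10 h11 => (hh.some h0 h1 h2 (Or.inr h9.2) (Or.inl h6.2) (Or.inr h10.2) (Or.inl h8.2) (Or.inr (Or.inl h6.2)) (Or.inr (Or.inr h11)) (Or.inr (Or.inl h8.2)) (Or.inl h6.2) (Or.inl h6.2) (Or.inr (Or.inl h8.2))).elim h3 h4) (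
  .cons (fun v n01 n02 n03 n12 n13 n23 h0 h1 h2 h3 h4 h5 h6 h7 h8 h9 h10 h11 => (hh.some h0 h1 h2 (Or.inr h9.2) (Or.inl h6.2) (Or.inl h7.2) (Or.inr h10.2) (Or.inr (Or.inl h6.2)) (Or.inr (Or.inl h7.2)) (Or.inr (Or.inr h11)) (Or.inl h6.2) (Or.inl h6.2) (Or.inl h7.2)).elim h3 h4) (
  .cons (fun v n01 n02 n03 n12 n13 n23 h0 h1 h2 h3 h4 h5 h6 h7 h8 h9 => (hh.some h0 h1 h2 (Or.inr h9.2) (Or.inl h6.2) (Or.inl h7.2) (Or.inl h8.2) (Or.inr (Or.inl h6.2)) (Or.inr (Or.inl h7.2)) (Or.inr (Or.inl h8.2)) (Or.inl h6.2) (Or.inl h6.2) (Or.inl h7.2)).elim h3 h4) (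
  .cons (fun v n01 n02 n03 n12 n13 n23 h0 h1 h2 h3 h4 h5 h6 h7 h8 h9 h10 h11 h12 h13 h14 => (hh.some h0 h1 h2 (Or.inl h5.2) (Or.inr h9.2) (Or.inr h10.2) (Or.inr h11.2) (Or.inl h5.2) (Or.inl h5.2) (Or.inl h5.2) (Or.inr (Or.inr h12)) (Or.inr (Or.inr h13)) (Or.inr (Or.inr h14))).elim h3 h4) (
  .cons (fun v n01 n02 n03 n12 n13 n23 h0 h1 h2 h3 h4 h5 h6 h7 h8 h9 h10 h11 => (hh.some h0 h1 h2 (Or.inl h5.2) (Or.inr h9.2) (Or.inr h10.2) (Or.inl h8.2) (Or.inl h5.2) (Or.inl h5.2) (Or.inl h5.2) (Or.inr (Or.inr h11)) (Or.inr (Or.inl h8.2)) (Or.inr (Or.inl h8.2))).elim h3 h4) (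
  .cons (fun v n01 n02 n03 n12 n13 n23 h0 h1 h2 h3 h4 h5 h6 h7 h8 h9 h10 h11 => (hh.some h0 h1 h2 (Or.inl h5.2) (Or.inr h9.2) (Or.inl h7.2) (Or.inr h10.2) (Or.inl h5.2) (Or.inl h5.2) (Or.inl h5.2) (Or.inr (Or.inl h7.2)) (Or.inr (Or.inr h11)) (Or.inl h7.2)).elim h3 h4) (
  .cons (fun v n01 n02 n03 n12 n13 n23 h0 h1 h2 h3 h4 h5 h6 h7 h8 h9 => (hh.some h0 h1 h2 (Or.inl h5.2) (Or.inr h9.2) (Or.inl h7.2) (Or.inl h8.2) (Or.inl h5.2) (Or.inl h5.2) (Or.inl h5.2) (Or.inr (Or.inl h7.2)) (Or.inr (Or.inl h8.2)) (Or.inl h7.2)).elim h3 h4) (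
  .cons (fun v n01 n02 n03 n12 n13 n23 h0 h1 h2 h3 h4 h5 h6 h7 h8 h9 h10 h11 => (hh.some h0 h1 h2 (Or.inl h5.2) (Or.inl h6.2) (Or.inr h9.2) (Or.inr h10.2) (Or.inl h5.2) (Or.inl h5.2) (Or.inl h5.2) (Or.inl h6.2) (Or.inl h6.2) (Or.inr (Or.inr h11))).elim h3 h4) (
  .cons (fun v n01 n02 n03 n12 n13 n23 h0 h1 h2 h3 h4 h5 h6 h7 h8 h9 => (hh.some h0 h1 h2 (Or.inl h5.2) (Or.inl h6.2) (Or.inr h9.2) (Or.inl h8.2) (Or.inl h5.2) (Or.inl h5.2) (Or.inl h5.2) (Or.inl h6.2) (Or.inl h6.2) (Or.inr (Or.inl h8.2))).elim h3 h4) (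
  .cons (fun v n01 n02 n03 n12 n13 n23 h0 h1 h2 h3 h4 h5 h6 h7 h8 h9 => (hh.some h0 h1 h2 (Or.inl h5.2) (Or.inl h6.2) (Or.inl h7.2) (Or.inr h9.2) (Or.inl h5.2) (Or.inl h5.2) (Or.inl h5.2) (Or.inl h6.2) (Or.inl h6.2) (Or.inl h7.2)).elim h3 h4) (
  .cons (fun v n01 n02 n03 n12 n13 n23 h0 h1 h2 h3 h4 h5 h6 h7 h8 => (hh.some h0 h1 h2 (Or.inl h5.2) (Or.inl h6.2) (Or.inl h7.2) (Or.inl h8.2) (Or.inl h5.2) (Or.inl h5.2) (Or.inl h5.2) (Or.inl h6.2) (Or.inl h6.2) (Or.inl h7.2)).elim h3 h4) (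
  .cons (fun v n01 n02 n03 n04 n12 n13 n14 n23 n24 n34 h0 h1 h2 h3 => h2 (hh.trans n24 (Or.inr (Or.inr h3)) h0 h1)) (
  .cons (fun v n01 n02 n03 n04 n12 n13 n14 n23 n24 n34 h0 h1 h2 h3 => h2 (hh.trans n24 (Or.inl h3.2) h0 h1)) (
  .cons (fun v n01 n02 n03 n04 n12 n13 n14 n23 n24 n34 h0 h1 h2 => (hh.ferrers h0 h1).elim (fun k => hh.irr k) h2) (
  .cons (fun v n01 n02 n03 n04 n05 n12 n13 n14 n15 n23 n24 n25 n34 n35 n45 h0 h1 h2 h3 => (hh.ferrers h0 h1).elim h2 h3) (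
  .cons (fun v n01 n02 n03 n04 n12 n13 n14 n23 n24 n34 h0 h1 h2 h3 => h3 (hh.inv (ng h0) h1 h2)) (
  .nil)))))))))))))))))))))))))))

/-- templates -/
def mM : List Tm := [
  ⟨1, [], [], [.b false 5 0 0, .b true 2 0 0]⟩,
  ⟨1, [], [], [.b false 5 0 0, .b true 3 0 0]⟩,
  ⟨1, [], [], [.b false 6 0 0, .b false 2 0 0]⟩,
  ⟨1, [], [], [.b false 6 0 0, .b true 3 0 0]⟩,
  ⟨1, [], [], [.b false 7 0 0, .b false 2 0 0]⟩,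
  ⟨1, [], [], [.b false 7 0 0, .b true 3 0 0]⟩,
  ⟨1, [], [], [.b false 6 0 0, .b false 7 0 0]⟩,
  ⟨2, [], [(0, 1)], [.b false 5 0 0, .b false 5 1 1, .b true 1 0 1]⟩,
  ⟨2, [], [(0, 1)], [.b false 5 0 0, .b false 1 0 1, .b true 5 1 1]⟩,
  ⟨2, [], [(0, 1)], [.b false 6 0 0, .b false 6 1 1, .b true 1 0 1]⟩,
  ⟨2, [], [(0, 1)], [.b false 6 0 0, .b false 1 0 1, .b true 6 1 1]⟩,
  ⟨2, [], [(0, 1)], [.b false 7 0 0, .b false 7 1 1, .b true 1 0 1]⟩,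
  ⟨2, [], [(0, 1)], [.b false 7 0 0, .b false 1 0 1, .b true 7 1 1]⟩,
  ⟨2, [], [(0, 1)], [.b false 6 0 0, .b false 2 1 1, .b false 3 1 1, .b true 0 0 1]⟩,
  ⟨2, [], [(0, 1)], [.b false 6 0 0, .b true 2 1 1, .b false 3 1 1, .b true 6 1 1, .b true 0 0 1]⟩,
  ⟨2, [], [(0, 1)], [.b false 5 0 0, .b false 2 1 1, .b false 3 1 1, .b true 5 1 1, .b true 0 0 1]⟩,
  ⟨2, [], [(0, 1)], [.b false 5 0 0, .b false 7 1 1, .b true 0 0 1]⟩,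
  ⟨4, [], ad4, [.b false 3 0 0, .b true 5 0 0, .b true 6 0 0, .b true 7 0 0, .b false 5 1 1, .b false 5 2 2, .b false 7 3 3, .b false 0 0 1, .b false 0 0 2, .q true 1 0 3 1 2]⟩]

theorem mM_h {V : Type} {Y : MSy V} (hm : MH Y.C Y.G Y.T1 Y.F Y.Y Y.O) : UHs Y.rel mM :=
  .cons (fun v  h0 h1 => h1 ⟨rfl, hm.fs h0.2⟩) (
  .cons (fun v  h0 h1 => h1 ⟨rfl, hm.fa h0.2⟩) (
  .cons (fun v  h0 h1 => (hm.ys h0.2) h1.2) (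
  .cons (fun v  h0 h1 => h1 ⟨rfl, hm.ya h0.2⟩) (
  .cons (fun v  h0 h1 => (hm.os h0.2) h1.2) (
  .cons (fun v  h0 h1 => h1 ⟨rfl, hm.oa h0.2⟩) (
  .cons (fun v  h0 h1 => hm.yo h0.2 h1.2) (
  .cons (fun v n01 h0 h1 h2 => h2 (hm.fk h0.2 h1.2)) (
  .cons (fun v n01 h0 h1 h2 => h2 ⟨rfl, hm.fk' h0.2 h1⟩) (
  .cons (fun v n01 h0 h1 h2 => h2 (hm.yk h0.2 h1.2)) (
  .cons (fun v n01 h0 h1 h2 => h2 ⟨rfl, hm.yk' h0.2 h1⟩) (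
  .cons (fun v n01 h0 h1 h2 => h2 (hm.ok h0.2 h1.2)) (
  .cons (fun v n01 h0 h1 h2 => h2 ⟨rfl, hm.ok' h0.2 h1⟩) (
  .cons (fun v n01 h0 h1 h2 h3 => h3 (hm.ay h0.2 h1.2 h2.2)) (
  .cons (fun v n01 h0 h1 h2 h3 h4 => h4 (hm.ay' h0.2 (ng h1) h2.2 (ng h3))) (
  .cons (fun v n01 h0 h1 h2 h3 h4 => h4 (hm.ax h0.2 h1.2 h2.2 (ng h3))) (
  .cons (fun v n01 h0 h1 h2 => h2 (hm.ao h0.2 h1.2)) (
  .cons (fun v n01 n02 n03 n12 n13 n23 h0 h1 h2 h3 h4 h5 h6 h7 h8 h9 => h9 (hm.fact h0.2 (ng h1) (ng h2) (ng h3) h4.2 h5.2 n12 h6.2 h7 h8)) (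
  .nil))))))))))))))))))

/-- templates -/
def mD : List Tm := [
  ⟨4, [], ad4, [.b true 6 0 0, .b true 6 1 1, .b true 6 2 2, .b true 6 3 3, .q false 3 0 1 2 3, .q true 1 0 1 2 3]⟩,
  ⟨4, [], ad4, [.b true 6 0 0, .b true 6 1 1, .b true 6 2 2, .b true 6 3 3, .q true 3 0 1 2 3, .q false 1 0 1 2 3]⟩,
  ⟨4, [], ad4, [.b false 6 0 0, .b false 6 1 1, .q false 3 0 1 2 3]⟩,
  ⟨4, [], ad4, [.b false 6 0 0, .b false 6 2 2, .q false 3 0 1 2 3]⟩,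
  ⟨5, [], ad5, [.b false 6 0 0, .b true 6 1 1, .b true 6 2 2, .b true 6 3 3, .b false 5 1 1, .b false 5 2 2, .b false 5 3 3, .b false 7 4 4, .q false 3 0 1 2 3, .q true 1 4 1 2 3]⟩,
  ⟨5, [], ad5, [.b false 6 0 0, .b true 6 1 1, .b true 6 2 2, .b true 6 3 3, .b false 5 1 1, .b false 5 2 2, .b false 5 3 3, .b false 7 4 4, .q true 3 0 1 2 3, .q false 1 4 1 2 3]⟩,
  ⟨4, [], ad4, [.b false 6 0 0, .b true 6 1 1, .b true 6 2 2, .b true 6 3 3, .b true 5 1 1, .b false 5 2 2, .b false 5 3 3, .b true 2 1 1, .b false 7 1 1, .q true 3 0 1 2 3]⟩,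
  ⟨5, [], ad5, [.b false 6 0 0, .b true 6 1 1, .b true 6 2 2, .b true 6 3 3, .b true 5 1 1, .b false 5 2 2, .b false 5 3 3, .b true 2 1 1, .b true 7 1 1, .b false 7 4 4, .q false 3 0 1 2 3, .q true 1 4 1 2 3]⟩,
  ⟨5, [], ad5, [.b false 6 0 0, .b true 6 1 1, .b true 6 2 2, .b true 6 3 3, .b true 5 1 1, .b false 5 2 2, .b false 5 3 3, .b true 2 1 1, .b true 7 1 1, .b false 7 4 4, .q true 3 0 1 2 3, .q false 1 4 1 2 3]⟩,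
  ⟨4, [], ad4, [.b false 6 0 0, .b true 6 1 1, .b true 6 2 2, .b true 6 3 3, .b true 5 1 1, .b false 5 2 2, .b false 5 3 3, .b false 2 1 1, .b false 3 1 1, .q true 3 0 1 2 3]⟩,
  ⟨4, [], ad4, [.b false 6 0 0, .b true 6 1 1, .b true 6 2 2, .b true 6 3 3, .b true 5 1 1, .b false 5 2 2, .b false 5 3 3, .b false 2 1 1, .b true 3 1 1, .q false 3 0 1 2 3, .q true 1 0 1 2 3]⟩,
  ⟨4, [], ad4, [.b false 6 0 0, .b true 6 1 1, .b true 6 2 2, .b true 6 3 3, .b true 5 1 1, .b false 5 2 2, .b false 5 3 3, .b false 2 1 1, .b true 3 1 1, .q true 3 0 1 2 3, .q false 1 0 1 2 3]⟩,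
  ⟨4, [], ad4, [.b false 6 0 0, .b true 6 1 1, .b true 6 2 2, .b true 6 3 3, .b false 5 1 1, .b false 5 2 2, .b true 5 3 3, .b true 2 3 3, .b false 7 3 3, .q false 3 0 1 2 3]⟩,
  ⟨5, [], ad5, [.b false 6 0 0, .b true 6 1 1, .b true 6 2 2, .b true 6 3 3, .b false 5 1 1, .b false 5 2 2, .b true 5 3 3, .b true 2 3 3, .b true 7 3 3, .b false 7 4 4, .q false 3 0 1 2 3, .q true 1 4 1 2 3]⟩,
  ⟨5, [], ad5, [.b false 6 0 0, .b true 6 1 1, .b true 6 2 2, .b true 6 3 3, .b false 5 1 1, .b false 5 2 2, .b true 5 3 3, .b true 2 3 3, .b true 7 3 3, .b false 7 4 4, .q true 3 0 1 2 3, .q false 1 4 1 2 3]⟩,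
  ⟨4, [], ad4, [.b false 6 0 0, .b true 6 1 1, .b true 6 2 2, .b true 6 3 3, .b false 5 1 1, .b false 5 2 2, .b true 5 3 3, .b false 2 3 3, .b false 3 3 3, .q false 3 0 1 2 3]⟩,
  ⟨4, [], ad4, [.b false 6 0 0, .b true 6 1 1, .b true 6 2 2, .b true 6 3 3, .b false 5 1 1, .b false 5 2 2, .b true 5 3 3, .b false 2 3 3, .b true 3 3 3, .q false 3 0 1 2 3, .q true 1 0 1 2 3]⟩,
  ⟨4, [], ad4, [.b false 6 0 0, .b true 6 1 1, .b true 6 2 2, .b true 6 3 3, .b false 5 1 1, .b false 5 2 2, .b true 5 3 3, .b false 2 3 3, .b true 3 3 3, .q true 3 0 1 2 3, .q false 1 0 1 2 3]⟩,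
  ⟨4, [], ad4, [.b false 6 0 0, .b true 6 1 1, .b true 6 2 2, .b true 6 3 3, .b true 5 1 1, .b true 5 2 2, .q false 3 0 1 2 3, .q true 1 0 1 2 3]⟩,
  ⟨4, [], ad4, [.b false 6 0 0, .b true 6 1 1, .b true 6 2 2, .b true 6 3 3, .b true 5 1 1, .b true 5 2 2, .q true 3 0 1 2 3, .q false 1 0 1 2 3]⟩,
  ⟨4, [], ad4, [.b false 6 0 0, .b true 6 1 1, .b true 6 2 2, .b true 6 3 3, .b true 5 2 2, .b true 5 3 3, .q false 3 0 1 2 3, .q true 1 0 1 2 3]⟩,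
  ⟨4, [], ad4, [.b false 6 0 0, .b true 6 1 1, .b true 6 2 2, .b true 6 3 3, .b true 5 2 2, .b true 5 3 3, .q true 3 0 1 2 3, .q false 1 0 1 2 3]⟩]

theorem mD_h {V : Type} {Y : MSy V} (hh : Half Y.C Y.G Y.X Y.C.S Y.T1) (hm : MH Y.C Y.G Y.T1 Y.F Y.Y Y.O) : UHs Y.rel mD :=
  .cons (fun v n01 n02 n03 n12 n13 n23 h0 h1 h2 h3 h4 h5 => h5 ((mT0 (ng h0) (ng h1) (ng h2) (ng h3)).1 h4).2) (
  .cons (fun v n01 n02 n03 n12 n13 n23 h0 h1 h2 h3 h4 h5 => h4 ((mT0 (ng h0) (ng h1) (ng h2) (ng h3)).2 ⟨⟨n01, n23⟩, h5⟩)) (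
  .cons (fun v n01 n02 n03 n12 n13 n23 h0 h1 h2 => mTab h0.2 h1.2 h2) (
  .cons (fun v n01 n02 n03 n12 n13 n23 h0 h1 h2 => mTac h0.2 h1.2 h2) (
  .cons (fun v n01 n02 n03 n04 n12 n13 n14 n23 n24 n34 h0 h1 h2 h3 h4 h5 h6 h7 h8 h9 => h9 ((mo_f hh hm h4.2 h5.2 h6.2 h7.2).1 ((mT1 h0.2 (ng h1) (ng h2) (ng h3)).1 h8).2)) (
  .cons (fun v n01 n02 n03 n04 n12 n13 n14 n23 n24 n34 h0 h1 h2 h3 h4 h5 h6 h7 h8 h9 => h8 ((mT1 h0.2 (ng h1) (ng h2) (ng h3)).2 ⟨⟨n01, n23⟩, (mo_f hh hm h4.2 h5.2 h6.2 h7.2).2 h9⟩)) (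
  .cons (fun v n01 n02 n03 n12 n13 n23 h0 h1 h2 h3 h4 h5 h6 h7 h8 h9 => h9 ((mT1 h0.2 (ng h1) (ng h2) (ng h3)).2 ⟨⟨n01, n23⟩, mo_g1 (ng h4) h5.2 h6.2 (ng h7) h8.2⟩)) (
  .cons (fun v n01 n02 n03 n04 n12 n13 n14 n23 n24 n34 h0 h1 h2 h3 h4 h5 h6 h7 h8 h9 h10 h11 => h11 ((mo_g2 hh hm (ng h4) h5.2 h6.2 (ng h7) (ng h8) h9.2).1 ((mT1 h0.2 (ng h1) (ng h2) (ng h3)).1 h10).2)) (
  .cons (fun v n01 n02 n03 n04 n12 n13 n14 n23 n24 n34 h0 h1 h2 h3 h4 h5 h6 h7 h8 h9 h10 h11 => h10 ((mT1 h0.2 (ng h1) (ng h2) (ng h3)).2 ⟨⟨n01, n23⟩, (mo_g2 hh hm (ng h4) h5.2 h6.2 (ng h7) (ng h8) h9.2).2 h11⟩)) (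
  .cons (fun v n01 n02 n03 n12 n13 n23 h0 h1 h2 h3 h4 h5 h6 h7 h8 h9 => h9 ((mT1 h0.2 (ng h1) (ng h2) (ng h3)).2 ⟨⟨n01, n23⟩, mo_g3 (ng h4) h5.2 h6.2 h7.2 h8.2⟩)) (
  .cons (fun v n01 n02 n03 n12 n13 n23 h0 h1 h2 h3 h4 h5 h6 h7 h8 h9 h10 => h10 ((mo_g4 (ng h4) h5.2 h6.2 h7.2 (ng h8)).1 ((mT1 h0.2 (ng h1) (ng h2) (ng h3)).1 h9).2)) (
  .cons (fun v n01 n02 n03 n12 n13 n23 h0 h1 h2 h3 h4 h5 h6 h7 h8 h9 h10 => h9 ((mT1 h0.2 (ng h1) (ng h2) (ng h3)).2 ⟨⟨n01, n23⟩, (mo_g4 (ng h4) h5.2 h6.2 h7.2 (ng h8)).2 h10⟩)) (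
  .cons (fun v n01 n02 n03 n12 n13 n23 h0 h1 h2 h3 h4 h5 h6 h7 h8 h9 => mo_b1 h4.2 h5.2 (ng h6) (ng h7) h8.2 ((mT1 h0.2 (ng h1) (ng h2) (ng h3)).1 h9).2) (
  .cons (fun v n01 n02 n03 n04 n12 n13 n14 n23 n24 n34 h0 h1 h2 h3 h4 h5 h6 h7 h8 h9 h10 h11 => h11 ((mo_b2 hh hm h4.2 h5.2 (ng h6) (ng h7) (ng h8) h9.2).1 ((mT1 h0.2 (ng h1) (ng h2) (ng h3)).1 h10).2)) (
  .cons (fun v n01 n02 n03 n04 n12 n13 n14 n23 n24 n34 h0 h1 h2 h3 h4 h5 h6 h7 h8 h9 h10 h11 => h10 ((mT1 h0.2 (ng h1) (ng h2) (ng h3)).2 ⟨⟨n01, n23⟩, (mo_b2 hh hm h4.2 h5.2 (ng h6) (ng h7) (ng h8) h9.2).2 h11⟩)) (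
  .cons (fun v n01 n02 n03 n12 n13 n23 h0 h1 h2 h3 h4 h5 h6 h7 h8 h9 => mo_b3 h4.2 h5.2 (ng h6) h7.2 h8.2 ((mT1 h0.2 (ng h1) (ng h2) (ng h3)).1 h9).2) (
  .cons (fun v n01 n02 n03 n12 n13 n23 h0 h1 h2 h3 h4 h5 h6 h7 h8 h9 h10 => h10 ((mo_b4 h4.2 h5.2 (ng h6) h7.2 (ng h8)).1 ((mT1 h0.2 (ng h1) (ng h2) (ng h3)).1 h9).2)) (
  .cons (fun v n01 n02 n03 n12 n13 n23 h0 h1 h2 h3 h4 h5 h6 h7 h8 h9 h10 => h9 ((mT1 h0.2 (ng h1) (ng h2) (ng h3)).2 ⟨⟨n01, n23⟩, (mo_b4 h4.2 h5.2 (ng h6) h7.2 (ng h8)).2 h10⟩)) (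
  .cons (fun v n01 n02 n03 n12 n13 n23 h0 h1 h2 h3 h4 h5 h6 h7 => h7 ((mo_12 (ng h4) (ng h5)).1 ((mT1 h0.2 (ng h1) (ng h2) (ng h3)).1 h6).2)) (
  .cons (fun v n01 n02 n03 n12 n13 n23 h0 h1 h2 h3 h4 h5 h6 h7 => h6 ((mT1 h0.2 (ng h1) (ng h2) (ng h3)).2 ⟨⟨n01, n23⟩, (mo_12 (ng h4) (ng h5)).2 h7⟩)) (
  .cons (fun v n01 n02 n03 n12 n13 n23 h0 h1 h2 h3 h4 h5 h6 h7 => h7 ((mo_23 (ng h4) (ng h5)).1 ((mT1 h0.2 (ng h1) (ng h2) (ng h3)).1 h6).2)) (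
  .cons (fun v n01 n02 n03 n12 n13 n23 h0 h1 h2 h3 h4 h5 h6 h7 => h6 ((mT1 h0.2 (ng h1) (ng h2) (ng h3)).2 ⟨⟨n01, n23⟩, (mo_23 (ng h4) (ng h5)).2 h7⟩)) (
  .nil))))))))))))))))))))))

theorem nd_snoc {V : Type} {l : List V} {o : V} (h : l.Nodup) (h' : o ∉ l) : (l ++ [o]).Nodup :=
  List.nodup_append.2 ⟨h, List.nodup_singleton o, fun a ha b hb e => h' (by rw [← List.mem_singleton.1 hb, ← e]; exact ha)⟩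

end Pool.Agent.SOG
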